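import Pool.Agent.Lib.MP_e6f638_al.J.Stmts
import Pool.Agent.Lib.MP_e6f638_al.Main
import Pool.Agent.Lib.MP_551055_al.AT70.Push

/-!
# Module JC1: the class `STA` is closed under subgroups, amalgams and HNN extensions
-/

set_option autoImplicit false

namespace Pool.Agent.Lib.MP_e6f638_al

open Pool.Agent.Lib.MP_551055_al.AT70 Monoid

/-- The action of an amalgam on its tree. -/
theorem push_treeAct (G : Bool → Type) [∀ c, Group (G c)] (B : Type) [Group B]
    (φ : ∀ c, B →* G c) :
    TreeAct (PushoutI φ) (Vert (PushoutI.base φ).range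
      fun i => (PushoutI.of (φ := φ) i).range) (pushGraph φ) where
  tree := pushGraph_isTree φ
  adj := fun g u v h => adj_smul g u v h
  inv := fun g u v h hg => no_inversion g u v h hg

/-- The stabilisers embed in the factors. -/
theorem push_stab (G : Bool → Type) [∀ c, Group (G c)] (B : Type) [Group B]
    (φ : ∀ c, B →* G c) (hφ : ∀ c, Function.Injective (φ c))
    (v : Vert (PushoutI.base φ).range fun i => (PushoutI.of (φ := φ) i).range) :
    ∃ (c : Bool) (f : MulAction.stabilizer (PushoutI φ) v →* G c), Function.Injective f := by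
  obtain ⟨c, f, hf⟩ := stab_embeds (base_range_le φ) v
  have hi : Function.Injective (PushoutI.of (φ := φ) c) := PushoutI.of_injective hφ c
  exact ⟨c, (MonoidHom.ofInjective hi).symm.toMonoidHom.comp f,
    (MonoidHom.ofInjective hi).symm.injective.comp hf⟩

/-- Module JC1. -/
theorem stJC1 : StJC1 where
  inj := fun G K _ _ f hf ⟨d, hd⟩ => ⟨d, TA.of_inj f hf hd⟩
  push := by
    intro G _ B _ φ hφ h
    obtain ⟨d₀, h₀⟩ := h false
    obtain ⟨d₁, h₁⟩ := h true
    refine ⟨max d₀ d₁ + 2, stD_all _ _ _ (push_treeAct G B φ) _ fun v => ?_⟩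
    obtain ⟨c, f, hf⟩ := push_stab G B φ hφ v
    cases c
    · exact TA.of_inj f hf (h₀.mono (le_max_left _ _))
    · exact TA.of_inj f hf (h₁.mono (le_max_right _ _))
  hnn := fun G _ A B φ ⟨d, hd⟩ => ⟨d + 2, stE_all G A B φ d hd⟩

end Pool.Agent.Lib.MP_e6f638_al
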