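import Pool.Agent.Lib.MP_e6f638_al.J.JC1

/-!
# Module JC2: the class `VTA` is closed under subgroups, amalgams and HNN extensions
-/

set_option autoImplicit false

namespace Pool.Agent.Lib.MP_e6f638_al

open Pool.Agent.Lib.MP_551055_al.AT70 Monoid

namespace JC214

section ds

variable {G K : Type*} [Group G] [Group K]

/-- The derived series of a subgroup, as subgroups of the ambient group. -/
def ds (L : Subgroup G) : ℕ → Subgroup G
  | 0 => L
  | n + 1 => ⁅ds L n, ds L n⁆

theorem ds_map (f : G →* K) (L : Subgroup G) (n : ℕ) : (ds L n).map f = ds (L.map f) n := by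
  induction n with
  | zero => rfl
  | succ n ih =>
    change (⁅ds L n, ds L n⁆ : Subgroup G).map f = ⁅ds (L.map f) n, ds (L.map f) n⁆
    rw [Subgroup.map_commutator, ih]

theorem ds_mono {L L' : Subgroup G} (h : L ≤ L') (n : ℕ) : ds L n ≤ ds L' n := by
  induction n with
  | zero => exact h
  | succ n ih => exact Subgroup.commutator_mono ih ih

theorem ds_add (L : Subgroup G) (m n : ℕ) : ds L (m + n) = ds (ds L m) n := by
  induction n with
  | zero => rfl
  | succ n ih =>
    change ⁅ds L (m + n), ds L (m + n)⁆ = ⁅ds (ds L m) n, ds (ds L m) n⁆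
    rw [ih]

theorem commutator_self_le (L : Subgroup G) : ⁅L, L⁆ ≤ L := by
  rw [Subgroup.commutator_le]
  intro a ha b hb
  exact L.mul_mem (L.mul_mem (L.mul_mem ha hb) (L.inv_mem ha)) (L.inv_mem hb)

theorem ds_le (L : Subgroup G) (n : ℕ) : ds L n ≤ L := by
  induction n with
  | zero => exact le_rfl
  | succ n ih => exact (commutator_self_le _).trans ih

theorem ds_bot (n : ℕ) : ds (⊥ : Subgroup G) n = ⊥ := le_bot_iff.mp (ds_le _ n)

theorem ds_eq (L : Subgroup G) (n : ℕ) : (derivedSeries L n).map L.subtype = ds L n := by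
  induction n with
  | zero =>
    change (⊤ : Subgroup L).map L.subtype = L
    rw [← MonoidHom.range_eq_map, Subgroup.range_subtype]
  | succ n ih =>
    change (⁅derivedSeries L n, derivedSeries L n⁆ : Subgroup L).map L.subtype = ⁅ds L n, ds L n⁆
    rw [Subgroup.map_commutator, ih]

theorem ds_top (n : ℕ) : ds (⊤ : Subgroup G) n = derivedSeries G n := by
  induction n with
  | zero => rfl
  | succ n ih =>
    change ⁅ds (⊤ : Subgroup G) n, ds (⊤ : Subgroup G) n⁆ = ⁅derivedSeries G n, derivedSeries G n⁆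
    rw [ih]

theorem ds_eq_bot_iff (L : Subgroup G) (n : ℕ) : ds L n = ⊥ ↔ derivedSeries L n = ⊥ := by
  rw [← ds_eq, Subgroup.map_eq_bot_iff_of_injective _ (Subgroup.subtype_injective _)]

theorem ds_bot_of_le {L : Subgroup G} {m n : ℕ} (h : m ≤ n) (hL : ds L m = ⊥) : ds L n = ⊥ := by
  obtain ⟨k, rfl⟩ := Nat.exists_eq_add_of_le h
  rw [ds_add, hL, ds_bot]

theorem ds_bot_of_map {L : Subgroup G} (f : G →* K) (hf : Function.Injective f) {n : ℕ}
    (h : ds (L.map f) n = ⊥) : ds L n = ⊥ := by
  rw [← ds_map, Subgroup.map_eq_bot_iff_of_injective _ hf] at h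
  exact h

/-- The product of two normal solvable subgroups. -/
theorem ds_sup {L M : Subgroup G} [M.Normal] {a b : ℕ} (hL : ds L a = ⊥) (hM : ds M b = ⊥) :
    ds (L ⊔ M) (a + b) = ⊥ := by
  have h1 : ds (L ⊔ M) a ≤ M := by
    have h2 : (ds (L ⊔ M) a).map (QuotientGroup.mk' M) = ⊥ := by
      have h3 : M.map (QuotientGroup.mk' M) = ⊥ := by
        rw [Subgroup.map_eq_bot_iff, QuotientGroup.ker_mk']
      rw [ds_map, Subgroup.map_sup, h3, sup_bot_eq, ← ds_map, hL, Subgroup.map_bot]
    rwa [Subgroup.map_eq_bot_iff, QuotientGroup.ker_mk'] at h2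
  have h2 := ds_mono h1 b
  rw [hM, le_bot_iff] at h2
  rw [ds_add, h2]

end ds

/-- A type without `N + 1` different elements. -/
theorem card_le {Q : Type*} {N : ℕ} (h : ∀ f : Fin (N + 1) → Q, ¬ Function.Injective f) :
    Finite Q ∧ Nat.card Q ≤ N := by
  have hfin : Finite Q := by
    by_contra hinf
    rw [not_finite_iff_infinite] at hinf
    exact h (fun i => Infinite.natEmbedding Q i) fun i j hij =>
      Fin.val_injective ((Infinite.natEmbedding Q).injective hij)
  refine ⟨hfin, ?_⟩
  by_contra hlt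
  push Not at hlt
  have e := Finite.equivFin Q
  exact h (fun i => e.symm ⟨i, by omega⟩) fun i j hij => by
    have h1 := e.symm.injective hij
    rw [Fin.mk.injEq] at h1
    exact Fin.ext h1

section compact

variable {H : Type*} [Group H]

open Filter

/-- Compactness: a locally virtually solvable group is virtually solvable, with the same bounds. -/
theorem compact (D : Subgroup H) (N d : ℕ)
    (h : ∀ K : Subgroup H, K.FG → K ≤ D →
      ∃ K₀ ≤ K, K₀.relIndex K ≠ 0 ∧ K₀.relIndex K ≤ N ∧ ds K₀ d = ⊥) :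
    ∃ D₀ ≤ D, D₀.relIndex D ≠ 0 ∧ D₀.relIndex D ≤ N ∧ ds D₀ d = ⊥ := by
  classical
  let K : Finset D → Subgroup H := fun s => Subgroup.closure ((fun x : D => (x : H)) '' (s : Set D))
  have hKfg : ∀ s, (K s).FG := fun s =>
    (Subgroup.fg_iff _).mpr ⟨_, rfl, s.finite_toSet.image _⟩
  have hKD : ∀ s, K s ≤ D := fun s => by
    rw [Subgroup.closure_le]
    rintro _ ⟨x, -, rfl⟩
    exact x.2
  choose K₀ hK₀ hne hN hds using fun s => h (K s) (hKfg s) (hKD s)
  let U : Ultrafilter (Finset D) := Ultrafilter.of atTop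
  have hU : (U : Filter (Finset D)) ≤ atTop := Ultrafilter.of_le atTop
  -- the subgroups
  let E : ℕ → Subgroup H := fun k =>
    { carrier := {x | ∀ᶠ s in (U : Filter (Finset D)), x ∈ ds (K₀ s) k}
      mul_mem' := by
        intro a b ha hb
        filter_upwards [ha, hb] with s h1 h2
        exact (ds (K₀ s) k).mul_mem h1 h2
      one_mem' := Eventually.of_forall fun s => (ds (K₀ s) k).one_mem
      inv_mem' := by
        intro a ha
        filter_upwards [ha] with s h1
        exact (ds (K₀ s) k).inv_mem h1 }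
  have hE : ∀ k, ds (E 0) k ≤ E k := by
    intro k
    induction k with
    | zero => exact le_rfl
    | succ k ih =>
      refine (Subgroup.commutator_mono ih ih).trans ?_
      rw [Subgroup.commutator_le]
      intro a ha b hb
      show ∀ᶠ s in (U : Filter (Finset D)), a * b * a⁻¹ * b⁻¹ ∈ ds (K₀ s) (k + 1)
      have ha' : ∀ᶠ s in (U : Filter (Finset D)), a ∈ ds (K₀ s) k := ha
      have hb' : ∀ᶠ s in (U : Filter (Finset D)), b ∈ ds (K₀ s) k := hb
      filter_upwards [ha', hb'] with s h1 h2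
      exact Subgroup.commutator_mem_commutator h1 h2
  have hED : E 0 ≤ D := by
    intro x hx
    have hx' : ∀ᶠ s in (U : Filter (Finset D)), x ∈ ds (K₀ s) 0 := hx
    obtain ⟨s, hs⟩ := hx'.exists
    exact hKD s (hK₀ s hs)
  have hidx : Finite (D ⧸ (E 0).subgroupOf D) ∧ Nat.card (D ⧸ (E 0).subgroupOf D) ≤ N := by
    apply card_le
    intro f hf
    -- representatives
    have hrep : ∀ i, ∃ x : D, (QuotientGroup.mk x : D ⧸ (E 0).subgroupOf D) = f i := fun i =>
      Quotient.exists_rep (f i)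
    choose x hx using hrep
    have h1 : ∀ᶠ s in (U : Filter (Finset D)), ∃ p : Fin (N + 1) × Fin (N + 1), p.1 ≠ p.2 ∧
        ((x p.1 : H)⁻¹ * x p.2) ∈ K₀ s := by
      filter_upwards [hU (eventually_ge_atTop (Finset.univ.image x))] with s hs
      have hmem : ∀ i, (x i : H) ∈ K s := fun i =>
        Subgroup.subset_closure ⟨x i, hs (Finset.mem_image_of_mem x (Finset.mem_univ i)), rfl⟩
      have hfin : Finite (K s ⧸ (K₀ s).subgroupOf (K s)) :=
        (Nat.finite_of_card_ne_zero (hne s))
      have hninj : ¬ Function.Injective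
          (fun i => (QuotientGroup.mk ⟨x i, hmem i⟩ : K s ⧸ (K₀ s).subgroupOf (K s))) := by
        intro hinj
        have h2 := Nat.card_le_card_of_injective _ hinj
        rw [Nat.card_eq_fintype_card, Fintype.card_fin] at h2
        have h3 : Nat.card (K s ⧸ (K₀ s).subgroupOf (K s)) ≤ N := hN s
        omega
      rw [Function.Injective] at hninj
      push Not at hninj
      obtain ⟨i, j, hij, hne'⟩ := hninj
      refine ⟨(i, j), hne', ?_⟩
      have h2 := QuotientGroup.eq.mp hij
      exact h2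
    have h2 : ∃ p : Fin (N + 1) × Fin (N + 1), ∀ᶠ s in (U : Filter (Finset D)), p.1 ≠ p.2 ∧
        ((x p.1 : H)⁻¹ * x p.2) ∈ K₀ s := by
      exact Ultrafilter.eventually_exists_iff.mp h1
    obtain ⟨⟨i, j⟩, hp⟩ := h2
    obtain ⟨s₀, hs₀⟩ := hp.exists
    have h3 : ((x i : H)⁻¹ * x j) ∈ E 0 := by
      show ∀ᶠ s in (U : Filter (Finset D)), ((x i : H)⁻¹ * x j) ∈ ds (K₀ s) 0
      filter_upwards [hp] with s hs
      exact hs.2
    have h4 : f i = f j := by
      rw [← hx i, ← hx j]
      exact QuotientGroup.eq.mpr h3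
    exact hs₀.1 (hf h4)
  refine ⟨E 0, hED, ?_, hidx.2, ?_⟩
  · have := hidx.1
    exact Nat.card_ne_zero.mpr ⟨⟨QuotientGroup.mk 1⟩, this⟩
  · rw [eq_bot_iff]
    intro x hx
    have hx' : ∀ᶠ s in (U : Filter (Finset D)), x ∈ ds (K₀ s) d := hE d hx
    obtain ⟨s, hs⟩ := hx'.exists
    rwa [hds s] at hs

end compact

section radical

/-- The subgroup generated by the normal subgroups which are solvable of length at most `d`. -/
def rad (D : Type*) [Group D] (d : ℕ) : Subgroup D := sSup {M : Subgroup D | M.Normal ∧ ds M d = ⊥}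

variable {D : Type*} [Group D]

theorem rad_char (d : ℕ) : (rad D d).Characteristic := by
  rw [Subgroup.characteristic_iff_le_comap]
  intro φ
  refine sSup_le ?_
  rintro M ⟨hM, hMd⟩
  rw [← Subgroup.map_le_iff_le_comap]
  refine le_sSup ⟨hM.map _ φ.surjective, ?_⟩
  rw [← ds_map, hMd, Subgroup.map_bot]

theorem climb (d : ℕ) : ∀ (n : ℕ) (L : Subgroup D), L.Normal → L.index ≠ 0 → L.index ≤ n →
    ∀ a, ds L a = ⊥ → ∃ L' : Subgroup D, (∀ M : Subgroup D, M.Normal → ds M d = ⊥ → M ≤ L') ∧
      ds L' (a + n * d) = ⊥ := by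
  intro n
  induction n with
  | zero =>
    intro L _ h0 h1
    omega
  | succ n ih =>
    intro L hL h0 h1 a ha
    by_cases hall : ∀ M : Subgroup D, M.Normal → ds M d = ⊥ → M ≤ L
    · exact ⟨L, hall, ds_bot_of_le (Nat.le_add_right _ _) ha⟩
    · push Not at hall
      obtain ⟨M, hM, hMd, hML⟩ := hall
      have h2 := Subgroup.relIndex_mul_index (le_sup_left : L ≤ L ⊔ M)
      have h3 : L.relIndex (L ⊔ M) ≠ 0 := fun h => h0 (by rw [← h2, h, zero_mul])
      have h4 : (L ⊔ M).index ≠ 0 := fun h => h0 (by rw [← h2, h, mul_zero])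
      have h5 : L.relIndex (L ⊔ M) ≠ 1 := by
        rw [ne_eq, Subgroup.relIndex_eq_one]
        exact fun h => hML (le_sup_right.trans h)
      have h6 : (L ⊔ M).index ≤ n := by
        have h7 : 2 ≤ L.relIndex (L ⊔ M) := by omega
        have h8 : 2 * (L ⊔ M).index ≤ L.index := by
          rw [← h2]
          exact Nat.mul_le_mul_right _ h7
        omega
      obtain ⟨L', h7, h8⟩ := ih (L ⊔ M) (by infer_instance) h4 h6 (a + d) (ds_sup ha hMd)
      refine ⟨L', h7, ?_⟩
      rw [← h8]
      congr 1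
      ring

theorem rad_spec {D₀ : Subgroup D} {N d : ℕ} (h0 : D₀.index ≠ 0) (hN : D₀.index ≤ N)
    (hd : ds D₀ d = ⊥) : (rad D d).index ≠ 0 ∧ (rad D d).index ≤ N.factorial ∧
      ds (rad D d) (d + N.factorial * d) = ⊥ := by
  have hC : ds D₀.normalCore d = ⊥ := by
    have := ds_mono D₀.normalCore_le d
    rwa [hd, le_bot_iff] at this
  have hCr : D₀.normalCore ≤ rad D d := le_sSup ⟨Subgroup.normalCore_normal D₀, hC⟩
  have hfinq : Finite (D ⧸ D₀) := Nat.finite_of_card_ne_zero h0
  have h1 : D₀.normalCore.index ∣ D₀.index.factorial := by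
    rw [Subgroup.normalCore_eq_ker, Subgroup.index_ker, Subgroup.index_eq_card, ← Nat.card_perm]
    exact Subgroup.card_subgroup_dvd_card (MulAction.toPermHom D (D ⧸ D₀)).range
  have h2 : D₀.normalCore.index ≠ 0 := fun h => by
    rw [h, zero_dvd_iff] at h1
    exact Nat.factorial_ne_zero _ h1
  have h3 : D₀.normalCore.index ≤ N.factorial :=
    (Nat.le_of_dvd (Nat.factorial_pos _) h1).trans (Nat.factorial_le hN)
  have h4 := Subgroup.index_dvd_of_le hCr
  refine ⟨fun h => h2 (by rw [h, zero_dvd_iff] at h4; exact h4),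
    (Nat.le_of_dvd (Nat.pos_of_ne_zero h2) h4).trans h3, ?_⟩
  obtain ⟨L', h5, h6⟩ := climb d N.factorial D₀.normalCore (Subgroup.normalCore_normal D₀) h2 h3 d hC
  have h7 : rad D d ≤ L' := by
    refine sSup_le ?_
    rintro M ⟨hM, hMd⟩
    exact h5 M hM hMd
  have h8 := ds_mono h7 (d + N.factorial * d)
  rwa [h6, le_bot_iff] at h8

end radical

section assemble

variable {G : Type*} [Group G]

/-- Automorphisms of a finite group. -/
theorem card_mulAut_le {A : Type*} [Group A] [Finite A] : Nat.card (MulAut A) ≤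
    Nat.card A ^ Nat.card A := by
  rw [← Nat.card_fun]
  refine Nat.card_le_card_of_injective (fun φ : MulAut A => (φ : A → A)) ?_
  intro φ ψ h
  exact DFunLike.coe_injective h

theorem assemble (D : Subgroup G) [D.Normal] {m N d : ℕ} (hm : ds (⊤ : Subgroup G) m ≤ D)
    {D₀ : Subgroup G} (hD₀ : D₀ ≤ D) (h0 : D₀.relIndex D ≠ 0) (hN : D₀.relIndex D ≤ N)
    (hd : ds D₀ d = ⊥) :
    ∃ C : Subgroup G, C.index ≠ 0 ∧ C.index ≤ N.factorial ^ N.factorial ∧
      ds C (m + 1 + (d + N.factorial * d)) = ⊥ := by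
  have hd' : ds (D₀.subgroupOf D) d = ⊥ := by
    refine ds_bot_of_map D.subtype (Subgroup.subtype_injective D) ?_
    rw [Subgroup.subgroupOf_map_subtype, inf_of_le_left hD₀]
    exact hd
  obtain ⟨r1, r2, r3⟩ := rad_spec (D₀ := D₀.subgroupOf D) (N := N) (d := d) h0 hN hd'
  have : (rad D d).Characteristic := rad_char d
  set R' : Subgroup G := (rad D d).map D.subtype with hR'
  have hRn : R'.Normal := by
    rw [hR']
    infer_instance
  have hR'D : R'.relIndex D = (rad D d).index := by
    unfold Subgroup.relIndex Subgroup.subgroupOf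
    rw [hR', Subgroup.comap_map_eq_self_of_injective (Subgroup.subtype_injective D)]
  let q : G →* G ⧸ R' := QuotientGroup.mk' R'
  have hq : Function.Surjective q := QuotientGroup.mk'_surjective R'
  have hcard : Nat.card (D.map q) = (rad D d).index := by
    rw [← Subgroup.relIndex_ker, QuotientGroup.ker_mk', hR'D]
  have hDn : (D.map q).Normal := Subgroup.Normal.map inferInstance q hq
  have hfin : Finite (D.map q) := Nat.finite_of_card_ne_zero (by rw [hcard]; exact r1)
  let c : G ⧸ R' →* MulAut (D.map q) := MulAut.conjNormal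
  have : Finite (MulAut (D.map q)) :=
    Finite.of_injective (fun φ : MulAut (D.map q) => (φ : D.map q → D.map q))
      DFunLike.coe_injective
  have hcidx : c.ker.index ≠ 0 ∧ c.ker.index ≤ N.factorial ^ N.factorial := by
    rw [Subgroup.index_ker]
    refine ⟨Nat.card_pos.ne', ?_⟩
    refine (Nat.card_le_card_of_injective _ (Subgroup.subtype_injective c.range)).trans ?_
    refine card_mulAut_le.trans ?_
    rw [hcard]
    calc (rad D d).index ^ (rad D d).index ≤ N.factorial ^ (rad D d).index :=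
          Nat.pow_le_pow_left r2 _
      _ ≤ N.factorial ^ N.factorial := Nat.pow_le_pow_right (Nat.factorial_pos _) r2
  refine ⟨c.ker.comap q, ?_, ?_, ?_⟩
  · rw [Subgroup.index_comap_of_surjective _ hq]
    exact hcidx.1
  · rw [Subgroup.index_comap_of_surjective _ hq]
    exact hcidx.2
  · have h1 : ds (c.ker.comap q) (m + 1) ≤ R' := by
      have h2 : ds (c.ker.comap q) m ≤ D := (ds_mono le_top m).trans hm
      have h3 : ds (c.ker.comap q) m ≤ c.ker.comap q := ds_le _ m
      change ⁅ds (c.ker.comap q) m, ds (c.ker.comap q) m⁆ ≤ R'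
      rw [Subgroup.commutator_le]
      intro a ha b hb
      have h4 : c (q a) = 1 := h3 ha
      have h5 : q b ∈ D.map q := Subgroup.mem_map_of_mem q (h2 hb)
      have h6 : ((c (q a) ⟨q b, h5⟩ : D.map q) : G ⧸ R') = q a * q b * (q a)⁻¹ := rfl
      rw [h4] at h6
      have h7 : q b = q a * q b * (q a)⁻¹ := h6
      have h8 : q (a * b * a⁻¹ * b⁻¹) = 1 := by
        rw [map_mul, map_mul, map_mul, map_inv, map_inv, ← h7, mul_inv_cancel]
      have h9 : a * b * a⁻¹ * b⁻¹ ∈ q.ker := h8
      rwa [QuotientGroup.ker_mk'] at h9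
    have hRbot : ds R' (d + N.factorial * d) = ⊥ := by
      rw [hR', ← ds_map, r3, Subgroup.map_bot]
    rw [ds_add]
    have h2 := ds_mono h1 (d + N.factorial * d)
    rw [hRbot, le_bot_iff] at h2
    exact h2

end assemble

section good

variable {G K : Type*} [Group G] [Group K]

/-- `H` has a subgroup of index at most `N`, solvable of length at most `d`. -/
def good (N d : ℕ) (H : Subgroup G) : Prop :=
  ∃ H₀ ≤ H, H₀.relIndex H ≠ 0 ∧ H₀.relIndex H ≤ N ∧ ds H₀ d = ⊥

theorem good_iff {N d : ℕ} {H : Subgroup G} : good N d H ↔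
    ∃ H₀ : Subgroup H, H₀.index ≠ 0 ∧ H₀.index ≤ N ∧ derivedSeries H₀ d = ⊥ := by
  constructor
  · rintro ⟨H₀, h1, h2, h3, h4⟩
    refine ⟨H₀.subgroupOf H, h2, h3, ?_⟩
    rw [← ds_eq_bot_iff]
    refine ds_bot_of_map H.subtype (Subgroup.subtype_injective H) ?_
    rw [Subgroup.subgroupOf_map_subtype, inf_of_le_left h1]
    exact h4
  · rintro ⟨H₀, h2, h3, h4⟩
    have h5 : (H₀.map H.subtype).relIndex H = H₀.index := by
      unfold Subgroup.relIndex Subgroup.subgroupOf
      rw [Subgroup.comap_map_eq_self_of_injective (Subgroup.subtype_injective H)]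
    refine ⟨H₀.map H.subtype, Subgroup.map_subtype_le H₀, by rw [h5]; exact h2,
      by rw [h5]; exact h3, ?_⟩
    rw [← ds_map, (ds_eq_bot_iff H₀ d).mpr h4, Subgroup.map_bot]

theorem good_mono {N N' d d' : ℕ} {H : Subgroup G} (hN : N ≤ N') (hd : d ≤ d')
    (h : good N d H) : good N' d' H := by
  obtain ⟨H₀, h1, h2, h3, h4⟩ := h
  exact ⟨H₀, h1, h2, h3.trans hN, ds_bot_of_le hd h4⟩

theorem good_map {N d : ℕ} {H : Subgroup G} (f : G →* K) (hf : Function.Injective f)
    (h : good N d H) : good N d (H.map f) := by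
  obtain ⟨H₀, h1, h2, h3, h4⟩ := h
  refine ⟨H₀.map f, Subgroup.map_mono h1, ?_, ?_, ?_⟩
  · rw [Subgroup.relIndex_map_map_of_injective _ _ hf]
    exact h2
  · rw [Subgroup.relIndex_map_map_of_injective _ _ hf]
    exact h3
  · rw [← ds_map, h4, Subgroup.map_bot]

theorem good_of_map {N d : ℕ} {H : Subgroup G} (f : G →* K) (hf : Function.Injective f)
    (h : good N d (H.map f)) : good N d H := by
  obtain ⟨H₀, h1, h2, h3, h4⟩ := h
  refine ⟨H₀.comap f, ?_, ?_, ?_, ?_⟩
  · have := Subgroup.comap_mono (f := f) h1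
    rwa [Subgroup.comap_map_eq_self_of_injective hf] at this
  · rw [Subgroup.relIndex_comap]
    exact h2
  · rw [Subgroup.relIndex_comap]
    exact h3
  · refine ds_bot_of_map f hf ?_
    have h5 := ds_mono (Subgroup.map_comap_le f H₀) d
    rwa [h4, le_bot_iff] at h5

/-- The uniform form of the class. -/
def VT (N d : ℕ) (G : Type*) [Group G] : Prop := ∀ H : Subgroup G, ¬ HasF2 H → good N d H

theorem VT.of_inj {N d : ℕ} (f : G →* K) (hf : Function.Injective f) (h : VT N d K) :
    VT N d G := fun H hH => good_of_map f hf (h _ fun h2 => hH (hasF2_of_map f h2))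

theorem VT.mono {N N' d d' : ℕ} (hN : N ≤ N') (hd : d ≤ d') (h : VT N d G) : VT N' d' G :=
  fun H hH => good_mono hN hd (h H hH)

theorem vta_iff {G : Type} [Group G] : VTA G ↔ ∃ N d, VT N d G :=
  ⟨fun ⟨N, d, h⟩ => ⟨N, d, fun H hH => good_iff.mpr (h H hH)⟩,
    fun ⟨N, d, h⟩ => ⟨N, d, fun H hH => good_iff.mp (h H hH)⟩⟩

end good

/-- `VTA` and trees. -/
theorem tree (G : Type) [Group G] (V : Type) [MulAction G V] (T : SimpleGraph V)
    (hT : TreeAct G V T) (N d : ℕ) (h : ∀ v : V, VT N d (MulAction.stabilizer G v)) :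
    VT (N.factorial ^ N.factorial) (2 + 1 + (d + N.factorial * d)) G := by
  intro H hF
  have hTH := D.treeAct_comp hT H
  have hFtop : ¬ HasF2 (⊤ : Subgroup H) := fun h => hF (D.hasF2_of_top H h)
  have hell := stD2 stB1 stC stD1 H V T hTH hFtop
  obtain ⟨D₀, h1, h2, h3, h4⟩ := compact (derivedSeries H 2) N d (by
    intro K hK hKD
    have hTM := D.treeAct_comp hTH K
    have hKFG : Group.FG K := (Group.fg_iff_subgroup_fg K).mpr hK
    obtain ⟨v, hv⟩ := stB2 K V T hTM (fun g => hell g.1 (hKD g.2)) hKFG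
    have hle : K.map H.subtype ≤ MulAction.stabilizer G v := by
      rintro _ ⟨x, hx, rfl⟩
      rw [MulAction.mem_stabilizer_iff]
      exact hv ⟨x, hx⟩
    have h5 : ¬ HasF2 ((K.map H.subtype).subgroupOf (MulAction.stabilizer G v)) := by
      intro h6
      have h7 := h6.map (MulAction.stabilizer G v).subtype (Subgroup.subtype_injective _)
      rw [Subgroup.subgroupOf_map_subtype, inf_of_le_left hle] at h7
      exact hF (h7.mono (Subgroup.map_subtype_le K))
    have h6 := good_map (MulAction.stabilizer G v).subtype (Subgroup.subtype_injective _)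
      (h v _ h5)
    rw [Subgroup.subgroupOf_map_subtype, inf_of_le_left hle] at h6
    exact good_of_map H.subtype (Subgroup.subtype_injective H) h6)
  obtain ⟨C, c1, c2, c3⟩ := assemble (derivedSeries H 2) (m := 2) (N := N) (d := d)
    (by rw [ds_top]) h1 h2 h3 h4
  exact good_iff.mpr ⟨C, c1, c2, (ds_eq_bot_iff C _).mp c3⟩

end JC214

open JC214 in
/-- Module JC2. -/
theorem stJC2 : StJC2 where
  inj := by
    intro G K _ _ f hf h
    obtain ⟨N, d, h1⟩ := vta_iff.mp h
    exact vta_iff.mpr ⟨N, d, VT.of_inj f hf h1⟩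
  push := by
    intro G _ B _ φ hφ h
    obtain ⟨N₀, d₀, h₀⟩ := vta_iff.mp (h false)
    obtain ⟨N₁, d₁, h₁⟩ := vta_iff.mp (h true)
    refine vta_iff.mpr ⟨_, _, tree _ _ _ (push_treeAct G B φ) (max N₀ N₁) (max d₀ d₁) fun v => ?_⟩
    obtain ⟨c, f, hf⟩ := push_stab G B φ hφ v
    cases c
    · exact VT.of_inj f hf (h₀.mono (le_max_left _ _) (le_max_left _ _))
    · exact VT.of_inj f hf (h₁.mono (le_max_right _ _) (le_max_right _ _))
  hnn := by
    intro G _ A B φ h
    obtain ⟨N, d, h1⟩ := vta_iff.mp h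
    obtain ⟨V, _, T, hT, hs⟩ := stE1 G A B φ
    refine vta_iff.mpr ⟨_, _, tree _ V T hT N d fun v => ?_⟩
    obtain ⟨x, hx⟩ := hs v
    let i : G →* HNNExtension G A B φ := HNNExtension.of
    have hi : Function.Injective i := HNNExtension.of_injective φ
    let f : MulAction.stabilizer (HNNExtension G A B φ) v →* i.range :=
      ((MulAut.conj x⁻¹).toMonoidHom.comp
        (MulAction.stabilizer (HNNExtension G A B φ) v).subtype).codRestrict i.range fun g => by
          obtain ⟨a, ha⟩ := hx g g.2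
          refine ⟨a, ?_⟩
          change i a = x⁻¹ * (g : HNNExtension G A B φ) * x⁻¹⁻¹
          rw [ha]
          change i a = x⁻¹ * (x * i a * x⁻¹) * x⁻¹⁻¹
          group
    refine VT.of_inj ((MonoidHom.ofInjective hi).symm.toMonoidHom.comp f) ?_ h1
    intro g g' hg
    have h2 : f g = f g' := (MonoidHom.ofInjective hi).symm.injective hg
    have h3 : MulAut.conj x⁻¹ (g : HNNExtension G A B φ) =
        MulAut.conj x⁻¹ (g' : HNNExtension G A B φ) := congrArg Subtype.val h2
    exact Subtype.ext ((MulAut.conj x⁻¹).injective h3)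

end Pool.Agent.Lib.MP_e6f638_al
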