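import Pool.Agent.Lib.MP_e6f638_al.J.JF

/-!
# Module JE: the join embeds in an HNN extension of the amalgam
-/

set_option autoImplicit false

namespace Pool.Agent.Lib.MP_e6f638_al

open Multiplicative Monoid

section semi

variable {G H : Type} [Group G] [Group H] (h : G →* Multiplicative ℤ) {g₀ : G}
  (h₀ : h g₀ = ofAdd 1) (e : G →* H) (Y : H)
  (hY : ∀ k, h k = 1 → Y * e k = e (g₀ * k * g₀⁻¹) * Y)

include hY in
theorem semi_zpow (m : ℤ) : ∀ k, h k = 1 → Y ^ m * e k = e (g₀ ^ m * k * (g₀ ^ m)⁻¹) * Y ^ m := by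
  induction m using Int.induction_on with
  | zero => intro k _; simp
  | succ m ih =>
    intro k hk
    rw [zpow_add_one, mul_assoc, hY k hk, ← mul_assoc, ih (g₀ * k * g₀⁻¹) (by simp [hk]),
      zpow_add_one, mul_assoc (e _), ← zpow_add_one, ← zpow_add_one]
    congr 2
    rw [zpow_add_one]
    group
  | pred m ih =>
    intro k hk
    have h1 : h (g₀⁻¹ * k * g₀) = 1 := by simp [hk]
    have h2 : Y⁻¹ * e k = e (g₀⁻¹ * k * g₀) * Y⁻¹ := by
      have h3 := hY _ h1
      have h4 : g₀ * (g₀⁻¹ * k * g₀) * g₀⁻¹ = k := by group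
      rw [h4] at h3
      rw [inv_mul_eq_iff_eq_mul, ← mul_assoc, h3, mul_inv_cancel_right]
    rw [zpow_sub_one, mul_assoc, h2, ← mul_assoc, ih _ h1, mul_assoc (e _), ← zpow_sub_one]
    congr 2
    rw [zpow_sub_one]
    group

/-- A homomorphism defined on a semidirect product with the integers. -/
noncomputable def semi : G →* H where
  toFun := fun g => e (g * g₀ ^ (-toAdd (h g))) * Y ^ toAdd (h g)
  map_one' := by simp
  map_mul' := by
    intro g g'
    have h1 : h (g' * g₀ ^ (-toAdd (h g'))) = 1 := by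
      rw [map_mul, map_zpow, h₀, ← ofAdd_zsmul]
      apply toAdd.injective
      simp
    have h2 := semi_zpow h e Y hY (toAdd (h g)) _ h1
    have h3 : toAdd (h (g * g')) = toAdd (h g) + toAdd (h g') := by rw [map_mul, toAdd_mul]
    rw [h3, zpow_add Y]
    generalize toAdd (h g) = m at h2 ⊢
    generalize toAdd (h g') = m' at h2 ⊢
    calc e (g * g' * g₀ ^ (-(m + m'))) * (Y ^ m * Y ^ m')
        = (e (g * g₀ ^ (-m)) * e (g₀ ^ m * (g' * g₀ ^ (-m')) * (g₀ ^ m)⁻¹)) *
          (Y ^ m * Y ^ m') := by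
          rw [← map_mul]
          congr 2
          group
      _ = e (g * g₀ ^ (-m)) * ((e (g₀ ^ m * (g' * g₀ ^ (-m')) * (g₀ ^ m)⁻¹) * Y ^ m) *
          Y ^ m') := by simp only [mul_assoc]
      _ = e (g * g₀ ^ (-m)) * ((Y ^ m * e (g' * g₀ ^ (-m'))) * Y ^ m') := by rw [h2]
      _ = e (g * g₀ ^ (-m)) * Y ^ m * (e (g' * g₀ ^ (-m')) * Y ^ m') := by
          simp only [mul_assoc]

theorem semi_ker {k : G} (hk : h k = 1) : semi h h₀ e Y hY k = e k := by
  change e (k * g₀ ^ (-toAdd (h k))) * Y ^ toAdd (h k) = e k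
  rw [hk]
  simp

theorem semi_apply (g : G) :
    semi h h₀ e Y hY g = e (g * g₀ ^ (-toAdd (h g))) * Y ^ toAdd (h g) := rfl

theorem semi_one {g : G} (hg : h g = ofAdd 1) : semi h h₀ e Y hY g = e (g * g₀⁻¹) * Y := by
  rw [semi_apply, hg]
  simp

end semi

namespace JDat

variable {G : Bool → Type} [∀ c, Group (G c)] {B : Type} [Group B] (D : JDat G B)

/-- The letter `t₀`. -/
noncomputable def t0 : D.Ah := D.of false (D.v₀ false)

/-- The letter `a₀`. -/
noncomputable def a0 : D.Ah := D.of true (D.v₀ true)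

/-- The second map of `E`. -/
noncomputable def psi' : D.E →* D.Ah := (MulAut.conj D.t0).toMonoidHom.comp (D.psi true)

theorem psi_injective (c : Bool) : Function.Injective (D.psi c) := by
  obtain ⟨ψ, h1, h2⟩ := stJF G B D c
  rwa [(D.isPsi_psi c).unique h1]

theorem psi'_injective : Function.Injective D.psi' := by
  intro x y hxy
  exact D.psi_injective true ((MulAut.conj D.t0).injective hxy)

/-- The isomorphism. -/
noncomputable def tau : (D.psi false).range ≃* D.psi'.range :=
  (MonoidHom.ofInjective (D.psi_injective false)).symm.trans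
    (MonoidHom.ofInjective D.psi'_injective)

/-- The HNN extension. -/
abbrev Hn : Type := HNNExtension D.Ah (D.psi false).range D.psi'.range D.tau

/-- The amalgam in the HNN extension. -/
noncomputable abbrev o : D.Ah →* D.Hn := HNNExtension.of

/-- The stable letter. -/
noncomputable abbrev T : D.Hn := HNNExtension.t

theorem T_mul (x : D.E) : D.T * D.o (D.psi false x) = D.o (D.psi' x) * D.T := by
  have h1 := HNNExtension.t_mul_of (φ := D.tau)
    ((MonoidHom.ofInjective (D.psi_injective false)) x)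
  rw [tau, MulEquiv.trans_apply, MulEquiv.symm_apply_apply] at h1
  exact h1

theorem T_mul_P {p : D.Ah} (hp : p ∈ D.P) : D.T * D.o p = D.o (D.t0 * p * D.t0⁻¹) * D.T := by
  have h1 := D.T_mul (D.inE ⟨p, hp⟩)
  rw [(D.isPsi_psi false).1] at h1
  have h2 : D.psi' (D.inE ⟨p, hp⟩) = D.t0 * p * D.t0⁻¹ := by
    change D.t0 * D.psi true (D.inE ⟨p, hp⟩) * D.t0⁻¹ = _
    rw [(D.isPsi_psi true).1]
  rw [h2] at h1
  exact h1

theorem T_mul_z (i : D.Z) :
    D.T * D.o ((D.of false (D.v false i) * D.of true (D.v true i)) ^ D.n i) =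
      D.o (D.t0 * (D.of true (D.v true i) * D.of false (D.v false i)) ^ D.n i * D.t0⁻¹) * D.T := by
  have h1 := D.T_mul (D.z i)
  rw [(D.isPsi_psi false).2] at h1
  have h2 : D.psi' (D.z i) =
      D.t0 * (D.of true (D.v true i) * D.of false (D.v false i)) ^ D.n i * D.t0⁻¹ := by
    change D.t0 * D.psi true (D.z i) * D.t0⁻¹ = _
    rw [(D.isPsi_psi true).2]
    rfl
  rw [h2] at h1
  exact h1

theorem mem_P {c : Bool} {g : G c} (h : D.h c g = 1) : D.of c g ∈ D.P :=
  Subgroup.subset_closure ⟨c, g, h, rfl⟩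

/-- The map on the first factor. -/
noncomputable def F0 : G false →* D.Hn :=
  semi (D.h false) (D.h_v₀ false) (D.o.comp (D.of false)) D.T (by
    intro k hk
    rw [MonoidHom.comp_apply, D.T_mul_P (D.mem_P hk), MonoidHom.comp_apply]
    simp only [t0, map_mul, map_inv])

/-- The image of `a₀`. -/
noncomputable def Y : D.Hn := D.T⁻¹ * D.o (D.t0 * D.a0)

/-- The map on the second factor. -/
noncomputable def F1 : G true →* D.Hn :=
  semi (D.h true) (D.h_v₀ true) (D.o.comp (D.of true)) D.Y (by
    intro k hk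
    have hk' : D.h true (D.v₀ true * k * (D.v₀ true)⁻¹) = 1 := by simp [hk]
    have h1 := D.T_mul_P (D.mem_P hk')
    rw [Y, MonoidHom.comp_apply, MonoidHom.comp_apply, mul_assoc, ← map_mul,
      inv_mul_eq_iff_eq_mul, ← mul_assoc, ← mul_assoc, h1, mul_inv_cancel_right, ← map_mul]
    congr 1
    simp only [a0, map_mul, map_inv]
    group)

theorem F0_B (b : B) : D.F0 (D.φ false b) = D.o (D.base b) := by
  rw [F0, semi_ker _ _ _ _ _ (D.h_B false b), MonoidHom.comp_apply, D.of_φ]

theorem F1_B (b : B) : D.F1 (D.φ true b) = D.o (D.base b) := by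
  rw [F1, semi_ker _ _ _ _ _ (D.h_B true b), MonoidHom.comp_apply, D.of_φ]

theorem F0_one {g : G false} (hg : D.h false g = ofAdd 1) :
    D.F0 g = D.o (D.of false g * D.t0⁻¹) * D.T := by
  rw [F0, semi_one _ _ _ _ _ hg, MonoidHom.comp_apply, map_mul, map_inv]
  rfl

theorem F1_one {g : G true} (hg : D.h true g = ofAdd 1) :
    D.F1 g = D.o (D.of true g * D.a0⁻¹) * D.Y := by
  rw [F1, semi_one _ _ _ _ _ hg, MonoidHom.comp_apply, map_mul, map_inv]
  rfl

theorem F_mul (i : D.Z) : D.F0 (D.v false i) * D.F1 (D.v true i) =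
    D.o (D.of false (D.v false i) * D.of true (D.v true i)) := by
  have h1 : D.of true (D.v true i) * D.a0⁻¹ ∈ D.P := by
    rw [a0, ← map_inv, ← map_mul]
    exact D.mem_P (by rw [map_mul, map_inv, D.h_v, D.h_v₀, mul_inv_cancel])
  rw [D.F0_one (D.h_v false i), D.F1_one (D.h_v true i), Y, mul_assoc, ← mul_assoc D.T,
    D.T_mul_P h1, mul_assoc (D.o _) D.T, mul_inv_cancel_left, ← map_mul, ← map_mul]
  congr 1
  group

theorem F_rel (i : D.Z) : (D.F0 (D.v false i) * D.F1 (D.v true i)) ^ D.n i =
    (D.F1 (D.v true i) * D.F0 (D.v false i)) ^ D.n i := by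
  have h1 : Commute (D.F0 (D.v false i)) ((D.F0 (D.v false i) * D.F1 (D.v true i)) ^ D.n i) := by
    have h2 : ∀ n : ℕ, D.of false (D.v false i) *
        (D.of true (D.v true i) * D.of false (D.v false i)) ^ n =
        (D.of false (D.v false i) * D.of true (D.v true i)) ^ n * D.of false (D.v false i) := by
      intro n
      induction n with
      | zero => simp
      | succ n ih =>
        rw [pow_succ', pow_succ', mul_assoc (D.of true _), ih]
        simp only [mul_assoc]
    have e1 : D.of false (D.v false i) * D.t0⁻¹ * (D.t0 * (D.of true (D.v true i) *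
        D.of false (D.v false i)) ^ D.n i * D.t0⁻¹) =
        (D.of false (D.v false i) * D.of true (D.v true i)) ^ D.n i *
          (D.of false (D.v false i) * D.t0⁻¹) := by
      rw [← mul_assoc (_ ^ _) _ D.t0⁻¹, ← h2]
      group
    rw [D.F_mul, ← map_pow]
    rw [commute_iff_eq, D.F0_one (D.h_v false i), mul_assoc, D.T_mul_z]
    calc D.o (D.of false (D.v false i) * D.t0⁻¹) * (D.o (D.t0 * (D.of true (D.v true i) *
        D.of false (D.v false i)) ^ D.n i * D.t0⁻¹) * D.T)
        = D.o (D.of false (D.v false i) * D.t0⁻¹ * (D.t0 * (D.of true (D.v true i) *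
        D.of false (D.v false i)) ^ D.n i * D.t0⁻¹)) * D.T := by
          rw [map_mul D.o (D.of false (D.v false i) * D.t0⁻¹)]
          exact (mul_assoc _ _ _).symm
      _ = D.o ((D.of false (D.v false i) * D.of true (D.v true i)) ^ D.n i *
          (D.of false (D.v false i) * D.t0⁻¹)) * D.T := by rw [e1]
      _ = _ := by rw [map_mul D.o ((D.of false (D.v false i) * D.of true (D.v true i)) ^ D.n i),
            mul_assoc]
  have h3 : ∀ (a b : D.Hn) (n : ℕ), a * (b * a) ^ n = (a * b) ^ n * a := by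
    intro a b n
    induction n with
    | zero => simp
    | succ n ih => rw [pow_succ', pow_succ', mul_assoc b, ih]; simp only [mul_assoc]
  have h4 := h3 (D.F0 (D.v false i)) (D.F1 (D.v true i)) (D.n i)
  rw [← h1.eq] at h4
  exact (mul_left_cancel h4).symm

variable {D}

/-- The map of the amalgam to the join. -/
noncomputable def IsJoin.pi {A : Type} [Group A] {e : ∀ c, G c →* A} (h : D.IsJoin A e) :
    D.Ah →* A :=
  PushoutI.lift e ((e false).comp (D.φ false)) (by
    intro c
    cases c
    · rfl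
    · exact h.base.symm)

theorem IsJoin.pi_of {A : Type} [Group A] {e : ∀ c, G c →* A} (h : D.IsJoin A e) (c : Bool)
    (g : G c) : h.pi (D.of c g) = e c g :=
  PushoutI.lift_of _ _ _ _

theorem IsJoin.pi_psi {A : Type} [Group A] {e : ∀ c, G c →* A} (h : D.IsJoin A e) (x : D.E) :
    h.pi (D.psi true x) = h.pi (D.psi false x) := by
  have hx : x ∈ Subgroup.closure (Set.range D.inE ∪ Set.range D.z) := by
    rw [D.closure_E]; trivial
  have key : (h.pi.comp (D.psi true)).eqLocus (h.pi.comp (D.psi false)) = ⊤ := by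
    rw [eq_top_iff, ← D.closure_E, Subgroup.closure_le]
    rintro _ (⟨p, rfl⟩ | ⟨i, rfl⟩)
    · change h.pi (D.psi true (D.inE p)) = h.pi (D.psi false (D.inE p))
      rw [(D.isPsi_psi true).1, (D.isPsi_psi false).1]
    · change h.pi (D.psi true (D.z i)) = h.pi (D.psi false (D.z i))
      rw [(D.isPsi_psi true).2, (D.isPsi_psi false).2]
      simp only [map_pow, map_mul]
      change (h.pi (D.of true (D.v true i)) * h.pi (D.of false (D.v false i))) ^ D.n i =
        (h.pi (D.of false (D.v false i)) * h.pi (D.of true (D.v true i))) ^ D.n i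
      simp only [h.pi_of]
      exact (h.rel i).symm
  have : x ∈ (h.pi.comp (D.psi true)).eqLocus (h.pi.comp (D.psi false)) := by
    rw [key]; trivial
  exact this

/-- The left inverse. -/
noncomputable def IsJoin.left {A : Type} [Group A] {e : ∀ c, G c →* A} (h : D.IsJoin A e) :
    D.Hn →* A :=
  HNNExtension.lift h.pi (e false (D.v₀ false)) (by
    rintro ⟨a, x, rfl⟩
    have h1 : ((D.tau ⟨D.psi false x, x, rfl⟩ : D.psi'.range) : D.Ah) = D.psi' x := by
      have : (⟨D.psi false x, x, rfl⟩ : (D.psi false).range) =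
        (MonoidHom.ofInjective (D.psi_injective false)) x := rfl
      rw [this, tau, MulEquiv.trans_apply, MulEquiv.symm_apply_apply]
      rfl
    rw [h1]
    change e false (D.v₀ false) * h.pi (D.psi false x) =
      h.pi (D.t0 * D.psi true x * D.t0⁻¹) * e false (D.v₀ false)
    rw [map_mul, map_mul, map_inv, t0, h.pi_of, h.pi_psi, inv_mul_cancel_right])

theorem IsJoin.left_o {A : Type} [Group A] {e : ∀ c, G c →* A} (h : D.IsJoin A e) (x : D.Ah) :
    h.left (D.o x) = h.pi x := HNNExtension.lift_of _ _ _ _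

theorem IsJoin.left_T {A : Type} [Group A] {e : ∀ c, G c →* A} (h : D.IsJoin A e) :
    h.left D.T = e false (D.v₀ false) := HNNExtension.lift_t _ _ _

end JDat

/-- Module JE. -/
theorem stJE : StJE := by
  intro G _ B _ D A _ e h
  obtain ⟨F, hF⟩ := h.lift D.Hn (fun c => match c with
    | false => D.F0
    | true => D.F1) (by
      ext b
      exact (D.F0_B b).trans (D.F1_B b).symm) D.F_rel
  refine ⟨_, _, D.tau, F, ?_⟩
  have hF0 : F.comp (e false) = D.F0 := hF false
  have hF1 : F.comp (e true) = D.F1 := hF true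
  have key : (h.left.comp F).eqLocus (MonoidHom.id A) = ⊤ := by
    rw [eq_top_iff, ← h.gen, Subgroup.closure_le]
    rintro _ (⟨g, rfl⟩ | ⟨g, rfl⟩)
    · change h.left (F (e false g)) = e false g
      have h1 : F (e false g) = D.F0 g := DFunLike.congr_fun hF0 g
      rw [h1, JDat.F0, semi_apply, map_mul, map_zpow, h.left_T, MonoidHom.comp_apply, h.left_o,
        h.pi_of, map_mul, map_zpow, mul_assoc, ← zpow_add, neg_add_cancel, zpow_zero, mul_one]
    · change h.left (F (e true g)) = e true g
      have h1 : F (e true g) = D.F1 g := DFunLike.congr_fun hF1 g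
      have h2 : h.left D.Y = e true (D.v₀ true) := by
        rw [JDat.Y, map_mul, map_inv, h.left_T, h.left_o, map_mul, JDat.t0, JDat.a0, h.pi_of,
          h.pi_of, inv_mul_cancel_left]
      rw [h1, JDat.F1, semi_apply, map_mul, map_zpow, h2, MonoidHom.comp_apply, h.left_o,
        h.pi_of, map_mul, map_zpow, mul_assoc, ← zpow_add, neg_add_cancel, zpow_zero, mul_one]
  intro x y hxy
  have hx : x ∈ (h.left.comp F).eqLocus (MonoidHom.id A) := by rw [key]; trivial
  have hy : y ∈ (h.left.comp F).eqLocus (MonoidHom.id A) := by rw [key]; trivial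
  have hx' : h.left (F x) = x := hx
  have hy' : h.left (F y) = y := hy
  rw [← hx', ← hy', hxy]

end Pool.Agent.Lib.MP_e6f638_al
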