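import Pool.Agent.Lib.MP_e6f638_al.J.Stmts

/-!
# Module JF: the maps of `E` to the amalgam are injective
-/

set_option autoImplicit false

namespace Pool.Agent.Lib.MP_e6f638_al

open Multiplicative Monoid

namespace JDat

variable {G : Bool → Type} [∀ c, Group (G c)] {B : Type} [Group B] (D : JDat G B)

theorem of_φ (c : Bool) (b : B) : D.of c (D.φ c b) = D.base b :=
  PushoutI.of_apply_eq_base D.φ c b

/-! ## Reduced elements -/

/-- The elements with a reduced word whose first letter is in the factor `c`. -/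
inductive R : Bool → D.Ah → Prop
  | one (c : Bool) (g : G c) : g ∉ (D.φ c).range → R c (D.of c g)
  | cons (c c' : Bool) (g : G c) (y : D.Ah) : c' ≠ c → g ∉ (D.φ c).range → R c' y →
      R c (D.of c g * y)

variable {D}

theorem R.word {c : Bool} {y : D.Ah} (h : D.R c y) :
    ∃ w : CoprodI.Word G, PushoutI.Reduced D.φ w ∧ w.fstIdx = some c ∧
      PushoutI.ofCoprodI w.prod = y := by
  induction h with
  | one c g hg =>
    have h1 : g ≠ 1 := by rintro rfl; exact hg (one_mem _)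
    have h2 : (CoprodI.Word.empty : CoprodI.Word G).fstIdx ≠ some c := by
      simp [CoprodI.Word.fstIdx, CoprodI.Word.empty]
    refine ⟨CoprodI.Word.cons g .empty h2 h1, ?_, ?_, ?_⟩
    · intro l hl
      have hl' : l ∈ [(⟨c, g⟩ : Σ i, G i)] := hl
      rw [List.mem_singleton] at hl'
      subst hl'
      exact hg
    · exact CoprodI.Word.fstIdx_cons _ _ _ _
    · rw [CoprodI.Word.prod_cons, map_mul, CoprodI.Word.prod_empty, map_one, mul_one]
      exact PushoutI.ofCoprodI_of c g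
  | cons c c' g y hc hg _ ih =>
    obtain ⟨w, hw1, hw2, hw3⟩ := ih
    have h1 : g ≠ 1 := by rintro rfl; exact hg (one_mem _)
    have h2 : w.fstIdx ≠ some c := by
      rw [hw2]
      intro h
      exact hc (Option.some.inj h)
    refine ⟨CoprodI.Word.cons g w h2 h1, ?_, ?_, ?_⟩
    · intro l hl
      have hl' : l ∈ (⟨c, g⟩ : Σ i, G i) :: w.toList := hl
      rcases List.mem_cons.1 hl' with h | h
      · subst h
        exact hg
      · exact hw1 l h
    · exact CoprodI.Word.fstIdx_cons _ _ _ _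
    · rw [CoprodI.Word.prod_cons, map_mul, hw3]
      congr 1

theorem R.not_base {c : Bool} {y : D.Ah} (h : D.R c y) : y ∉ D.base.range := by
  intro hy
  obtain ⟨w, hw1, hw2, hw3⟩ := h.word
  rw [← hw3] at hy
  have := PushoutI.Reduced.eq_empty_of_mem_range D.inj hw1 hy
  rw [this] at hw2
  simp [CoprodI.Word.fstIdx, CoprodI.Word.empty] at hw2

theorem not_range_mul {c : Bool} {g : G c} (hg : g ∉ (D.φ c).range) (b : B) :
    D.φ c b * g ∉ (D.φ c).range := by
  rintro ⟨b', hb'⟩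
  refine hg ⟨b⁻¹ * b', ?_⟩
  rw [map_mul, map_inv, hb', inv_mul_cancel_left]

theorem not_range_of_h {c : Bool} {g : G c} (hg : D.h c g ≠ 1) : g ∉ (D.φ c).range := by
  rintro ⟨b, rfl⟩
  exact hg (D.h_B c b)

variable (D)

/-! ## Elements of `P` -/

/-- Reduced words with letters of height zero. -/
inductive RP : Bool → D.Ah → Prop
  | one (c : Bool) (g : G c) : g ∉ (D.φ c).range → D.h c g = 1 → RP c (D.of c g)
  | cons (c c' : Bool) (g : G c) (y : D.Ah) : c' ≠ c → g ∉ (D.φ c).range → D.h c g = 1 →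
      RP c' y → RP c (D.of c g * y)

variable {D}

theorem RP.toR {c : Bool} {y : D.Ah} (h : D.RP c y) : D.R c y := by
  induction h with
  | one c g h1 _ => exact .one c g h1
  | cons c c' g y h1 h2 _ _ ih => exact .cons c c' g y h1 h2 ih

theorem RP.base_mul {c : Bool} {y : D.Ah} (h : D.RP c y) (b : B) : D.RP c (D.base b * y) := by
  cases h with
  | one _ g h1 h2 =>
    rw [← D.of_φ c, ← map_mul]
    exact .one c _ (not_range_mul h1 b) (by rw [map_mul, D.h_B, h2, mul_one])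
  | cons _ c' g y h1 h2 h3 h4 =>
    rw [← mul_assoc, ← D.of_φ c, ← map_mul]
    exact .cons c c' _ y h1 (not_range_mul h2 b) (by rw [map_mul, D.h_B, h3, mul_one]) h4

theorem rp_mul {c : Bool} (g : G c) (hg : D.h c g = 1) {y : D.Ah}
    (hy : (∃ b, y = D.base b) ∨ ∃ c', D.RP c' y) :
    (∃ b, D.of c g * y = D.base b) ∨ ∃ c', D.RP c' (D.of c g * y) := by
  rcases hy with ⟨b, rfl⟩ | ⟨c', hy⟩
  · rw [← D.of_φ c b, ← map_mul]
    by_cases h : g * D.φ c b ∈ (D.φ c).range
    · obtain ⟨b', hb'⟩ := h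
      left
      exact ⟨b', by rw [← hb', D.of_φ]⟩
    · right
      exact ⟨c, .one c _ h (by rw [map_mul, hg, D.h_B, mul_one])⟩
  · by_cases hgr : g ∈ (D.φ c).range
    · obtain ⟨b, rfl⟩ := hgr
      right
      exact ⟨c', by rw [D.of_φ]; exact hy.base_mul b⟩
    · by_cases hc : c' = c
      · subst hc
        cases hy with
        | one _ g' h1 h2 =>
          rw [← map_mul]
          by_cases h : g * g' ∈ (D.φ c').range
          · obtain ⟨b', hb'⟩ := h
            left
            exact ⟨b', by rw [← hb', D.of_φ]⟩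
          · right
            exact ⟨c', .one c' _ h (by rw [map_mul, hg, h2, mul_one])⟩
        | cons _ c'' g' y h1 h2 h3 h4 =>
          rw [← mul_assoc, ← map_mul]
          by_cases h : g * g' ∈ (D.φ c').range
          · obtain ⟨b', hb'⟩ := h
            right
            exact ⟨c'', by rw [← hb', D.of_φ]; exact h4.base_mul b'⟩
          · right
            exact ⟨c', .cons c' c'' _ y h1 h (by rw [map_mul, hg, h3, mul_one]) h4⟩
      · right
        exact ⟨c, .cons c c' g y hc hgr hg hy⟩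

theorem exists_rp {p : D.Ah} (hp : p ∈ D.P) : (∃ b, p = D.base b) ∨ ∃ c, D.RP c p := by
  unfold P at hp
  induction hp using Subgroup.closure_induction_left with
  | one => left; exact ⟨1, by rw [map_one]⟩
  | mul_left x hx y _ hy =>
    obtain ⟨c, g, hg, rfl⟩ := hx
    exact rp_mul g hg hy
  | inv_mul_cancel x hx y _ hy =>
    obtain ⟨c, g, hg, rfl⟩ := hx
    rw [← map_inv]
    exact rp_mul g⁻¹ (by rw [map_inv, hg, inv_one]) hy

/-- An element of `P` in front of a reduced element whose first letter has nonzero height. -/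
theorem rp_front {c : Bool} {e : D.Ah} (he : D.RP c e) {x y : Bool} (hyx : y ≠ x) (a : G x)
    (ha : D.h x a ≠ 1) (u : D.Ah) (hu : D.R y u) :
    (c = x ∧ ∃ κ : G x, D.h x κ = 1 ∧ e = D.of x κ) ∨
      ∃ (g : G c) (m : D.Ah), D.h c g = 1 ∧ g ∉ (D.φ c).range ∧
        e * (D.of x a * u) = D.of c g * m ∧ ∃ c', c' ≠ c ∧ D.R c' m := by
  induction he with
  | one c g h1 h2 =>
    by_cases hc : c = x
    · subst hc
      left
      exact ⟨rfl, g, h2, rfl⟩
    · right
      exact ⟨g, _, h2, h1, rfl, x, fun h => hc h.symm,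
        .cons x y a u hyx (not_range_of_h ha) hu⟩
  | cons c c' g e h1 h2 h3 _ ih =>
    right
    rcases ih with ⟨rfl, κ, hκ, rfl⟩ | ⟨g', m, h4, h5, h6, c'', h7, h8⟩
    · refine ⟨g, D.of c' (κ * a) * u, h3, h2, ?_, c', h1, ?_⟩
      · rw [map_mul]
        simp only [mul_assoc]
      · exact .cons c' y _ u hyx (not_range_of_h (by rwa [map_mul, hκ, one_mul])) hu
    · refine ⟨g, D.of c' g' * m, h3, h2, ?_, c', h1, .cons c' c'' g' m h7 h5 h8⟩
      rw [mul_assoc, h6]

/-- The same for all elements of `P`. -/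
theorem p_front {e : D.Ah} (he : e ∈ D.P) {x y : Bool} (hyx : y ≠ x) (a : G x)
    (ha : D.h x a ≠ 1) (u : D.Ah) (hu : D.R y u) :
    (∃ κ : G x, D.h x κ = 1 ∧ e = D.of x κ) ∨
      ∃ (c : Bool) (g : G c) (m : D.Ah), D.h c g = 1 ∧ g ∉ (D.φ c).range ∧
        e * (D.of x a * u) = D.of c g * m ∧ ∃ c', c' ≠ c ∧ D.R c' m := by
  rcases exists_rp he with ⟨b, rfl⟩ | ⟨c, hc⟩
  · left
    exact ⟨D.φ x b, D.h_B x b, (D.of_φ x b).symm⟩
  · rcases rp_front hc hyx a ha u hu with ⟨-, h⟩ | ⟨g, m, h⟩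
    · exact Or.inl h
    · exact Or.inr ⟨c, g, m, h⟩

/-- A letter of nonzero height in front of an element starting with a letter of height zero. -/
theorem r_letter {y c c' : Bool} {b : G y} (hb : D.h y b ≠ 1) {g : G c} {m : D.Ah}
    (h1 : D.h c g = 1) (h2 : g ∉ (D.φ c).range) (h3 : c' ≠ c) (h4 : D.R c' m) :
    D.R y (D.of y b * (D.of c g * m)) := by
  by_cases hc : c = y
  · subst hc
    rw [← mul_assoc, ← map_mul]
    exact .cons c c' _ m h3 (not_range_of_h (by rwa [map_mul, h1, mul_one])) h4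
  · exact .cons y c b _ hc (not_range_of_h hb) (.cons c c' g m h3 h2 h4)

variable (D)

/-! ## Blocks -/

theorem h_zpow (c : Bool) (z : D.Z) (s : ℤˣ) : D.h c (D.v c z ^ (s : ℤ)) ≠ 1 := by
  rw [map_zpow, D.h_v]
  rcases Int.units_eq_one_or s with rfl | rfl
  · intro h
    have h2 : toAdd (ofAdd (1 : ℤ) ^ (((1 : ℤˣ) : ℤˣ) : ℤ)) = toAdd (1 : Multiplicative ℤ) := by
      rw [h]
    simp at h2
  · intro h
    have h2 : toAdd (ofAdd (1 : ℤ) ^ ((-1 : ℤˣ) : ℤ)) = toAdd (1 : Multiplicative ℤ) := by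
      rw [h]
    simp at h2

/-- A block. -/
def blk (x y : Bool) (s : ℤˣ) (z : D.Z) : D.Ah :=
  (D.of x (D.v x z ^ (s : ℤ)) * D.of y (D.v y z ^ (s : ℤ))) ^ D.n z

/-- The element `w` starts with three letters of the block. -/
def Form (x y : Bool) (s : ℤˣ) (z : D.Z) (w : D.Ah) : Prop :=
  ∃ t, D.R y t ∧ w = D.of x (D.v x z ^ (s : ℤ)) * (D.of y (D.v y z ^ (s : ℤ)) *
    (D.of x (D.v x z ^ (s : ℤ)) * t))

variable {D}

theorem pow_alt {A : Type} [Group A] (a b u : A) (k : ℕ) :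
    (a * b) ^ (k + 1) * (a * u) = a * (b * (a * ((b * a) ^ k * u))) := by
  induction k with
  | zero => simp [mul_assoc]
  | succ k ih =>
    rw [pow_succ', mul_assoc, ih, pow_succ' (b * a) k]
    simp only [mul_assoc]

theorem r_alt {x y : Bool} (hxy : x ≠ y) (s : ℤˣ) (z : D.Z) {u : D.Ah} (hu : D.R y u) (k : ℕ) :
    D.R y ((D.of y (D.v y z ^ (s : ℤ)) * D.of x (D.v x z ^ (s : ℤ))) ^ k * u) := by
  induction k with
  | zero => simpa using hu
  | succ k ih =>
    rw [pow_succ', mul_assoc, mul_assoc]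
    exact .cons y x _ _ hxy (not_range_of_h (D.h_zpow y z s))
      (.cons x y _ _ hxy.symm (not_range_of_h (D.h_zpow x z s)) ih)

theorem form_of {x y : Bool} (hxy : x ≠ y) (s : ℤˣ) (z : D.Z) {u : D.Ah} (hu : D.R y u) (k : ℕ) :
    D.Form x y s z ((D.of x (D.v x z ^ (s : ℤ)) * D.of y (D.v y z ^ (s : ℤ))) ^ (k + 1) *
      (D.of x (D.v x z ^ (s : ℤ)) * u)) :=
  ⟨_, r_alt hxy s z hu k, pow_alt _ _ _ _⟩

theorem blk_form1 {x y : Bool} (hxy : x ≠ y) (s : ℤˣ) (z : D.Z) {m : D.Ah}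
    (hm : D.R y (D.of y (D.v y z ^ (s : ℤ)) * m)) : D.Form x y s z (D.blk x y s z * m) := by
  obtain ⟨k, hk⟩ : ∃ k, D.n z = k + 1 + 1 := ⟨D.n z - 2, by have := D.three_le z; omega⟩
  have := form_of hxy s z hm k
  rw [blk, hk, pow_succ, mul_assoc, mul_assoc]
  exact this

theorem blk_form3 {x y : Bool} (hxy : x ≠ y) (s : ℤˣ) (z : D.Z) {m : D.Ah}
    (hm : D.R y (D.of y (D.v y z ^ (s : ℤ)) * (D.of x (D.v x z ^ (s : ℤ)) *
      (D.of y (D.v y z ^ (s : ℤ)) * m)))) : D.Form x y s z (D.blk x y s z * m) := by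
  obtain ⟨k, hk⟩ : ∃ k, D.n z = k + 1 + 1 + 1 := ⟨D.n z - 3, by have := D.three_le z; omega⟩
  have := form_of hxy s z hm k
  rw [blk, hk, pow_succ, pow_succ]
  simp only [mul_assoc] at this ⊢
  exact this

theorem blk_form2 {x y : Bool} (hxy : x ≠ y) (s : ℤˣ) (z : D.Z) {m : D.Ah}
    (hm : D.R x (D.of x (D.v x z ^ (s : ℤ)) * (D.of y (D.v y z ^ (s : ℤ)) * m))) :
    D.Form x y s z (D.blk x y s z * m) :=
  blk_form3 hxy s z (.cons y x _ _ hxy (not_range_of_h (D.h_zpow y z s)) hm)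

theorem comm_s {c : Bool} {z z' : D.Z} (s : ℤˣ) {β β' : B}
    (h : D.v c z ^ (s : ℤ) * D.φ c β * D.v c z' ^ ((-s : ℤˣ) : ℤ) = D.φ c β') :
    D.v c z = D.v c z' ∧ β' = β ∧ Commute (D.φ c β) (D.v c z) := by
  rcases Int.units_eq_one_or s with rfl | rfl
  · have h1 : D.v c z * D.φ c β = D.φ c β' * D.v c z' := by
      rw [← h]
      simp
    obtain ⟨h2, rfl⟩ := D.comm c z z' β β' h1
    refine ⟨h2, rfl, ?_⟩
    rw [← h2] at h1
    exact h1.symm
  · have h1 : D.v c z * D.φ c β' = D.φ c β * D.v c z' := by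
      rw [← h]
      simp [mul_assoc]
    obtain ⟨h2, rfl⟩ := D.comm c z z' β' β h1
    refine ⟨h2, rfl, ?_⟩
    rw [← h2] at h1
    exact h1.symm

theorem pair' {x y : Bool} (hxy : x ≠ y) {z z' : D.Z} (h1 : D.v x z = D.v x z')
    (h2 : D.v y z = D.v y z') : z = z' := by
  cases x <;> cases y
  · exact absurd rfl hxy
  · exact D.pair z z' h1 h2
  · exact D.pair z z' h2 h1
  · exact absurd rfl hxy

/-- A block in front, same sign. -/
theorem junc_same {x y : Bool} (hxy : x ≠ y) (s : ℤˣ) (z z' : D.Z) {p w : D.Ah} (hp : p ∈ D.P)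
    (hw : D.Form x y s z' w) : D.Form x y s z (D.blk x y s z * (p * w)) := by
  obtain ⟨t, ht, rfl⟩ := hw
  apply blk_form1 hxy
  have hu : D.R y (D.of y (D.v y z' ^ (s : ℤ)) * (D.of x (D.v x z' ^ (s : ℤ)) * t)) :=
    .cons y x _ _ hxy (not_range_of_h (D.h_zpow y z' s))
      (.cons x y _ _ hxy.symm (not_range_of_h (D.h_zpow x z' s)) ht)
  rcases p_front hp hxy.symm (D.v x z' ^ (s : ℤ)) (D.h_zpow x z' s) _ hu with
    ⟨κ, hκ, rfl⟩ | ⟨c, g, m, h1, h2, h3, c', h4, h5⟩
  · rw [← mul_assoc (D.of x κ), ← map_mul]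
    exact .cons y x _ _ hxy (not_range_of_h (D.h_zpow y z s))
      (.cons x y _ _ hxy.symm (not_range_of_h (by
        rw [map_mul, hκ, one_mul]
        exact D.h_zpow x z' s)) hu)
  · rw [h3]
    exact r_letter (D.h_zpow y z s) h1 h2 h4 h5

/-- A block in front, opposite sign. -/
theorem junc_opp {x y : Bool} (hxy : x ≠ y) (s : ℤˣ) (z z' : D.Z) {p w : D.Ah} (hp : p ∈ D.P)
    (hw : D.Form y x (-s) z' w)
    (hr : z = z' → ¬ ∃ b, p = D.base b ∧ Commute (D.φ x b) (D.v x z) ∧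
      Commute (D.φ y b) (D.v y z)) :
    D.Form x y s z (D.blk x y s z * (p * w)) := by
  obtain ⟨t, ht, rfl⟩ := hw
  have hu1 : D.R y (D.of y (D.v y z' ^ ((-s : ℤˣ) : ℤ)) * t) :=
    .cons y x _ _ hxy (not_range_of_h (D.h_zpow y z' (-s))) ht
  have hu : D.R x (D.of x (D.v x z' ^ ((-s : ℤˣ) : ℤ)) *
      (D.of y (D.v y z' ^ ((-s : ℤˣ) : ℤ)) * t)) :=
    .cons x y _ _ hxy.symm (not_range_of_h (D.h_zpow x z' (-s))) hu1
  rcases p_front hp hxy (D.v y z' ^ ((-s : ℤˣ) : ℤ)) (D.h_zpow y z' (-s)) _ hu with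
    ⟨κ, hκ, rfl⟩ | ⟨c, g, m, h1, h2, h3, c', h4, h5⟩
  · by_cases h1 : D.v y z ^ (s : ℤ) * κ * D.v y z' ^ ((-s : ℤˣ) : ℤ) ∈ (D.φ y).range
    · obtain ⟨β, hβ⟩ := h1
      have e1 : D.of y (D.v y z ^ (s : ℤ)) * (D.of y κ * (D.of y (D.v y z' ^ ((-s : ℤˣ) : ℤ)) *
          (D.of x (D.v x z' ^ ((-s : ℤˣ) : ℤ)) * (D.of y (D.v y z' ^ ((-s : ℤˣ) : ℤ)) * t)))) =
          D.of x (D.φ x β * D.v x z' ^ ((-s : ℤˣ) : ℤ)) *
            (D.of y (D.v y z' ^ ((-s : ℤˣ) : ℤ)) * t) := by
        rw [map_mul (D.of x), D.of_φ, ← D.of_φ y, hβ]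
        simp only [map_mul, mul_assoc]
      by_cases h2 : D.v x z ^ (s : ℤ) * D.φ x β * D.v x z' ^ ((-s : ℤˣ) : ℤ) ∈ (D.φ x).range
      · obtain ⟨β', hβ'⟩ := h2
        obtain ⟨h3, rfl, h4⟩ := comm_s s hβ'.symm
        have e2 : D.of x (D.v x z ^ (s : ℤ)) * (D.of x (D.φ x β' *
            D.v x z' ^ ((-s : ℤˣ) : ℤ)) * (D.of y (D.v y z' ^ ((-s : ℤˣ) : ℤ)) * t)) =
            D.of y (D.φ y β' * D.v y z' ^ ((-s : ℤˣ) : ℤ)) * t := by
          have e0 : D.of x (D.v x z ^ (s : ℤ) * D.φ x β' * D.v x z' ^ ((-s : ℤˣ) : ℤ)) =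
              D.base β' := by rw [← hβ', D.of_φ]
          rw [map_mul (D.of y), D.of_φ, ← e0]
          simp only [map_mul, mul_assoc]
        by_cases h5 : D.v y z ^ (s : ℤ) * D.φ y β' * D.v y z' ^ ((-s : ℤˣ) : ℤ) ∈
            (D.φ y).range
        · exfalso
          obtain ⟨β'', hβ''⟩ := h5
          obtain ⟨h6, rfl, h7⟩ := comm_s s hβ''.symm
          refine hr (pair' hxy h3 h6) ⟨β'', ?_, h4, h7⟩
          rw [← h6] at hβ hβ''
          have h8 : κ = D.φ y β'' :=
            mul_left_cancel (mul_right_cancel (hβ.symm.trans hβ''))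
          rw [h8, D.of_φ]
        · apply blk_form3 hxy
          rw [e1, e2]
          have := R.cons y x _ _ hxy h5 ht
          simpa only [map_mul, mul_assoc] using this
      · apply blk_form2 hxy
        rw [e1]
        have := R.cons x y _ _ hxy.symm h2 hu1
        simpa only [map_mul, mul_assoc] using this
    · apply blk_form1 hxy
      have := R.cons y x _ _ hxy h1 hu
      simpa only [map_mul, mul_assoc] using this
  · apply blk_form1 hxy
    rw [h3]
    exact r_letter (D.h_zpow y z s) h1 h2 h4 h5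

/-- The last block. -/
theorem junc_last {x y : Bool} (hxy : x ≠ y) (s : ℤˣ) (z : D.Z) {p : D.Ah} (hp : p ∈ D.P) :
    D.Form x y s z (D.blk x y s z * p) := by
  apply blk_form1 hxy
  rcases exists_rp hp with ⟨b, rfl⟩ | ⟨c, hc⟩
  · rw [← D.of_φ y, ← map_mul]
    exact .one y _ (not_range_of_h (by
      rw [map_mul, D.h_B, mul_one]
      exact D.h_zpow y z s))
  · cases hc with
    | one _ g h1 h2 =>
      by_cases hy : c = y
      · subst hy
        rw [← map_mul]
        exact .one c _ (not_range_of_h (by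
          rw [map_mul, h2, mul_one]
          exact D.h_zpow c z s))
      · exact .cons y c _ _ hy (not_range_of_h (D.h_zpow y z s)) (.one c g h1)
    | cons _ c' g m h1 h2 h3 h4 => exact r_letter (D.h_zpow y z s) h3 h2 h1 h4.toR

/-- An element of `P` in front of a block is not in the base. -/
theorem form_not_base {x y : Bool} (hxy : x ≠ y) {s : ℤˣ} {z : D.Z} {p w : D.Ah} (hp : p ∈ D.P)
    (hw : D.Form x y s z w) : p * w ∉ D.base.range := by
  obtain ⟨t, ht, rfl⟩ := hw
  have hu : D.R y (D.of y (D.v y z ^ (s : ℤ)) * (D.of x (D.v x z ^ (s : ℤ)) * t)) :=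
    .cons y x _ _ hxy (not_range_of_h (D.h_zpow y z s))
      (.cons x y _ _ hxy.symm (not_range_of_h (D.h_zpow x z s)) ht)
  rcases p_front hp hxy.symm (D.v x z ^ (s : ℤ)) (D.h_zpow x z s) _ hu with
    ⟨κ, hκ, rfl⟩ | ⟨c, g, m, h1, h2, h3, c', h4, h5⟩
  · rw [← mul_assoc, ← map_mul]
    exact R.not_base (.cons x y _ _ hxy.symm (not_range_of_h (by
      rw [map_mul, hκ, one_mul]
      exact D.h_zpow x z s)) hu)
  · rw [h3]
    exact R.not_base (.cons c c' g m h4 h2 h5)

variable (D)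

/-! ## The map -/

/-- The map of the coproduct. -/
noncomputable def psi0 (c : Bool) : Monoid.Coprod D.P (FreeGroup D.Z) →* D.Ah :=
  Monoid.Coprod.lift D.P.subtype
    (FreeGroup.lift fun i => (D.of c (D.v c i) * D.of (!c) (D.v (!c) i)) ^ D.n i)

theorem commute_vv {c : Bool} {i : D.Z} {b : B} (h1 : Commute (D.φ false b) (D.v false i))
    (h2 : Commute (D.φ true b) (D.v true i)) (n : ℕ) :
    Commute (D.base b) ((D.of c (D.v c i) * D.of (!c) (D.v (!c) i)) ^ n) := by
  have h : ∀ c, Commute (D.base b) (D.of c (D.v c i)) := by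
    intro c
    rw [← D.of_φ c]
    cases c
    · exact h1.map (D.of false)
    · exact h2.map (D.of true)
  exact ((h c).mul_right (h (!c))).pow_right n

/-- The map `ψ`. -/
noncomputable def psi (c : Bool) : D.E →* D.Ah :=
  QuotientGroup.lift (Subgroup.normalClosure D.rE) (D.psi0 c) (by
    intro x hx
    have : Subgroup.normalClosure D.rE ≤ (D.psi0 c).ker := by
      refine Subgroup.normalClosure_le_normal ?_
      rintro r ⟨i, b, h1, h2, rfl⟩
      have h := D.commute_vv (c := c) h1 h2 (D.n i)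
      simp only [SetLike.mem_coe, MonoidHom.mem_ker, psi0, map_mul, map_inv,
        Monoid.Coprod.lift_apply_inr, Monoid.Coprod.lift_apply_inl, FreeGroup.lift_apply_of,
        Subgroup.subtype_apply]
      rw [← h.eq]
      group
    exact this hx)

theorem isPsi_psi (c : Bool) : D.IsPsi c (D.psi c) := by
  constructor
  · intro a
    simp [psi, inE, psi0]
  · intro i
    simp [psi, z, psi0]

/-- `ψ` is unique. -/
theorem IsPsi.unique {D : JDat G B} {c : Bool} {φ ψ : D.E →* D.Ah} (h1 : D.IsPsi c φ)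
    (h2 : D.IsPsi c ψ) : φ = ψ := by
  refine MonoidHom.ext fun e => ?_
  obtain ⟨m, rfl⟩ := QuotientGroup.mk'_surjective (Subgroup.normalClosure D.rE) e
  have : (φ.comp (QuotientGroup.mk' (Subgroup.normalClosure D.rE))) =
      (ψ.comp (QuotientGroup.mk' (Subgroup.normalClosure D.rE))) := by
    refine Monoid.Coprod.hom_ext ?_ ?_
    · ext a
      exact (h1.1 a).trans (h2.1 a).symm
    · ext i
      exact (h1.2 i).trans (h2.2 i).symm
  exact DFunLike.congr_fun this m

/-! ## Words of `E` -/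

/-- The product of a word of `E`. -/
def eprod (L : List (D.Z × ℤˣ × D.P)) : D.E :=
  (L.map fun p => D.z p.1 ^ (p.2.1 : ℤ) * D.inE p.2.2).prod

/-- The elements which commute with `z i` by definition. -/
def Cz (i : D.Z) (p : D.P) : Prop :=
  ∃ b, (p : D.Ah) = D.base b ∧ Commute (D.φ false b) (D.v false i) ∧
    Commute (D.φ true b) (D.v true i)

/-- Reduced words of `E`. -/
def ERed (L : List (D.Z × ℤˣ × D.P)) : Prop :=
  L.IsChain (fun p q => p.1 = q.1 → p.2.1 = -q.2.1 → ¬ D.Cz p.1 p.2.2)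

theorem z_comm {i : D.Z} {p : D.P} (h : D.Cz i p) : Commute (D.z i) (D.inE p) := by
  obtain ⟨b, hb, h1, h2⟩ := h
  obtain rfl : p = ⟨D.base b, D.base_mem_P b⟩ := Subtype.ext hb
  have : QuotientGroup.mk' (Subgroup.normalClosure D.rE)
      (Monoid.Coprod.inr (FreeGroup.of i) * Monoid.Coprod.inl ⟨D.base b, D.base_mem_P b⟩ *
      (Monoid.Coprod.inr (FreeGroup.of i))⁻¹ *
      (Monoid.Coprod.inl ⟨D.base b, D.base_mem_P b⟩)⁻¹) = 1 := by
    rw [← MonoidHom.mem_ker, QuotientGroup.ker_mk']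
    exact Subgroup.subset_normalClosure ⟨i, b, h1, h2, rfl⟩
  simp only [map_mul, map_inv] at this
  rw [mul_inv_eq_one, mul_inv_eq_iff_eq_mul] at this
  exact this

theorem closure_E : Subgroup.closure (Set.range D.inE ∪ Set.range D.z) = ⊤ := by
  rw [eq_top_iff]
  rintro e -
  obtain ⟨m, rfl⟩ := QuotientGroup.mk'_surjective (Subgroup.normalClosure D.rE) e
  induction m using Monoid.Coprod.induction_on with
  | inl a => exact Subgroup.subset_closure (Or.inl ⟨a, rfl⟩)
  | inr w =>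
    induction w using FreeGroup.induction_on with
    | C1 => simp only [map_one]; exact one_mem _
    | of i => exact Subgroup.subset_closure (Or.inr ⟨i, rfl⟩)
    | inv_of i h => simpa only [map_inv] using inv_mem h
    | mul x y hx hy => simpa only [map_mul] using mul_mem hx hy
  | mul x y hx hy => rw [map_mul]; exact mul_mem hx hy

/-- The elements with a reduced word. -/
def HasRed (e : D.E) : Prop := ∃ (a : D.P) (L : List (D.Z × ℤˣ × D.P)), D.ERed L ∧
  e = D.inE a * D.eprod L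

theorem HasRed.inE_mul {D : JDat G B} {e : D.E} (h : D.HasRed e) (b : D.P) :
    D.HasRed (D.inE b * e) := by
  obtain ⟨a, L, hL, rfl⟩ := h
  exact ⟨b * a, L, hL, by rw [map_mul, mul_assoc]⟩

theorem HasRed.z_mul {D : JDat G B} {e : D.E} (h : D.HasRed e) (i : D.Z) (ε : ℤˣ) :
    D.HasRed (D.z i ^ (ε : ℤ) * e) := by
  obtain ⟨a, L, hL, rfl⟩ := h
  rcases L with _ | ⟨p, L⟩
  · exact ⟨1, [(i, ε, a)], List.isChain_singleton _, by simp [eprod]⟩
  · by_cases hp : i = p.1 ∧ ε = -p.2.1 ∧ D.Cz i a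
    · obtain ⟨rfl, hε, hc⟩ := hp
      refine ⟨a * p.2.2, L, (List.isChain_cons.1 hL).2, ?_⟩
      have h1 : D.z p.1 ^ (ε : ℤ) * D.inE a = D.inE a * D.z p.1 ^ (ε : ℤ) :=
        ((D.z_comm hc).zpow_left _).eq
      have h2 : D.z p.1 ^ (ε : ℤ) * D.z p.1 ^ (p.2.1 : ℤ) = 1 := by
        rw [hε, ← zpow_add]
        simp
      rw [map_mul, eprod, List.map_cons, List.prod_cons, ← mul_assoc, ← mul_assoc, h1,
        ← mul_assoc, mul_assoc (D.inE a), h2, mul_one, mul_assoc, mul_assoc, eprod]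
    · refine ⟨1, (i, ε, a) :: p :: L, ?_, ?_⟩
      · refine List.isChain_cons_cons.2 ⟨?_, hL⟩
        rintro h1 h2 h3
        exact hp ⟨h1, h2, h3⟩
      · simp [eprod, mul_assoc]

theorem hasRed (e : D.E) : D.HasRed e := by
  have : e ∈ Subgroup.closure (Set.range D.inE ∪ Set.range D.z) := by
    rw [D.closure_E]; trivial
  induction this using Subgroup.closure_induction_left with
  | one => exact ⟨1, [], List.isChain_nil, by simp [eprod]⟩
  | mul_left x hx y _ hy =>
    rcases hx with ⟨a, rfl⟩ | ⟨i, rfl⟩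
    · exact hy.inE_mul a
    · simpa using hy.z_mul i 1
  | inv_mul_cancel x hx y _ hy =>
    rcases hx with ⟨a, rfl⟩ | ⟨i, rfl⟩
    · rw [← map_inv]; exact hy.inE_mul _
    · simpa using hy.z_mul i (-1)

/-- The first factor of the block of `z ^ ε`. -/
def fx (c : Bool) (ε : ℤˣ) : Bool := if ε = 1 then c else !c

/-- The second factor of the block of `z ^ ε`. -/
def fy (c : Bool) (ε : ℤˣ) : Bool := if ε = 1 then !c else c

theorem fx_ne_fy (c : Bool) (ε : ℤˣ) : fx c ε ≠ fy c ε := by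
  unfold fx fy
  split_ifs <;> cases c <;> decide

theorem fx_neg (c : Bool) (ε : ℤˣ) : fx c (-ε) = fy c ε ∧ fy c (-ε) = fx c ε := by
  have h1 : ((-1 : ℤˣ) = 1) ↔ False := by decide
  rcases Int.units_eq_one_or ε with rfl | rfl <;> simp [fx, fy, h1]

theorem psi_z (c : Bool) (i : D.Z) (ε : ℤˣ) :
    D.psi c (D.z i ^ (ε : ℤ)) = D.blk (fx c ε) (fy c ε) ε i := by
  rw [map_zpow, (D.isPsi_psi c).2]
  rcases Int.units_eq_one_or ε with rfl | rfl
  · have h1 : fx c 1 = c := if_pos rfl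
    have h2 : fy c 1 = !c := if_pos rfl
    rw [h1, h2]
    simp only [blk, Units.val_one, zpow_one]
  · have hne : ¬ ((-1 : ℤˣ) = 1) := by decide
    have h1 : fx c (-1) = !c := if_neg hne
    have h2 : fy c (-1) = c := if_neg hne
    rw [h1, h2]
    simp only [blk, Units.val_neg, Units.val_one, zpow_neg, zpow_one, map_inv]
    rw [← inv_pow, mul_inv_rev]

theorem form_eprod (c : Bool) (L : List (D.Z × ℤˣ × D.P)) (hL : D.ERed L) :
    ∀ p ∈ L.head?, D.Form (fx c p.2.1) (fy c p.2.1) p.2.1 p.1 (D.psi c (D.eprod L)) := by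
  induction L with
  | nil => simp
  | cons p L ih =>
    intro q hq
    obtain rfl : p = q := by simpa using hq
    have h1 : D.psi c (D.eprod (p :: L)) = D.blk (fx c p.2.1) (fy c p.2.1) p.2.1 p.1 *
        ((p.2.2 : D.Ah) * D.psi c (D.eprod L)) := by
      rw [← D.psi_z c p.1 p.2.1, eprod, List.map_cons, List.prod_cons, map_mul, map_mul,
        (D.isPsi_psi c).1, mul_assoc, eprod]
    rw [h1]
    rcases L with _ | ⟨q, L⟩
    · have h2 := junc_last (fx_ne_fy c p.2.1) p.2.1 p.1 (p := (p.2.2 : D.Ah)) p.2.2.2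
      simpa [eprod] using h2
    · have h3 := ih (List.isChain_cons.1 hL).2 q (by simp)
      have h4 := (List.isChain_cons_cons.1 hL).1
      by_cases hs : p.2.1 = q.2.1
      · rw [← hs] at h3
        exact junc_same (fx_ne_fy c p.2.1) p.2.1 p.1 q.1 p.2.2.2 h3
      · have hs' : q.2.1 = -p.2.1 := by
          rcases Int.units_eq_one_or p.2.1 with h | h <;>
            rcases Int.units_eq_one_or q.2.1 with h' | h' <;> rw [h, h'] at hs ⊢
          · exact absurd rfl hs
          · rw [neg_neg]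
          · exact absurd rfl hs
        rw [hs', (fx_neg c p.2.1).1, (fx_neg c p.2.1).2] at h3
        refine junc_opp (fx_ne_fy c p.2.1) p.2.1 p.1 q.1 p.2.2.2 h3 ?_
        rintro hz ⟨b, hb, hx, hy⟩
        refine h4 hz (by rw [hs', neg_neg]) ⟨b, hb, ?_⟩
        have hxy := fx_ne_fy c p.2.1
        generalize fx c p.2.1 = x at hx hxy
        generalize fy c p.2.1 = y at hy hxy
        cases x <;> cases y
        · exact absurd rfl hxy
        · exact ⟨hx, hy⟩
        · exact ⟨hy, hx⟩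
        · exact absurd rfl hxy

end JDat

/-- Module JF. -/
theorem stJF : StJF := by
  intro G _ B _ D c
  refine ⟨D.psi c, D.isPsi_psi c, ?_⟩
  rw [injective_iff_map_eq_one]
  intro e he
  obtain ⟨a, L, hL, rfl⟩ := D.hasRed e
  rcases L with _ | ⟨p, L⟩
  · simp only [JDat.eprod, List.map_nil, List.prod_nil, mul_one, (D.isPsi_psi c).1] at he ⊢
    have h2 : a = 1 := Subtype.ext he
    rw [h2, map_one]
  · exfalso
    have h1 := D.form_eprod c _ hL p (by simp)
    apply JDat.form_not_base (JDat.fx_ne_fy c p.2.1) a.2 h1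
    rw [map_mul, (D.isPsi_psi c).1] at he
    rw [he]
    exact one_mem _

end Pool.Agent.Lib.MP_e6f638_al
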