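import Pool.Agent.Lib.MP_e6f638_al.J.Stmts
import Pool.Agent.Lib.MP_db6a6f_al.Par

/-!
# Homomorphisms of Artin groups; the generators are distinct

Module JH.
-/

set_option autoImplicit false

namespace Pool.Agent.Lib.MP_e6f638_al

open Multiplicative Pool.Agent.Results.MP_e6f638_al.EvenArtin

namespace JH14

theorem inv_of_sq {G : Type} [Group G] {a : G} (h : a * a = 1) : a⁻¹ = a :=
  inv_eq_of_mul_eq_one_left h

theorem alt_of_involutions {G : Type} [Group G] {a b : G} (ha : a * a = 1) (hb : b * b = 1)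
    {n : ℕ} (h : (a * b) ^ n = 1) : alt a b n = alt b a n := by
  have hinv : ∀ k : ℕ, ((a * b) ^ k)⁻¹ = (b * a) ^ k := by
    intro k
    rw [← inv_pow, mul_inv_rev, inv_of_sq ha, inv_of_sq hb]
  obtain ⟨k, hk | hk⟩ := Nat.even_or_odd' n
  · subst hk
    rw [alt_two_mul, alt_two_mul, ← hinv k]
    rw [two_mul, pow_add] at h
    exact eq_inv_of_mul_eq_one_left h
  · subst hk
    change a * alt b a (2 * k) = b * alt a b (2 * k)
    rw [alt_two_mul, alt_two_mul, ← hinv k]
    have h1 : (a * b) ^ (k + 1) * (a * b) ^ k = 1 := by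
      rw [← pow_add, ← h]
      congr 1
      ring
    rw [← eq_inv_of_mul_eq_one_left h1, pow_succ', ← mul_assoc, ← mul_assoc, ha, one_mul]

theorem simple_injective {m : ℕ} (M : CoxeterMatrix (Fin m)) :
    Function.Injective M.simple := by
  intro i j h
  by_contra hij
  have h1 : MP_db6a6f_al.ParAux.rf M i = MP_db6a6f_al.ParAux.rf M j := by
    rw [← MP_db6a6f_al.ParAux.rho_simple, ← MP_db6a6f_al.ParAux.rho_simple, h]
  have h2 : MP_db6a6f_al.ParAux.rf M i (Pi.single i 1) i =
      MP_db6a6f_al.ParAux.rf M j (Pi.single i 1) i := by rw [h1]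
  rw [MP_db6a6f_al.ParAux.rf_apply, MP_db6a6f_al.ParAux.rf_apply,
    MP_db6a6f_al.ParAux.fm_self] at h2
  simp only [Pi.sub_apply, Pi.smul_apply, Pi.single_eq_same, smul_eq_mul, mul_one,
    Pi.single_eq_of_ne hij, mul_zero, sub_zero] at h2
  norm_num at h2

end JH14

theorem stJH : StJH := by
  refine ⟨?_, ?_, ?_⟩
  · intro S M K _ f hf
    refine ⟨PresentedGroup.toGroup (f := f) ?_, fun s => PresentedGroup.toGroup.of _⟩
    rintro r ⟨s, t, rfl⟩
    rw [map_mul, map_inv, mul_inv_eq_one, map_alt, map_alt, FreeGroup.lift_apply_of,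
      FreeGroup.lift_apply_of]
    exact hf s t
  · intro S M s t
    have h3 : (PresentedGroup.mk (artinRels M)) (alt (FreeGroup.of s) (FreeGroup.of t) (M s t) *
        (alt (FreeGroup.of t) (FreeGroup.of s) (M s t))⁻¹) = 1 :=
      PresentedGroup.one_of_mem ⟨s, t, rfl⟩
    rw [map_mul, map_inv, mul_inv_eq_one, map_alt, map_alt] at h3
    exact h3
  · intro S _ M
    obtain ⟨n, ⟨e⟩⟩ := Finite.exists_equiv_fin S
    let M' : CoxeterMatrix (Fin n) := M.reindex e
    have hM' : ∀ s t : S, M' (e s) (e t) = M s t := by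
      intro s t
      show M (e.symm (e s)) (e.symm (e t)) = M s t
      rw [e.symm_apply_apply, e.symm_apply_apply]
    let g : S → M'.Group := fun s => M'.simple (e s)
    have hrel : ∀ s t : S, alt (g s) (g t) (M s t) = alt (g t) (g s) (M s t) := by
      intro s t
      have h1 := M'.toCoxeterSystem.simple_mul_simple_self (e s)
      have h2 := M'.toCoxeterSystem.simple_mul_simple_self (e t)
      have h3 := M'.toCoxeterSystem.simple_mul_simple_pow (e s) (e t)
      rw [CoxeterMatrix.toCoxeterSystem_simple] at h1 h2 h3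
      rw [hM'] at h3
      exact JH14.alt_of_involutions h1 h2 h3
    let F : ArtinGroup M →* M'.Group := PresentedGroup.toGroup (f := g) (by
      rintro r ⟨s, t, rfl⟩
      rw [map_mul, map_inv, mul_inv_eq_one, map_alt, map_alt, FreeGroup.lift_apply_of,
        FreeGroup.lift_apply_of]
      exact hrel s t)
    have hF : ∀ s, F (ag M s) = M'.simple (e s) := fun s => PresentedGroup.toGroup.of _
    intro s t h
    have h1 : M'.simple (e s) = M'.simple (e t) := by rw [← hF, ← hF, h]
    exact e.injective (JH14.simple_injective M' h1)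

end Pool.Agent.Lib.MP_e6f638_al
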