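import Pool.Agent.Lib.MP_e6f638_al.J.Stmts

/-!
# The Artin group of a union is a join

Module JJ.
-/

set_option autoImplicit false

namespace Pool.Agent.Lib.MP_e6f638_al

open Multiplicative Pool.Agent.Results.MP_e6f638_al.EvenArtin

namespace J42

theorem alt_even {K : Type} [Group K] (a b : K) {m : ℕ} (hm : Even m) :
    alt a b m = (a * b) ^ (m / 2) := by
  obtain ⟨k, rfl⟩ := hm
  rw [← two_mul, alt_two_mul]
  congr 1
  omega

theorem alt_good {K : Type} [Group K] {a b : K} {m : ℕ} (h : a = b ∨ (Even m ∧ Commute a b)) :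
    alt a b m = alt b a m := by
  rcases h with rfl | ⟨hm, hc⟩
  · rfl
  · rw [alt_even a b hm, alt_even b a hm, hc.eq]

theorem hom_ext {S : Type} {M : CoxeterMatrix S} {K : Type} [Group K] {f g : ArtinGroup M →* K}
    (h : ∀ s, f (ag M s) = g (ag M s)) : f = g :=
  PresentedGroup.ext h

variable {S : Type} (M : CoxeterMatrix S)

/-- The map of Artin groups given by an inclusion of sets of generators. -/
theorem exists_inc (hJ : StJH) {X Y : Set S} (h : X ⊆ Y) :
    ∃ F : ArtinGroup (res M X) →* ArtinGroup (res M Y),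
      ∀ s : X, F (ag _ s) = ag _ ⟨s, h s.2⟩ :=
  hJ.1 X (res M X) _ (fun s => ag (res M Y) ⟨s, h s.2⟩) fun s t =>
    hJ.2.1 Y (res M Y) ⟨s, h s.2⟩ ⟨t, h t.2⟩

/-- The map to the whole Artin group. -/
theorem exists_emb (hJ : StJH) (X : Set S) :
    ∃ F : ArtinGroup (res M X) →* ArtinGroup M, ∀ s : X, F (ag _ s) = ag M s :=
  hJ.1 X (res M X) _ (fun s => ag M s) fun s t => hJ.2.1 S M s t

open Classical in
/-- Retraction to `Y` when the labels between `Y` and its complement in `X` are even. -/
theorem exists_ret (hJ : StJH) (X Y : Set S) (h : ∀ s ∈ X, s ∈ Y → ∀ t ∈ X, t ∉ Y → Even (M s t)) :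
    ∃ F : ArtinGroup (res M X) →* ArtinGroup (res M Y),
      (∀ s : X, (hs : (s : S) ∈ Y) → F (ag _ s) = ag _ ⟨s, hs⟩) ∧
      ∀ s : X, (s : S) ∉ Y → F (ag _ s) = 1 := by
  obtain ⟨F, hF⟩ := hJ.1 X (res M X) (ArtinGroup (res M Y))
    (fun s => if hs : (s : S) ∈ Y then ag (res M Y) ⟨s, hs⟩ else 1) (by
      intro s t
      by_cases hs : (s : S) ∈ Y
      · by_cases ht : (t : S) ∈ Y
        · simp only [dif_pos hs, dif_pos ht]
          exact hJ.2.1 Y (res M Y) ⟨s, hs⟩ ⟨t, ht⟩
        · simp only [dif_pos hs, dif_neg ht]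
          exact alt_good (Or.inr ⟨h s s.2 hs t t.2 ht, Commute.one_right _⟩)
      · by_cases ht : (t : S) ∈ Y
        · simp only [dif_neg hs, dif_pos ht]
          refine alt_good (Or.inr ⟨?_, Commute.one_left _⟩)
          have := h t t.2 ht s s.2 hs
          rw [M.symmetric] at this
          exact this
        · simp only [dif_neg hs, dif_neg ht])
  refine ⟨F, fun s hs => ?_, fun s hs => ?_⟩
  · rw [hF, dif_pos hs]
  · rw [hF, dif_neg hs]

open Classical in
/-- The height. -/
theorem exists_ht (hJ : StJH) (X Y : Set S) (h : ∀ s ∈ X, s ∈ Y → ∀ t ∈ X, t ∉ Y → Even (M s t)) :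
    ∃ F : ArtinGroup (res M X) →* Multiplicative ℤ,
      (∀ s : X, (s : S) ∈ Y → F (ag _ s) = ofAdd 1) ∧
      ∀ s : X, (s : S) ∉ Y → F (ag _ s) = 1 := by
  obtain ⟨F, hF⟩ := hJ.1 X (res M X) (Multiplicative ℤ)
    (fun s => if (s : S) ∈ Y then ofAdd 1 else 1) (by
      intro s t
      by_cases hs : (s : S) ∈ Y
      · by_cases ht : (t : S) ∈ Y
        · simp only [if_pos hs, if_pos ht]
        · exact alt_good (Or.inr ⟨h s s.2 hs t t.2 ht, Commute.all _ _⟩)
      · by_cases ht : (t : S) ∈ Y
        · refine alt_good (Or.inr ⟨?_, Commute.all _ _⟩)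
          have := h t t.2 ht s s.2 hs
          rw [M.symmetric] at this
          exact this
        · simp only [if_neg hs, if_neg ht])
  refine ⟨F, fun s hs => ?_, fun s hs => ?_⟩
  · rw [hF, if_pos hs]
  · rw [hF, if_neg hs]

/-- The pairs of generators with a finite label. -/
abbrev ZZ (O : Bool → Set S) : Type :=
  {p : S × S // p.1 ∈ O false ∧ p.2 ∈ O true ∧ M p.1 p.2 ≠ 0}

/-- The first or second generator of the pair. -/
def sel {M : CoxeterMatrix S} {O : Bool → Set S} : Bool → ZZ M O → S
  | false, z => z.1.1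
  | true, z => z.1.2

theorem sel_mem {M : CoxeterMatrix S} {O : Bool → Set S} (c : Bool) (z : ZZ M O) :
    sel c z ∈ O c := by
  cases c
  · exact z.2.1
  · exact z.2.2.1

theorem sel_ext {M : CoxeterMatrix S} {O : Bool → Set S} {z z' : ZZ M O}
    (h : ∀ c, sel c z = sel c z') : z = z' :=
  Subtype.ext (Prod.ext (h false) (h true))

theorem mem_compl {O : Bool → Set S} (hd : Disjoint (O false) (O true)) {c : Bool} {s : S}
    (hs : s ∈ O c) : s ∈ (O (!c))ᶜ := by
  intro h
  cases c
  · exact Set.disjoint_left.1 hd hs h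
  · exact Set.disjoint_left.1 hd h hs

theorem C_sub {O : Bool → Set S} (c : Bool) : (O false ∪ O true)ᶜ ⊆ (O (!c))ᶜ := by
  intro s hs h
  cases c
  · exact hs (Or.inr h)
  · exact hs (Or.inl h)

theorem C_not {O : Bool → Set S} (c : Bool) {s : S} (hs : s ∈ (O false ∪ O true)ᶜ) :
    s ∉ O c := by
  intro h
  cases c
  · exact hs (Or.inl h)
  · exact hs (Or.inr h)

theorem not_C {O : Bool → Set S} {c : Bool} {s : S} (hs : s ∈ (O (!c))ᶜ)
    (h : s ∉ (O false ∪ O true)ᶜ) : s ∈ O c := by
  rw [Set.notMem_compl_iff] at h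
  cases c
  · exact h.resolve_right hs
  · exact h.resolve_left hs

end J42

open J42 in
/-- Module JJ. -/
theorem stJJ (hJ : StJH) : StJJ := by
  classical
  intro S _ M O hne hd hev h24
  have hevC : ∀ c, ∀ s ∈ (O (!c))ᶜ, s ∈ (O false ∪ O true)ᶜ → ∀ t ∈ (O (!c))ᶜ,
      t ∉ (O false ∪ O true)ᶜ → Even (M s t) := by
    intro c s _ hsC t ht htC
    rw [M.symmetric]
    exact hev c t (not_C ht htC) s (C_not c hsC)
  have hevO : ∀ c, ∀ s ∈ (O (!c))ᶜ, s ∈ O c → ∀ t ∈ (O (!c))ᶜ, t ∉ O c → Even (M s t) :=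
    fun c s _ hs t _ ht => hev c s hs t ht
  choose inc hinc using fun c : Bool => exists_inc M hJ (C_sub (O := O) c)
  choose r1 hr1 _hr1' using fun c : Bool =>
    exists_ret M hJ (O (!c))ᶜ (O false ∪ O true)ᶜ (hevC c)
  choose r2 hr2 hr2' using fun c : Bool => exists_ret M hJ (O (!c))ᶜ (O c) (hevO c)
  choose ht hht hht' using fun c : Bool => exists_ht M hJ (O (!c))ᶜ (O c) (hevO c)
  choose e he using fun c : Bool => exists_emb M hJ (O (!c))ᶜ
  have hinj : ∀ c, Function.Injective (inc c) := by
    intro c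
    have h1 : (r1 c).comp (inc c) = MonoidHom.id _ := hom_ext fun s => by
      rw [MonoidHom.comp_apply, hinc, hr1 c _ s.2]
      rfl
    exact Function.LeftInverse.injective (g := r1 c) fun x => DFunLike.congr_fun h1 x
  have hr1v : ∀ c (s : ((O (!c))ᶜ : Set S)), (s : S) ∈ O c → r1 c (ag _ s) = 1 := fun c s hs =>
    _hr1' c s fun h => C_not c h hs
  have hr1B : ∀ c b, r1 c (inc c b) = b := by
    intro c b
    have h1 : (r1 c).comp (inc c) = MonoidHom.id _ := hom_ext fun s => by
      rw [MonoidHom.comp_apply, hinc, hr1 c _ s.2]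
      rfl
    exact DFunLike.congr_fun h1 b
  have hr2B : ∀ c b, r2 c (inc c b) = 1 := by
    intro c b
    have h1 : (r2 c).comp (inc c) = 1 := hom_ext fun s => by
      rw [MonoidHom.comp_apply, hinc, hr2' c _ (C_not c s.2)]
      rfl
    exact DFunLike.congr_fun h1 b
  have hhtB : ∀ c b, ht c (inc c b) = 1 := by
    intro c b
    have h1 : (ht c).comp (inc c) = 1 := hom_ext fun s => by
      rw [MonoidHom.comp_apply, hinc, hht' c _ (C_not c s.2)]
      rfl
    exact DFunLike.congr_fun h1 b
  let v : ∀ c, ZZ M O → ArtinGroup (res M (O (!c))ᶜ) := fun c z =>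
    ag _ ⟨sel c z, mem_compl hd (sel_mem c z)⟩
  have hvinj : ∀ c z z', v c z = v c z' → sel c z = sel c z' := by
    intro c z z' h
    exact congrArg Subtype.val (hJ.2.2 _ (res M (O (!c))ᶜ) h)
  have hEven : ∀ z : ZZ M O, Even (M z.1.1 z.1.2) := fun z =>
    hev false _ z.2.1 _ fun h => Set.disjoint_left.1 hd h z.2.2.1
  let D : JDat (fun c => ArtinGroup (res M (O (!c))ᶜ)) (ArtinGroup (res M (O false ∪ O true)ᶜ)) :=
    { φ := inc
      inj := hinj
      Z := ZZ M O
      v := v
      n := fun z => M z.1.1 z.1.2 / 2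
      h := ht
      v₀ := fun c => ag _ ⟨(hne c).choose, mem_compl hd (hne c).choose_spec⟩
      three_le := fun z => by
        have h1 := h24 _ z.2.1 _ z.2.2.1
        have h2 := z.2.2.2
        obtain ⟨k, hk⟩ := hEven z
        omega
      h_v := fun c z => hht c _ (sel_mem c z)
      h_v₀ := fun c => hht c _ (hne c).choose_spec
      h_B := hhtB
      comm := fun c z z' b b' h => by
        have h1 := congrArg (r1 c) h
        have h2 := congrArg (r2 c) h
        rw [map_mul, map_mul, hr1B, hr1B, hr1v c _ (sel_mem c z), hr1v c _ (sel_mem c z'),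
          one_mul, mul_one] at h1
        rw [map_mul, map_mul, hr2B, hr2B, hr2 c _ (sel_mem c z), hr2 c _ (sel_mem c z'),
          one_mul, mul_one] at h2
        have h3 : sel c z = sel c z' := congrArg Subtype.val (hJ.2.2 _ (res M (O c)) h2)
        refine ⟨?_, h1⟩
        show ag _ _ = ag _ _
        congr 1
        exact Subtype.ext h3
      pair := fun z z' h h' => sel_ext fun c => by
        cases c
        · exact hvinj false z z' h
        · exact hvinj true z z' h' }
  refine ⟨D, e, ?_, ?_, ?_, ?_⟩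
  · refine hom_ext fun s => ?_
    show e false (inc false (ag _ s)) = e true (inc true (ag _ s))
    rw [hinc, hinc, he, he]
  · intro z
    show (e false (v false z) * e true (v true z)) ^ (M z.1.1 z.1.2 / 2) =
      (e true (v true z) * e false (v false z)) ^ (M z.1.1 z.1.2 / 2)
    have h1 : e false (v false z) = ag M z.1.1 := he false _
    have h2 : e true (v true z) = ag M z.1.2 := he true _
    rw [h1, h2, ← alt_even _ _ (hEven z), ← alt_even _ _ (hEven z)]
    exact hJ.2.1 S M _ _
  · intro K _ f hbase hrel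
    have hbase' : ∀ s : ((O false ∪ O true)ᶜ : Set S),
        f false (ag _ ⟨s, C_sub false s.2⟩) = f true (ag _ ⟨s, C_sub true s.2⟩) := by
      intro s
      have h1 : f false (inc false (ag _ s)) = f true (inc true (ag _ s)) :=
        DFunLike.congr_fun hbase (ag _ s)
      rw [hinc, hinc] at h1
      exact h1
    let g : S → K := fun s => if h : s ∈ (O true)ᶜ then f false (ag _ ⟨s, h⟩)
      else f true (ag _ ⟨s, mem_compl hd (c := true) (Set.notMem_compl_iff.1 h)⟩)
    have hg : ∀ c (s : S) (h : s ∈ (O (!c))ᶜ), g s = f c (ag _ ⟨s, h⟩) := by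
      intro c s h
      cases c
      · exact dif_pos h
      · by_cases h' : s ∈ (O true)ᶜ
        · have h3 : g s = f false (ag _ ⟨s, h'⟩) := dif_pos h'
          rw [h3]
          exact hbase' ⟨s, fun hs => hs.elim h h'⟩
        · exact dif_neg h'
    have hsame : ∀ c (s t : S), s ∈ (O (!c))ᶜ → t ∈ (O (!c))ᶜ →
        alt (g s) (g t) (M s t) = alt (g t) (g s) (M s t) := by
      intro c s t hs ht
      rw [hg c s hs, hg c t ht, ← map_alt, ← map_alt]
      exact congrArg (f c) (hJ.2.1 _ (res M (O (!c))ᶜ) ⟨s, hs⟩ ⟨t, ht⟩)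
    have hdiff : ∀ s t : S, s ∈ O false → t ∈ O true →
        alt (g s) (g t) (M s t) = alt (g t) (g s) (M s t) := by
      intro s t hs ht
      by_cases h0 : M s t = 0
      · rw [h0]; rfl
      · let z : ZZ M O := ⟨(s, t), hs, ht, h0⟩
        have h1 : (f false (v false z) * f true (v true z)) ^ (M s t / 2) =
          (f true (v true z) * f false (v false z)) ^ (M s t / 2) := hrel z
        rw [hg false s (mem_compl hd (c := false) hs), hg true t (mem_compl hd (c := true) ht),
          alt_even _ _ (hEven z), alt_even _ _ (hEven z)]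
        exact h1
    obtain ⟨F, hF⟩ := hJ.1 S M K g (by
      intro s t
      by_cases hs : s ∈ O true
      · by_cases ht : t ∈ O false
        · have h1 := hdiff t s ht hs
          rw [M.symmetric s t]
          exact h1.symm
        · exact hsame true s t (mem_compl hd (c := true) hs) ht
      · by_cases ht : t ∈ O true
        · by_cases hs' : s ∈ O false
          · exact hdiff s t hs' ht
          · exact hsame true s t hs' (mem_compl hd (c := true) ht)
        · exact hsame false s t hs ht)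
    refine ⟨F, fun c => hom_ext fun s => ?_⟩
    rw [MonoidHom.comp_apply, he, hF]
    exact hg c s s.2
  · rw [eq_top_iff, ← PresentedGroup.closure_range_of, Subgroup.closure_le]
    rintro _ ⟨s, rfl⟩
    by_cases hs : s ∈ (O true)ᶜ
    · exact Subgroup.subset_closure (Or.inl ⟨ag _ ⟨s, hs⟩, he false _⟩)
    · exact Subgroup.subset_closure (Or.inr ⟨ag _ ⟨s, mem_compl hd (c := true)
        (Set.notMem_compl_iff.1 hs)⟩, he true _⟩)

end Pool.Agent.Lib.MP_e6f638_al
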