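import Pool.Agent.Lib.MP_e6f638_al.J.Stmts

/-!
# Reduction to tight cliques, and the unconditional part
-/

set_option autoImplicit false

namespace Pool.Agent.Lib.MP_e6f638_al

open Multiplicative Pool.Agent.Results.MP_e6f638_al.EvenArtin

/-- Module VL. Standard subgroups (van der Lek). -/
def StVL : Prop :=
  ∀ (S : Type) [Finite S] (M : CoxeterMatrix S) (X : Set S)
    (F : ArtinGroup (res M X) →* ArtinGroup M), (∀ s : X, F (ag (res M X) s) = ag M s) →
    Function.Injective F

/-- All labels in `X` are finite. -/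
def Clique {S : Type} (M : CoxeterMatrix S) (X : Set S) : Prop := ∀ s ∈ X, ∀ t ∈ X, M s t ≠ 0

/-- Module JR2. Reduction to tight cliques. -/
def StJR2 : Prop :=
  ∀ (Pr : (G : Type) → [Group G] → Prop), Cls Pr → ∀ (S : Type) [Finite S] (M : CoxeterMatrix S),
    (∀ X : Set S, Clique M X → Tight M X → Pr (ArtinGroup (res M X))) → Pr (ArtinGroup M)

/-- Module JP. Direct products. -/
def StJP : Prop :=
  (∀ (G K : Type) [Group G] [Group K], STA G → STA K → STA (G × K)) ∧
  ∀ (S : Type) (M : CoxeterMatrix S) (O : Set S), (∀ s ∈ O, ∀ t ∉ O, M s t = 2) →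
    ∃ F : ArtinGroup M →* ArtinGroup (res M O) × ArtinGroup (res M Oᶜ), Function.Injective F

/-- Module JD. Artin groups with one or two generators. -/
def StJD : Prop :=
  (∀ (S : Type) (M : CoxeterMatrix S), Subsingleton S → STA (ArtinGroup M)) ∧
  ∀ (S : Type) (M : CoxeterMatrix S) (a b : S), a ≠ b → (∀ s, s = a ∨ s = b) → Odd (M a b) →
    STA (ArtinGroup M)

/-- Module JU. The unconditional part. -/
def StJU : Prop :=
  ∀ (S : Type) [Finite S] (M : CoxeterMatrix S), (∀ s t, M s t ≠ 4) →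
    (∀ a b t : S, a ≠ b → a ≠ t → b ≠ t → Odd (M a b) → M a t ≠ 0 → M b t ≠ 0 →
      Even (M a t) ∧ Even (M b t) ∧ (M a t = 2 ↔ M b t = 2)) → STA (ArtinGroup M)

end Pool.Agent.Lib.MP_e6f638_al
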