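import Pool.Agent.Lib.MP_e6f638_al.J.JC1
import Pool.Agent.Lib.MP_e6f638_al.J.JJ_42
import Pool.Agent.Lib.MP_e6f638_al.J.Stmts2

/-!
# Modules JP and JD: direct products, Artin groups with one or two generators
-/

set_option autoImplicit false

namespace Pool.Agent.Lib.MP_e6f638_al

open Multiplicative Monoid Pool.Agent.Results.MP_e6f638_al.EvenArtin J42

theorem sta_prod (G K : Type) [Group G] [Group K] (hG : STA G) (hK : STA K) : STA (G × K) := by
  obtain ⟨d, hd⟩ := hG
  obtain ⟨e, he⟩ := hK
  refine ⟨_, TA.ext (MonoidHom.fst G K) (d := e) (e := d) ?_ hd⟩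
  refine TA.of_inj ((MonoidHom.snd G K).comp (MonoidHom.fst G K).ker.subtype) ?_ he
  rintro ⟨⟨a, b⟩, hx⟩ ⟨⟨a', b'⟩, hy⟩ hxy
  have h1 : a = 1 := hx
  have h2 : a' = 1 := hy
  have h3 : b = b' := hxy
  subst h1 h2 h3
  rfl

theorem ag_closure {S : Type} (M : CoxeterMatrix S) :
    Subgroup.closure (Set.range (ag M)) = ⊤ :=
  PresentedGroup.closure_range_of _

theorem commute_of_ag {T T' : Type} {N : CoxeterMatrix T} {N' : CoxeterMatrix T'} {K : Type}
    [Group K] (e : ArtinGroup N →* K) (e' : ArtinGroup N' →* K)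
    (h : ∀ s t, Commute (e (ag N s)) (e' (ag N' t))) (x : ArtinGroup N) (y : ArtinGroup N') :
    Commute (e x) (e' y) := by
  have h1 : ∀ t x, Commute (e x) (e' (ag N' t)) := by
    intro t x
    have hx : x ∈ (Subgroup.centralizer {e' (ag N' t)}).comap e := by
      have : (⊤ : Subgroup (ArtinGroup N)) ≤ (Subgroup.centralizer {e' (ag N' t)}).comap e := by
        rw [← ag_closure N, Subgroup.closure_le]
        rintro _ ⟨s, rfl⟩
        refine Subgroup.mem_centralizer_iff.2 ?_
        rintro _ rfl
        exact (h s t).eq.symm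
      exact this trivial
    exact (Subgroup.mem_centralizer_iff.1 hx _ rfl).symm
  have hy : y ∈ (Subgroup.centralizer {e x}).comap e' := by
    have : (⊤ : Subgroup (ArtinGroup N')) ≤ (Subgroup.centralizer {e x}).comap e' := by
      rw [← ag_closure N', Subgroup.closure_le]
      rintro _ ⟨t, rfl⟩
      refine Subgroup.mem_centralizer_iff.2 ?_
      rintro _ rfl
      exact (h1 t x).eq
    exact this trivial
  exact Subgroup.mem_centralizer_iff.1 hy _ rfl

/-- Module JP. -/
theorem stJP (hJ : StJH) : StJP := by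
  classical
  refine ⟨sta_prod, ?_⟩
  intro S M O hO
  obtain ⟨F, hF⟩ := hJ.1 S M (ArtinGroup (res M O) × ArtinGroup (res M Oᶜ))
    (fun s => if h : s ∈ O then (ag (res M O) ⟨s, h⟩, 1) else (1, ag (res M Oᶜ) ⟨s, h⟩)) (by
      intro s t
      by_cases hs : s ∈ O
      · by_cases ht : t ∈ O
        · simp only [dif_pos hs, dif_pos ht]
          have h1 := congrArg (MonoidHom.inl (ArtinGroup (res M O)) (ArtinGroup (res M Oᶜ)))
            (hJ.2.1 O (res M O) ⟨s, hs⟩ ⟨t, ht⟩)
          rw [map_alt, map_alt] at h1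
          exact h1
        · simp only [dif_pos hs, dif_neg ht]
          refine alt_good (Or.inr ⟨?_, ?_⟩)
          · rw [hO s hs t ht]; exact even_two
          · exact MonoidHom.commute_inl_inr _ _
      · by_cases ht : t ∈ O
        · simp only [dif_neg hs, dif_pos ht]
          refine alt_good (Or.inr ⟨?_, ?_⟩)
          · rw [M.symmetric, hO t ht s hs]; exact even_two
          · exact (MonoidHom.commute_inl_inr _ _).symm
        · simp only [dif_neg hs, dif_neg ht]
          have h1 := congrArg (MonoidHom.inr (ArtinGroup (res M O)) (ArtinGroup (res M Oᶜ)))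
            (hJ.2.1 (Oᶜ : Set S) (res M Oᶜ) ⟨s, hs⟩ ⟨t, ht⟩)
          rw [map_alt, map_alt] at h1
          exact h1)
  obtain ⟨e₁, he₁⟩ := exists_emb M hJ O
  obtain ⟨e₂, he₂⟩ := exists_emb M hJ Oᶜ
  have hc : ∀ x y, Commute (e₁ x) (e₂ y) := by
    refine commute_of_ag e₁ e₂ ?_
    intro s t
    rw [he₁, he₂]
    have h1 := hJ.2.1 S M s t
    rw [hO s s.2 t t.2] at h1
    rw [commute_iff_eq]
    simpa [alt] using h1
  refine ⟨F, Function.LeftInverse.injective (g := MonoidHom.noncommCoprod e₁ e₂ hc) fun x => ?_⟩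
  have h1 : (MonoidHom.noncommCoprod e₁ e₂ hc).comp F = MonoidHom.id _ := hom_ext fun s => by
    rw [MonoidHom.comp_apply, hF]
    by_cases hs : s ∈ O
    · rw [dif_pos hs, MonoidHom.noncommCoprod_apply, map_one, mul_one, he₁]
      rfl
    · rw [dif_neg hs, MonoidHom.noncommCoprod_apply, map_one, one_mul, he₂]
      rfl
  exact DFunLike.congr_fun h1 x

theorem sta_comm (G : Type) [CommGroup G] : STA G := by
  refine ⟨1, stA.2.2.1 G G (MonoidHom.id G) 0 (stA.2.2.2.2 _ ?_)⟩
  refine ⟨fun x y => Subtype.ext ?_⟩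
  have hx : (x : G) = 1 := x.2
  have hy : (y : G) = 1 := y.2
  rw [hx, hy]

theorem alt_odd {K : Type} [Group K] (a b : K) (n : ℕ) : alt a b (2 * n + 1) = (a * b) ^ n * a := by
  change a * alt b a (2 * n) = _
  rw [alt_two_mul]
  induction n with
  | zero => simp
  | succ n ih =>
    rw [pow_succ', pow_succ', mul_assoc b, ← mul_assoc a, ih]
    simp only [mul_assoc]

/-- The maps of the amalgam. -/
noncomputable def dphi (k : ℕ) (c : Bool) : Multiplicative ℤ →* Multiplicative ℤ :=
  powMonoidHom (bif c then 2 * k + 1 else 2)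

theorem dphi_inj (k : ℕ) (c : Bool) : Function.Injective (dphi k c) := by
  intro x y hxy
  have h1 : (bif c then 2 * k + 1 else 2) ≠ 0 := by cases c <;> simp
  have h2 : x ^ (bif c then 2 * k + 1 else 2) = y ^ (bif c then 2 * k + 1 else 2) := hxy
  have h3 := congrArg toAdd h2
  rw [toAdd_pow, toAdd_pow] at h3
  apply toAdd.injective
  exact nsmul_right_injective h1 h3

/-- Module JD. -/
theorem stJD (hJ : StJH) : StJD := by
  constructor
  · intro S M hS
    rcases isEmpty_or_nonempty S with h | ⟨⟨s⟩⟩
    · have : Subsingleton (ArtinGroup M) := by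
        have h1 := ag_closure M
        rw [Set.range_eq_empty, Subgroup.closure_empty] at h1
        exact (Subgroup.subsingleton_iff (G := ArtinGroup M)).1
          (subsingleton_of_bot_eq_top h1)
      exact ⟨0, stA.2.2.2.2 _ this⟩
    · obtain ⟨F, hF⟩ := hJ.1 S M (Multiplicative ℤ) (fun _ => ofAdd 1) fun _ _ => rfl
      refine stJC1.inj _ _ F ?_ (sta_comm _)
      refine Function.LeftInverse.injective (g := zpowersHom _ (ag M s)) fun x => ?_
      have h1 : (zpowersHom _ (ag M s)).comp F = MonoidHom.id _ := hom_ext fun t => by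
        rw [MonoidHom.comp_apply, hF, Subsingleton.elim t s]
        simp
      exact DFunLike.congr_fun h1 x
  · intro S M a b hab hS ⟨k, hk⟩
    let x : PushoutI (dphi k) := PushoutI.of false (ofAdd 1)
    let y : PushoutI (dphi k) := PushoutI.of true (ofAdd 1)
    have hxy : x ^ 2 = y ^ (2 * k + 1) := by
      have h1 := PushoutI.of_apply_eq_base (dphi k) false (ofAdd 1)
      have h2 := PushoutI.of_apply_eq_base (dphi k) true (ofAdd 1)
      have h3 : dphi k false (ofAdd 1) = ofAdd 1 ^ 2 := rfl
      have h4 : dphi k true (ofAdd 1) = ofAdd 1 ^ (2 * k + 1) := rfl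
      rw [h3, map_pow] at h1
      rw [h4, map_pow] at h2
      exact h1.trans h2.symm
    classical
    let fa : PushoutI (dphi k) := (y ^ k)⁻¹ * x
    let fb : PushoutI (dphi k) := x⁻¹ * y ^ (k + 1)
    have hfab : fa * fb = y := by
      change (y ^ k)⁻¹ * x * (x⁻¹ * y ^ (k + 1)) = y
      rw [pow_succ]
      group
    have h1 : alt fa fb (2 * k + 1) = x := by
      rw [alt_odd, hfab]
      change y ^ k * ((y ^ k)⁻¹ * x) = x
      rw [mul_inv_cancel_left]
    have h2 : alt fb fa (2 * k + 1) = x := by
      have h3 : ∀ (p q : PushoutI (dphi k)) (n : ℕ), (p * q) ^ n * p = p * (q * p) ^ n := by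
        intro p q n
        induction n with
        | zero => simp
        | succ n ih => rw [pow_succ', mul_assoc, ih, pow_succ']; simp only [mul_assoc]
      rw [alt_odd, h3, hfab]
      change x⁻¹ * y ^ (k + 1) * y ^ k = x
      rw [mul_assoc, ← pow_add, show k + 1 + k = 2 * k + 1 by ring, ← hxy, pow_two,
        inv_mul_cancel_left]
    obtain ⟨F, hF⟩ := hJ.1 S M (PushoutI (dphi k)) (fun s => if s = a then fa else fb) (by
      have key : alt fa fb (M a b) = alt fb fa (M a b) := by rw [hk, h1, h2]
      intro s t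
      rcases hS s with rfl | rfl <;> rcases hS t with rfl | rfl
      · rfl
      · rw [if_pos rfl, if_neg hab.symm]
        exact key
      · rw [if_pos rfl, if_neg hab.symm, M.symmetric]
        exact key.symm
      · rfl)
    have hFa : F (ag M a) = fa := by rw [hF, if_pos rfl]
    have hFb : F (ag M b) = fb := by rw [hF, if_neg hab.symm]
    have hd : alt (ag M a) (ag M b) (2 * k + 1) = alt (ag M b) (ag M a) (2 * k + 1) := by
      rw [← hk]
      exact hJ.2.1 S M a b
    set α := ag M a with hα
    set β := ag M b with hβ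
    have hd1 : alt α β (2 * k + 1) = (α * β) ^ k * α := alt_odd _ _ _
    have hd3 : ∀ (p q : ArtinGroup M) (n : ℕ), (p * q) ^ n * p = p * (q * p) ^ n := by
      intro p q n
      induction n with
      | zero => simp
      | succ n ih => rw [pow_succ', mul_assoc, ih, pow_succ']; simp only [mul_assoc]
    have hd2 : alt α β (2 * k + 1) = β * (α * β) ^ k := by
      rw [hd, alt_odd, hd3]
    have hdd : alt α β (2 * k + 1) * β = (α * β) ^ (k + 1) := by
      rw [hd1, pow_succ, mul_assoc]
    have hsq : alt α β (2 * k + 1) ^ 2 = (α * β) ^ (2 * k + 1) := by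
      rw [pow_two]
      nth_rw 2 [hd2]
      rw [← mul_assoc, hdd, ← pow_add]
      congr 1
      ring
    let g : ∀ c : Bool, Multiplicative ℤ →* ArtinGroup M := fun c =>
      zpowersHom _ (bif c then α * β else alt α β (2 * k + 1))
    let Gm : PushoutI (dphi k) →* ArtinGroup M :=
      PushoutI.lift g (zpowersHom _ ((α * β) ^ (2 * k + 1))) (by
        intro c
        refine MonoidHom.ext_mint ?_
        cases c
        · change (zpowersHom _ (alt α β (2 * k + 1))) (ofAdd 1 ^ 2) =
            (zpowersHom _ ((α * β) ^ (2 * k + 1))) (ofAdd 1)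
          rw [map_pow]
          simpa using hsq
        · change (zpowersHom _ (α * β)) (ofAdd 1 ^ (2 * k + 1)) =
            (zpowersHom _ ((α * β) ^ (2 * k + 1))) (ofAdd 1)
          rw [map_pow]
          simp)
    have hGx : Gm x = alt α β (2 * k + 1) := by
      have : Gm x = g false (ofAdd 1) := PushoutI.lift_of _ _ _ _
      rw [this]
      simp [g]
    have hGy : Gm y = α * β := by
      have : Gm y = g true (ofAdd 1) := PushoutI.lift_of _ _ _ _
      rw [this]
      simp [g]
    refine stJC1.inj _ _ F ?_ (stJC1.push _ _ (dphi k) (dphi_inj k) fun _ => sta_comm _)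
    refine Function.LeftInverse.injective (g := Gm) fun z => ?_
    have hGF : Gm.comp F = MonoidHom.id _ := hom_ext fun s => by
      rcases hS s with rfl | rfl
      · rw [MonoidHom.comp_apply, ← hα, hFa]
        change Gm ((y ^ k)⁻¹ * x) = α
        rw [map_mul, map_inv, map_pow, hGx, hGy, hd1, inv_mul_cancel_left]
      · rw [MonoidHom.comp_apply, ← hβ, hFb]
        change Gm (x⁻¹ * y ^ (k + 1)) = β
        rw [map_mul, map_inv, map_pow, hGx, hGy, ← hdd, inv_mul_cancel_left]
    exact DFunLike.congr_fun hGF z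

end Pool.Agent.Lib.MP_e6f638_al
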