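import Pool.Agent.Lib.MP_e6f638_al.J.JR2_42
import Pool.Agent.Lib.MP_e6f638_al.J.JP

/-!
# Irreducible tight cliques
-/

set_option autoImplicit false

namespace Pool.Agent.Lib.MP_e6f638_al

open Multiplicative Pool.Agent.Results.MP_e6f638_al.EvenArtin

/-- `X` is not the union of two nonempty sets with all labels between them equal to `2`. -/
def Irr {S : Type} (M : CoxeterMatrix S) (X : Set S) : Prop :=
  ∀ O ⊆ X, O.Nonempty → (X \ O).Nonempty → ∃ s ∈ O, ∃ t ∈ X \ O, M s t ≠ 2

open J42 in
/-- Reduction to irreducible tight cliques for classes with products. -/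
theorem stJI (hVL : StVL) (hJ : StJH) (hJE : StJE) (hJJ : StJJ) (hJP : StJP)
    (Pr : (G : Type) → [Group G] → Prop) (hP : Cls Pr)
    (hprod : ∀ (G K : Type) [Group G] [Group K], Pr G → Pr K → Pr (G × K))
    (S : Type) [Finite S] (M : CoxeterMatrix S)
    (hT : ∀ X : Set S, Clique M X → Tight M X → Irr M X → Pr (ArtinGroup (res M X))) :
    Pr (ArtinGroup M) := by
  classical
  refine stJR2 hVL hJ hJE hJJ Pr hP S M fun X => ?_
  induction X using WellFoundedLT.induction with
  | ind X ih =>
    intro hC hX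
    by_cases hI : Irr M X
    · exact hT X hC hX hI
    unfold Irr at hI
    push Not at hI
    obtain ⟨O, hOX, hO1, hO2, h2⟩ := hI
    -- both parts are tight cliques
    have hpart : ∀ Y : Set S, Y ⊆ X → (∀ s ∈ Y, ∀ t ∈ X \ Y, M s t = 2) → (X \ Y).Nonempty →
        Pr (ArtinGroup (res M Y)) := by
      intro Y hYX hY hY2
      refine ih Y ?_ (fun s hs t ht => hC s (hYX hs) t (hYX ht)) ?_
      · rw [Set.lt_iff_ssubset, Set.ssubset_iff_subset_ne]
        refine ⟨hYX, fun h => ?_⟩
        obtain ⟨y, hy⟩ := hY2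
        exact hy.2 (h ▸ hy.1)
      · have hstay : ∀ s ∈ Y, ∀ t, OddConn M X s t → t ∈ Y ∧ OddConn M Y s t := by
          intro s hs t h
          induction h with
          | refl => exact ⟨hs, Relation.ReflTransGen.refl⟩
          | @tail b c _ hbc ih2 =>
            obtain ⟨hb, hc, hodd⟩ := hbc
            have hcY : c ∈ Y := by
              by_contra hcY
              have h3 := hY b ih2.1 c ⟨hc, hcY⟩
              rw [h3] at hodd
              exact absurd hodd (by decide)
            exact ⟨hcY, Relation.ReflTransGen.tail ih2.2 ⟨ih2.1, hcY, hodd⟩⟩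
        intro s hs t ht hst
        have hst' : ¬ OddConn M X s t := fun h => hst (hstay s hs t h).2
        obtain ⟨s', hs', t', ht', h1, h3, h4⟩ := hX s (hYX hs) t (hYX ht) hst'
        exact ⟨s', (hstay s hs s' h1).1, t', (hstay t ht t' h3).1, (hstay s hs s' h1).2,
          (hstay t ht t' h3).2, h4⟩
    have hA := hpart O hOX (fun s hs t ht => h2 s hs t ht) hO2
    have hB := hpart (X \ O) Set.sdiff_subset (fun s hs t ht => by
      have ht' : t ∈ O := by
        by_contra h
        exact ht.2 ⟨ht.1, h⟩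
      rw [M.symmetric]
      exact h2 t ht' s hs) (by
        obtain ⟨x, hx⟩ := hO1
        exact ⟨x, hOX hx, fun h => h.2 hx⟩)
    let O' : Set X := {x | (x : S) ∈ O}
    obtain ⟨F, hF⟩ := hJP.2 X (res M X) O' (fun s hs t ht => h2 s hs t ⟨t.2, ht⟩)
    have e1 : (Subtype.val '' O' : Set S) = O := by
      ext x
      constructor
      · rintro ⟨y, hy, rfl⟩
        exact hy
      · intro hx
        exact ⟨⟨x, hOX hx⟩, hx, rfl⟩
    have e2 : (Subtype.val '' O'ᶜ : Set S) = X \ O := by
      ext x
      constructor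
      · rintro ⟨y, hy, rfl⟩
        exact ⟨y.2, hy⟩
      · intro hx
        exact ⟨⟨x, hx.1⟩, hx.2, rfl⟩
    have hA' : Pr (ArtinGroup (res (res M X) O')) := by
      obtain ⟨F', hF'⟩ := exists_img hJ M X O'
      refine hP.inj _ _ F' hF' ?_
      rw [e1]
      exact hA
    have hB' : Pr (ArtinGroup (res (res M X) O'ᶜ)) := by
      obtain ⟨F', hF'⟩ := exists_img hJ M X O'ᶜ
      refine hP.inj _ _ F' hF' ?_
      rw [e2]
      exact hB
    exact hP.inj _ _ F hF (hprod _ _ hA' hB')

/-- Products of groups with the bounded Tits alternative. -/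
theorem vta_prod (G K : Type) [Group G] [Group K] (hG : VTA G) (hK : VTA K) : VTA (G × K) := by
  obtain ⟨N₁, d₁, h₁⟩ := hG
  obtain ⟨N₂, d₂, h₂⟩ := hK
  refine ⟨N₁ * N₂, max d₁ d₂, fun H hH => ?_⟩
  obtain ⟨A, hA0, hAN, hAd⟩ := h₁ (H.map (MonoidHom.fst G K)) fun h => hH (hasF2_of_map _ h)
  obtain ⟨B, hB0, hBN, hBd⟩ := h₂ (H.map (MonoidHom.snd G K)) fun h => hH (hasF2_of_map _ h)
  let p : H →* H.map (MonoidHom.fst G K) := (MonoidHom.fst G K).subgroupMap H
  let q : H →* H.map (MonoidHom.snd G K) := (MonoidHom.snd G K).subgroupMap H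
  have hp : Function.Surjective p := (MonoidHom.fst G K).subgroupMap_surjective H
  have hq : Function.Surjective q := (MonoidHom.snd G K).subgroupMap_surjective H
  have hp0 : (A.comap p).index = A.index := Subgroup.index_comap_of_surjective A hp
  have hq0 : (B.comap q).index = B.index := Subgroup.index_comap_of_surjective B hq
  refine ⟨A.comap p ⊓ B.comap q, ?_, ?_, ?_⟩
  · exact Subgroup.index_inf_ne_zero (by rw [hp0]; exact hA0) (by rw [hq0]; exact hB0)
  · refine (Subgroup.index_inf_le).trans ?_
    rw [hp0, hq0]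
    exact Nat.mul_le_mul hAN hBN
  · -- the map of the intersection to the product
    let f : (A.comap p ⊓ B.comap q : Subgroup H) →* A × B :=
      { toFun := fun x => (⟨p x, x.2.1⟩, ⟨q x, x.2.2⟩)
        map_one' := by
          refine Prod.ext (Subtype.ext ?_) (Subtype.ext ?_)
          · exact map_one p
          · exact map_one q
        map_mul' := fun x y => by
          refine Prod.ext (Subtype.ext ?_) (Subtype.ext ?_)
          · exact map_mul p _ _
          · exact map_mul q _ _ }
    have hf : Function.Injective f := by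
      intro x y hxy
      have h1 := congrArg (fun z : A × B => ((z.1 : H.map (MonoidHom.fst G K)) : G)) hxy
      have h2 := congrArg (fun z : A × B => ((z.2 : H.map (MonoidHom.snd G K)) : K)) hxy
      apply Subtype.ext
      apply Subtype.ext
      exact Prod.ext h1 h2
    refine derived_of_inj f hf ?_
    rw [eq_bot_iff]
    intro x hx
    have h1 : x.1 ∈ derivedSeries A (max d₁ d₂) :=
      map_derivedSeries_le_derivedSeries (MonoidHom.fst A B) _ ⟨x, hx, rfl⟩
    have h2 : x.2 ∈ derivedSeries B (max d₁ d₂) :=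
      map_derivedSeries_le_derivedSeries (MonoidHom.snd A B) _ ⟨x, hx, rfl⟩
    have h3 : x.1 ∈ (⊥ : Subgroup A) := hAd ▸ derivedSeries_antitone A (le_max_left d₁ d₂) h1
    have h4 : x.2 ∈ (⊥ : Subgroup B) := hBd ▸ derivedSeries_antitone B (le_max_right d₁ d₂) h2
    exact Prod.ext h3 h4

end Pool.Agent.Lib.MP_e6f638_al
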