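import Pool.Agent.Lib.MP_e6f638_al.J.JR_42
import Pool.Agent.Lib.MP_e6f638_al.J.Stmts2

/-!
# Reduction to tight cliques

Module JR2.
-/

set_option autoImplicit false

namespace Pool.Agent.Lib.MP_e6f638_al

open Multiplicative Pool.Agent.Results.MP_e6f638_al.EvenArtin

namespace J42

/-- An iterated restriction embeds in the restriction to the image. -/
theorem exists_img (hJ : StJH) {S : Type} (M : CoxeterMatrix S) (X : Set S) (Y : Set X) :
    ∃ F : ArtinGroup (res (res M X) Y) →* ArtinGroup (res M (Subtype.val '' Y)),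
      Function.Injective F := by
  have hX' : ∀ u : (Subtype.val '' Y : Set S), (u : S) ∈ X := by
    rintro ⟨_, x, -, rfl⟩
    exact x.2
  have hO' : ∀ u : (Subtype.val '' Y : Set S), (⟨u, hX' u⟩ : X) ∈ Y := by
    rintro ⟨_, x, hx, rfl⟩
    exact hx
  exact exists_map_inj hJ (res (res M X) Y) (res M (Subtype.val '' Y))
    (fun x => ⟨x.1.1, x.1, x.2, rfl⟩) (fun u => ⟨⟨u, hX' u⟩, hO' u⟩)
    (fun _ _ => rfl) (fun _ _ => rfl) (fun _ => rfl)

theorem img_lt {S : Type} {X : Set S} {Y : Set X} (h : ∃ x, x ∉ Y) :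
    (Subtype.val '' Y : Set S) < X := by
  rw [Set.lt_iff_ssubset, Set.ssubset_iff_subset_ne]
  refine ⟨?_, fun h' => ?_⟩
  · rintro _ ⟨x, -, rfl⟩
    exact x.2
  · obtain ⟨x, hx⟩ := h
    have h1 : (x : S) ∈ (Subtype.val '' Y : Set S) := by rw [h']; exact x.2
    obtain ⟨y, hy, hyx⟩ := h1
    have : y = x := Subtype.ext hyx
    exact hx (this ▸ hy)

/-- The step for sets which are not tight. -/
theorem step_tight (hJ : StJH) (hJE : StJE) (hJJ : StJJ) {Pr : (G : Type) → [Group G] → Prop}
    (hP : Cls Pr) {S : Type} [Finite S] (M : CoxeterMatrix S) (X : Set S) (hX : ¬ Tight M X)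
    (ih : ∀ Y < X, Pr (ArtinGroup (res M Y))) : Pr (ArtinGroup (res M X)) := by
  classical
  unfold Tight at hX
  push Not at hX
  obtain ⟨s, hs, t, ht, hst, hno⟩ := hX
  let O : Bool → Set X := fun c => {x : X | OddConn M X (bif c then t else s) x}
  have hOf : ∀ x : X, x ∈ O false ↔ OddConn M X s x := fun x => Iff.rfl
  have hOt : ∀ x : X, x ∈ O true ↔ OddConn M X t x := fun x => Iff.rfl
  have hne : ∀ c, (O c).Nonempty := by
    intro c
    cases c
    · exact ⟨⟨s, hs⟩, Relation.ReflTransGen.refl⟩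
    · exact ⟨⟨t, ht⟩, Relation.ReflTransGen.refl⟩
  have hd : Disjoint (O false) (O true) := by
    rw [Set.disjoint_left]
    intro x h1 h2
    exact hst (Relation.ReflTransGen.trans ((hOf x).1 h1) (oddConn_symm M ((hOt x).1 h2)))
  have hev : ∀ c, ∀ x ∈ O c, ∀ y ∉ O c, Even (res M X x y) := by
    intro c x hx y hy
    by_contra hodd
    rw [Nat.not_even_iff_odd] at hodd
    apply hy
    exact Relation.ReflTransGen.tail hx ⟨x.2, y.2, hodd⟩
  have h24 : ∀ x ∈ O false, ∀ y ∈ O true, res M X x y ≠ 2 ∧ res M X x y ≠ 4 := by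
    intro x hx y hy
    exact hno x x.2 y y.2 hx hy
  obtain ⟨D, e, he⟩ := hJJ X (res M X) O hne hd hev h24
  obtain ⟨E, E', τ, F, hF⟩ := hJE _ _ D _ e he
  refine hP.inj _ _ F hF (hP.hnn _ _ _ _ (hP.push _ _ _ D.inj fun c => ?_))
  obtain ⟨F', hF'⟩ := exists_img hJ M X (O (!c))ᶜ
  refine hP.inj _ _ F' hF' (ih _ (img_lt ?_))
  obtain ⟨x, hx⟩ := hne (!c)
  exact ⟨x, fun h => h hx⟩

/-- The step for a label which is infinite. -/
theorem step_inf (hVL : StVL) (hJ : StJH) {Pr : (G : Type) → [Group G] → Prop} (hP : Cls Pr)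
    {S : Type} [Finite S] (M : CoxeterMatrix S) (s t : S) (hst : M s t = 0)
    (h : ∀ c : Bool, Pr (ArtinGroup (res M ({bif c then t else s} : Set S)ᶜ))) :
    Pr (ArtinGroup M) := by
  classical
  have hne : s ≠ t := by
    rintro rfl
    rw [M.diagonal] at hst
    omega
  let pt : Bool → S := fun c => bif c then t else s
  have hsub : ∀ c, ({s, t}ᶜ : Set S) ⊆ ({pt c} : Set S)ᶜ := by
    intro c x hx h1
    apply hx
    have h2 : x = pt c := h1
    cases c
    · exact Or.inl h2
    · exact Or.inr h2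
  choose inc hinc using fun c : Bool => exists_inc M hJ (hsub c)
  choose e he using fun c : Bool => exists_emb M hJ ({pt c} : Set S)ᶜ
  obtain ⟨e0, he0⟩ := exists_emb M hJ ({s, t}ᶜ : Set S)
  have hcomp : ∀ c, (e c).comp (inc c) = e0 := fun c => hom_ext fun x => by
    rw [MonoidHom.comp_apply, hinc, he, he0]
  have hinj0 : Function.Injective e0 := hVL S M _ e0 he0
  have hinj : ∀ c, Function.Injective (inc c) := by
    intro c x y hxy
    apply hinj0
    rw [← hcomp c, MonoidHom.comp_apply, MonoidHom.comp_apply, hxy]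
  have key : Pr (Monoid.PushoutI inc) := hP.push _ _ inc hinj h
  -- the two maps
  have hs : s ∈ ({pt true} : Set S)ᶜ := fun h => hne h
  let g : S → Monoid.PushoutI inc := fun x =>
    if h : x = s then Monoid.PushoutI.of (φ := inc) true (ag _ ⟨s, hs⟩)
    else Monoid.PushoutI.of (φ := inc) false (ag _ ⟨x, h⟩)
  have hg : ∀ c (x : S) (h : x ∈ ({pt c} : Set S)ᶜ),
      g x = Monoid.PushoutI.of (φ := inc) c (ag _ ⟨x, h⟩) := by
    intro c x h
    cases c
    · exact dif_neg h
    · by_cases hx : x = s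
      · subst hx
        exact dif_pos rfl
      · have h1 : g x = Monoid.PushoutI.of (φ := inc) false (ag _ ⟨x, hx⟩) := dif_neg hx
        have hx' : x ∈ ({s, t}ᶜ : Set S) := by
          rintro (h2 | h2)
          · exact hx h2
          · exact h h2
        have h2 := Monoid.PushoutI.of_apply_eq_base inc false (ag _ ⟨x, hx'⟩)
        have h3 := Monoid.PushoutI.of_apply_eq_base inc true (ag _ ⟨x, hx'⟩)
        rw [hinc] at h2 h3
        rw [h1]
        exact h2.trans h3.symm
  obtain ⟨F, hF⟩ := hJ.1 S M _ g (by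
    have hsame : ∀ c (x y : S), x ∈ ({pt c} : Set S)ᶜ → y ∈ ({pt c} : Set S)ᶜ →
        alt (g x) (g y) (M x y) = alt (g y) (g x) (M x y) := by
      intro c x y hx hy
      rw [hg c x hx, hg c y hy, ← map_alt, ← map_alt]
      exact congrArg _ (hJ.2.1 _ (res M ({pt c} : Set S)ᶜ) ⟨x, hx⟩ ⟨y, hy⟩)
    intro x y
    by_cases h1 : x ≠ s ∧ y ≠ s
    · exact hsame false x y h1.1 h1.2
    · by_cases h2 : x ≠ t ∧ y ≠ t
      · exact hsame true x y h2.1 h2.2
      · have h3 : (x = s ∧ y = t) ∨ (x = t ∧ y = s) := by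
          by_cases hx : x = s
          · left
            refine ⟨hx, ?_⟩
            by_contra hy
            exact h2 ⟨fun h => hne (hx.symm.trans h), hy⟩
          · right
            have hys : y = s := by
              by_contra hy
              exact h1 ⟨hx, hy⟩
            refine ⟨?_, hys⟩
            by_contra hxt
            exact h2 ⟨hxt, fun h => hne (hys.symm.trans h)⟩
        have h4 : M x y = 0 := by
          rcases h3 with ⟨rfl, rfl⟩ | ⟨rfl, rfl⟩
          · exact hst
          · rw [M.symmetric]; exact hst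
        rw [h4]
        rfl)
  let G : Monoid.PushoutI inc →* ArtinGroup M := Monoid.PushoutI.lift e e0 hcomp
  have hGF : G.comp F = MonoidHom.id _ := hom_ext fun x => by
    rw [MonoidHom.comp_apply, hF]
    by_cases hx : x = s
    · subst hx
      rw [hg true x hs]
      show G _ = ag M x
      rw [Monoid.PushoutI.lift_of, he]
    · rw [hg false x hx]
      show G _ = ag M x
      rw [Monoid.PushoutI.lift_of, he]
  exact hP.inj _ _ F (Function.LeftInverse.injective (g := G) fun x => DFunLike.congr_fun hGF x) key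

end J42

open J42 in
/-- Module JR2. -/
theorem stJR2 (hVL : StVL) (hJ : StJH) (hJE : StJE) (hJJ : StJJ) : StJR2 := by
  classical
  intro Pr hP S _ M hT
  have key : ∀ X : Set S, Pr (ArtinGroup (res M X)) := by
    intro X
    induction X using WellFoundedLT.induction with
    | ind X ih =>
      by_cases hC : Clique M X
      · by_cases hX : Tight M X
        · exact hT X hC hX
        · exact step_tight hJ hJE hJJ hP M X hX ih
      · unfold Clique at hC
        push Not at hC
        obtain ⟨s, hs, t, ht, hst⟩ := hC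
        refine step_inf hVL hJ hP (res M X) ⟨s, hs⟩ ⟨t, ht⟩ hst fun c => ?_
        obtain ⟨F', hF'⟩ := exists_img hJ M X ({bif c then ⟨t, ht⟩ else ⟨s, hs⟩} : Set X)ᶜ
        exact hP.inj _ _ F' hF' (ih _ (img_lt ⟨_, fun h => h rfl⟩))
  obtain ⟨F, hF⟩ := exists_map_inj hJ M (res M Set.univ) (fun s => ⟨s, trivial⟩) (fun u => u.1)
    (fun _ _ => rfl) (fun _ _ => rfl) (fun _ => rfl)
  exact hP.inj _ _ F hF (key Set.univ)

end Pool.Agent.Lib.MP_e6f638_al
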