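import Pool.Agent.Lib.MP_e6f638_al.J.JJ_42

/-!
# Reduction to tight sets

Module JR.
-/

set_option autoImplicit false

namespace Pool.Agent.Lib.MP_e6f638_al

open Multiplicative Pool.Agent.Results.MP_e6f638_al.EvenArtin

namespace J42

variable {S : Type} (M : CoxeterMatrix S)

/-- The map of Artin groups given by a map of generators respecting the labels. -/
theorem exists_map (hJ : StJH) {T T' : Type} (N : CoxeterMatrix T) (N' : CoxeterMatrix T')
    (f : T → T') (hf : ∀ s t, N s t = N' (f s) (f t)) :
    ∃ F : ArtinGroup N →* ArtinGroup N', ∀ s, F (ag N s) = ag N' (f s) :=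
  hJ.1 T N _ (fun s => ag N' (f s)) fun s t => by
    rw [hf]
    exact hJ.2.1 T' N' (f s) (f t)

/-- An embedding of Artin groups from a map of generators with a left inverse. -/
theorem exists_map_inj (hJ : StJH) {T T' : Type} (N : CoxeterMatrix T) (N' : CoxeterMatrix T')
    (f : T → T') (g : T' → T) (hf : ∀ s t, N s t = N' (f s) (f t))
    (hg : ∀ s t, N' s t = N (g s) (g t)) (hgf : ∀ s, g (f s) = s) :
    ∃ F : ArtinGroup N →* ArtinGroup N', Function.Injective F := by
  obtain ⟨F, hF⟩ := exists_map hJ N N' f hf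
  obtain ⟨G, hG⟩ := exists_map hJ N' N g hg
  refine ⟨F, Function.LeftInverse.injective (g := G) fun x => ?_⟩
  have h1 : G.comp F = MonoidHom.id _ := hom_ext fun s => by
    rw [MonoidHom.comp_apply, hF, hG, hgf]
    rfl
  exact DFunLike.congr_fun h1 x

theorem oddConn_symm {X : Set S} {s t : S} (h : OddConn M X s t) : OddConn M X t s := by
  induction h with
  | refl => exact Relation.ReflTransGen.refl
  | tail _ hbc ih =>
    refine Relation.ReflTransGen.head ⟨hbc.2.1, hbc.1, ?_⟩ ih
    rw [M.symmetric]
    exact hbc.2.2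

end J42

open J42 in
/-- Module JR. -/
theorem stJR (hJ : StJH) (hJE : StJE) (hJJ : StJJ) : StJR := by
  classical
  intro Pr hP S _ M hT
  have key : ∀ X : Set S, Pr (ArtinGroup (res M X)) := by
    intro X
    induction X using WellFoundedLT.induction with
    | ind X ih =>
      by_cases hX : Tight M X
      · exact hT X hX
      · unfold Tight at hX
        push Not at hX
        obtain ⟨s, hs, t, ht, hst, hno⟩ := hX
        let O : Bool → Set X := fun c => {x : X | OddConn M X (bif c then t else s) x}
        have hOf : ∀ x : X, x ∈ O false ↔ OddConn M X s x := fun x => Iff.rfl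
        have hOt : ∀ x : X, x ∈ O true ↔ OddConn M X t x := fun x => Iff.rfl
        have hne : ∀ c, (O c).Nonempty := by
          intro c
          cases c
          · exact ⟨⟨s, hs⟩, Relation.ReflTransGen.refl⟩
          · exact ⟨⟨t, ht⟩, Relation.ReflTransGen.refl⟩
        have hd : Disjoint (O false) (O true) := by
          rw [Set.disjoint_left]
          intro x h1 h2
          exact hst (Relation.ReflTransGen.trans ((hOf x).1 h1) (oddConn_symm M ((hOt x).1 h2)))
        have hev : ∀ c, ∀ x ∈ O c, ∀ y ∉ O c, Even (res M X x y) := by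
          intro c x hx y hy
          by_contra hodd
          rw [Nat.not_even_iff_odd] at hodd
          apply hy
          exact Relation.ReflTransGen.tail hx ⟨x.2, y.2, hodd⟩
        have h24 : ∀ x ∈ O false, ∀ y ∈ O true, res M X x y ≠ 2 ∧ res M X x y ≠ 4 := by
          intro x hx y hy
          exact hno x x.2 y y.2 hx hy
        obtain ⟨D, e, he⟩ := hJJ X (res M X) O hne hd hev h24
        obtain ⟨E, E', τ, F, hF⟩ := hJE _ _ D _ e he
        refine hP.inj _ _ F hF (hP.hnn _ _ _ _ (hP.push _ _ _ D.inj fun c => ?_))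
        -- the factors are smaller
        have hlt : (Subtype.val '' (O (!c))ᶜ : Set S) < X := by
          rw [Set.lt_iff_ssubset, Set.ssubset_iff_subset_ne]
          refine ⟨?_, fun h => ?_⟩
          · rintro _ ⟨x, -, rfl⟩
            exact x.2
          · obtain ⟨x, hx⟩ := hne (!c)
            have h1 : (x : S) ∈ (Subtype.val '' (O (!c))ᶜ : Set S) := by rw [h]; exact x.2
            obtain ⟨y, hy, hyx⟩ := h1
            have : y = x := Subtype.ext hyx
            exact hy (this ▸ hx)
        have hX' : ∀ u : (Subtype.val '' (O (!c))ᶜ : Set S), (u : S) ∈ X := by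
          rintro ⟨_, x, -, rfl⟩
          exact x.2
        have hO' : ∀ u : (Subtype.val '' (O (!c))ᶜ : Set S), (⟨u, hX' u⟩ : X) ∈ (O (!c))ᶜ := by
          rintro ⟨_, x, hx, rfl⟩
          exact hx
        obtain ⟨F', hF'⟩ := exists_map_inj hJ (res (res M X) (O (!c))ᶜ)
          (res M (Subtype.val '' (O (!c))ᶜ)) (fun x => ⟨x.1.1, x.1, x.2, rfl⟩)
          (fun u => ⟨⟨u, hX' u⟩, hO' u⟩) (fun _ _ => rfl) (fun _ _ => rfl) (fun _ => rfl)
        exact hP.inj _ _ F' hF' (ih _ hlt)
  obtain ⟨F, hF⟩ := exists_map_inj hJ M (res M Set.univ) (fun s => ⟨s, trivial⟩) (fun u => u.1)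
    (fun _ _ => rfl) (fun _ _ => rfl) (fun _ => rfl)
  exact hP.inj _ _ F hF (key Set.univ)

end Pool.Agent.Lib.MP_e6f638_al
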