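import Pool.Agent.Lib.MP_e6f638_al.J.Stmts2

/-!
# The unconditional part

Module JU.
-/

set_option autoImplicit false

namespace Pool.Agent.Lib.MP_e6f638_al

open Multiplicative Pool.Agent.Results.MP_e6f638_al.EvenArtin

namespace J42

/-- Products of cyclic groups and odd dihedral Artin groups. -/
theorem sta_prod (hC : StJC1) (hP : StJP) (hD : StJD) (n : ℕ) :
    ∀ (S : Type) [Finite S] (M : CoxeterMatrix S), Nat.card S ≤ n →
      (∀ s t, s ≠ t → Odd (M s t) ∨ M s t = 2) →
      (∀ s t u, s ≠ t → s ≠ u → Odd (M s t) → Odd (M s u) → t = u) → STA (ArtinGroup M) := by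
  classical
  induction n with
  | zero =>
    intro S _ M hn _ _
    have : IsEmpty S := (Nat.card_eq_zero.1 (Nat.le_zero.1 hn)).resolve_right (not_infinite_iff_finite.2 ‹_›)
    exact hD.1 S M inferInstance
  | succ n ih =>
    intro S _ M hn h2 hu
    by_cases hsub : Subsingleton S
    · exact hD.1 S M hsub
    have hnt : Nontrivial S := not_subsingleton_iff_nontrivial.1 hsub
    obtain ⟨a⟩ : Nonempty S := inferInstance
    -- the odd component of `a`
    obtain ⟨O, haO, hO2, hOS⟩ : ∃ O : Set S, a ∈ O ∧ (∀ s ∈ O, ∀ t ∉ O, M s t = 2) ∧
        STA (ArtinGroup (res M O)) := by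
      by_cases hb : ∃ b, a ≠ b ∧ Odd (M a b)
      · obtain ⟨b, hab, hodd⟩ := hb
        refine ⟨{a, b}, Or.inl rfl, ?_, ?_⟩
        · intro s hs t ht
          have hta : t ≠ a := fun h => ht (Or.inl h)
          have htb : t ≠ b := fun h => ht (Or.inr h)
          rcases hs with rfl | hs
          · rcases h2 s t hta.symm with h | h
            · exact absurd (hu s t b hta.symm hab h hodd) htb
            · exact h
          · have hs : s = b := hs
            subst hs
            rcases h2 s t htb.symm with h | h
            · have hodd' : Odd (M s a) := by rw [M.symmetric]; exact hodd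
              exact absurd (hu s t a htb.symm hab.symm h hodd') hta
            · exact h
        · refine hD.2 _ (res M {a, b}) ⟨a, Or.inl rfl⟩ ⟨b, Or.inr rfl⟩
            (fun h => hab (congrArg Subtype.val h)) ?_ hodd
          rintro ⟨s, rfl | hs⟩
          · exact Or.inl rfl
          · right
            exact Subtype.ext hs
      · push Not at hb
        refine ⟨{a}, rfl, ?_, ?_⟩
        · intro s hs t ht
          have hs : s = a := hs
          subst hs
          have hst : s ≠ t := fun h => ht h.symm
          rcases h2 s t hst with h | h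
          · exact absurd h (Nat.not_odd_iff_even.2 (by
              have := hb t hst
              exact Nat.not_odd_iff_even.1 this))
          · exact h
        · refine hD.1 _ _ ⟨?_⟩
          rintro ⟨s, hs⟩ ⟨t, ht⟩
          exact Subtype.ext ((hs : s = a).trans (ht : t = a).symm)
    obtain ⟨F, hF⟩ := hP.2 S M O hO2
    refine hC.inj _ _ F hF (hP.1 _ _ hOS (ih _ (res M Oᶜ) ?_ ?_ ?_))
    · have h3 : Nat.card (Oᶜ : Set S) < Nat.card S := by
        have h4 : (Oᶜ : Set S) ⊂ Set.univ := by
          rw [Set.ssubset_univ_iff]
          intro h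
          exact (h ▸ Set.mem_univ a : a ∈ Oᶜ) haO
        have := Set.ncard_lt_ncard h4 Set.finite_univ
        rwa [Set.ncard_univ] at this
      omega
    · intro s t hst
      exact h2 s t fun h => hst (Subtype.ext h)
    · intro s t u hst hsu h3 h4
      exact Subtype.ext (hu s t u (fun h => hst (Subtype.ext h)) (fun h => hsu (Subtype.ext h)) h3 h4)

end J42

open J42 in
/-- Module JU. -/
theorem stJU (hR : StJR2) (hC : StJC1) (hP : StJP) (hD : StJD) : StJU := by
  classical
  intro S _ M h4 h3
  refine hR (fun G [Group G] => STA G) hC S M fun X hX hT => ?_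
  have huniq : ∀ s ∈ X, ∀ t ∈ X, ∀ u ∈ X, s ≠ t → s ≠ u → Odd (M s t) → Odd (M s u) → t = u := by
    intro s hs t ht u hu hst hsu h1 h2
    by_contra htu
    have := h3 s t u hst hsu htu h1 (hX s hs u hu) (hX t ht u hu)
    exact (Nat.not_even_iff_odd.2 h2) this.1
  have hconn : ∀ s ∈ X, ∀ t, OddConn M X s t → s = t ∨ Odd (M s t) := by
    intro s hs t h
    induction h with
    | refl => exact Or.inl rfl
    | @tail b c _ hbc ih =>
      obtain ⟨hb, hc, hodd⟩ := hbc
      rcases ih with rfl | h1
      · exact Or.inr hodd
      · by_cases hsb : s = b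
        · subst hsb; exact Or.inr hodd
        · by_cases hbc : b = c
          · subst hbc; exact Or.inr h1
          · left
            exact huniq b hb s hs c hc (Ne.symm hsb) hbc (by rw [M.symmetric]; exact h1) hodd
  have hdiag : ∀ s t, M s t = 2 → s ≠ t := by
    rintro s _ h rfl
    rw [M.diagonal] at h
    omega
  refine sta_prod hC hP hD (Nat.card X) X (res M X) le_rfl ?_ ?_
  · rintro ⟨s, hs⟩ ⟨t, ht⟩ hne
    have hst : s ≠ t := fun h => hne (Subtype.ext h)
    by_cases hodd : Odd (M s t)
    · exact Or.inl hodd
    right
    have hnc : ¬ OddConn M X s t := fun h => (hconn s hs t h).elim hst hodd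
    obtain ⟨s', hs', t', ht', hss', htt', h24⟩ := hT s hs t ht hnc
    have h2 : M s' t' = 2 := h24.resolve_right (h4 s' t')
    -- first step
    have hst' : s ≠ t' := by
      rintro rfl
      exact hnc (Relation.ReflTransGen.trans Relation.ReflTransGen.refl
        (by
          have : OddConn M X t s := htt'
          induction this with
          | refl => exact Relation.ReflTransGen.refl
          | @tail b c _ hbc ih =>
            exact Relation.ReflTransGen.head ⟨hbc.2.1, hbc.1, by rw [M.symmetric]; exact hbc.2.2⟩
              (by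
                have key : ∀ x, OddConn M X t x → OddConn M X x t := by
                  intro x hx
                  induction hx with
                  | refl => exact Relation.ReflTransGen.refl
                  | @tail b c _ hbc ih =>
                    exact Relation.ReflTransGen.head
                      ⟨hbc.2.1, hbc.1, by rw [M.symmetric]; exact hbc.2.2⟩ ih
                exact key b ‹_›)))
    have e1 : M s t' = 2 := by
      by_cases hs1 : s = s'
      · rw [hs1]; exact h2
      · have ho : Odd (M s s') := (hconn s hs s' hss').resolve_left hs1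
        have h5 := h3 s' s t' (Ne.symm hs1) (hdiag _ _ h2) hst' (by rw [M.symmetric]; exact ho)
          (hX s' hs' t' ht') (hX s hs t' ht')
        exact h5.2.2.1 h2
    show M s t = 2
    by_cases ht1 : t = t'
    · rw [ht1]; exact e1
    · have ho : Odd (M t t') := (hconn t ht t' htt').resolve_left ht1
      have h5 := h3 t' t s (Ne.symm ht1) (Ne.symm hst') (Ne.symm hst)
        (by rw [M.symmetric]; exact ho) (hX t' ht' s hs) (hX t ht s hs)
      have h6 : M t' s = 2 := by rw [M.symmetric]; exact e1
      rw [M.symmetric]
      exact h5.2.2.1 h6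
  · rintro ⟨s, hs⟩ ⟨t, ht⟩ ⟨u, hu⟩ hst hsu h1 h2
    exact Subtype.ext (huniq s hs t ht u hu (fun h => hst (Subtype.ext h))
      (fun h => hsu (Subtype.ext h)) h1 h2)

end Pool.Agent.Lib.MP_e6f638_al
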