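import Pool.Agent.Lib.MP_e6f638_al.J.Stmts2
import Pool.Agent.Lib.MP_db6a6f_al.MinRep
import Pool.Agent.Lib.MP_db6a6f_al.Exch
import Pool.Agent.Lib.MP_db6a6f_al.Red
import Pool.Agent.Lib.MP_db6a6f_al.Par
import Pool.Agent.Lib.MP_e6f638_al.J.JH_14

/-!
# Standard subgroups of Artin groups (van der Lek)

Module VL. The Artin group acts on the product of the set of the elements of the Coxeter group which
are minimal in their coset by the Artin group of the subset.
-/

set_option autoImplicit false

namespace Pool.Agent.Lib.MP_e6f638_al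

open Multiplicative Pool.Agent.Results.MP_e6f638_al.EvenArtin
open Pool.Agent.Lib.MP_db6a6f_al (WT exch red minRep exists_word simple_mem_WT ExchStmt)

namespace VL70

/-! ## Alternating words -/

section Alt

variable {G : Type} [Group G]

theorem alt_succ_right (a b : G) (n : ℕ) :
    alt a b (n + 1) = alt a b n * (if Even n then a else b) := by
  induction n generalizing a b with
  | zero => simp [alt]
  | succ n ih =>
    change a * alt b a (n + 1) = a * alt b a n * _
    rw [ih b a, mul_assoc]
    by_cases h : Even n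
    · rw [if_pos h, if_neg (by rw [Nat.even_add_one]; exact not_not.mpr h)]
    · rw [if_neg h, if_pos (by rw [Nat.even_add_one]; exact h)]

theorem alt_add (a b : G) (n k : ℕ) :
    alt a b (n + k) = alt a b n * (if Even n then alt a b k else alt b a k) := by
  induction n generalizing a b with
  | zero => simp [alt]
  | succ n ih =>
    rw [show n + 1 + k = (n + k) + 1 by ring]
    change a * alt b a (n + k) = a * alt b a n * _
    rw [ih b a, mul_assoc]
    by_cases h : Even n
    · rw [if_pos h, if_neg (by rw [Nat.even_add_one]; exact not_not.mpr h)]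
    · rw [if_neg h, if_pos (by rw [Nat.even_add_one]; exact h)]

theorem alt_dvd {a b : G} {n N : ℕ} (h : alt a b n = alt b a n) (hN : n ∣ N) :
    alt a b N = alt b a N := by
  obtain ⟨k, rfl⟩ := hN
  induction k with
  | zero => rfl
  | succ k ih =>
    rw [show n * (k + 1) = n + n * k by ring, alt_add, alt_add, h, ih]

/-- The alternating word with `n` letters ending with `a`. -/
def ralt (a b : G) : ℕ → G
  | 0 => 1
  | n + 1 => ralt b a n * a

theorem alt_eq_ralt (a b : G) (n : ℕ) :
    alt a b n = if Even n then ralt b a n else ralt a b n := by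
  induction n with
  | zero => simp [alt, ralt]
  | succ n ih =>
    rw [alt_succ_right, ih]
    by_cases h : Even n
    · rw [if_pos h, if_pos h, if_neg (by rw [Nat.even_add_one]; exact not_not.mpr h)]
      rfl
    · rw [if_neg h, if_neg h, if_pos (by rw [Nat.even_add_one]; exact h)]
      rfl

theorem alt_eq_of_ralt {a b : G} {n : ℕ} (h : ralt a b n = ralt b a n) :
    alt a b n = alt b a n := by
  rw [alt_eq_ralt, alt_eq_ralt, h]

end Alt

/-! ## Alternating paths -/

section Path

variable {Om : Type}

/-- Apply the two maps alternatingly. -/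
def it (f : Bool → Om → Om) : ℕ → Bool → Om → Om
  | 0, _, z => z
  | n + 1, c, z => it f n (!c) (f c z)

theorem ralt_perm (p : Bool → Equiv.Perm Om) (n : ℕ) (c : Bool) (z : Om) :
    ralt (p c) (p !c) n z = it (fun c => p c) n c z := by
  induction n generalizing c z with
  | zero => rfl
  | succ n ih =>
    change ralt (p !c) (p c) n (p c z) = it (fun c => p c) n (!c) (p c z)
    rw [← ih (!c) (p c z), Bool.not_not]

theorem it_up (f : Bool → Om → Om) (m : ℕ) (z : ℕ → Om) (b : ℕ → Bool)
    (hb : ∀ k, b (k + 1) = !(b k)) (up : ∀ k, k + 1 < m → f (b k) (z k) = z (k + 1)) (n j : ℕ) :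
    ∀ k, k + j < m → it f (n + j) (b k) (z k) = it f n (b (k + j)) (z (k + j)) := by
  induction j with
  | zero => intro k _; rfl
  | succ j ih =>
    intro k hk
    change it f (n + j) (!(b k)) (f (b k) (z k)) = _
    rw [up k (by omega), ← hb, ih (k + 1) (by omega), show k + 1 + j = k + (j + 1) by ring]

theorem it_dn (f : Bool → Om → Om) (m : ℕ) (z : ℕ → Om) (b : ℕ → Bool)
    (hb : ∀ k, b (k + 1) = !(b k)) (dn : ∀ k, k + 1 < m → f (b k) (z (k + 1)) = z k) (n j : ℕ) :
    ∀ k, k + j < m → it f (n + j) (!(b (k + j))) (z (k + j)) = it f n (!(b k)) (z k) := by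
  induction j with
  | zero => intro k _; rfl
  | succ j ih =>
    intro k hk
    change it f (n + j) (!!(b (k + j + 1))) (f (!(b (k + j + 1))) (z (k + j + 1))) = _
    rw [hb (k + j)]
    simp only [Bool.not_not]
    rw [dn (k + j) (by omega), ih k (by omega)]

theorem path (f : Bool → Om → Om) (m : ℕ) (z z' : ℕ → Om) (b : ℕ → Bool)
    (hb : ∀ k, b (k + 1) = !(b k))
    (up : ∀ k, k + 1 < m → f (b k) (z k) = z (k + 1))
    (dn : ∀ k, k + 1 < m → f (b k) (z (k + 1)) = z k)
    (up' : ∀ k, k + 1 < m → f (b k) (z' k) = z' (k + 1))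
    (dn' : ∀ k, k + 1 < m → f (b k) (z' (k + 1)) = z' k)
    (l0 : f (!(b 0)) (z 0) = z' 0) (l1 : f (b (m - 1)) (z (m - 1)) = z' (m - 1))
    (k : ℕ) (hk : k < m) (c : Bool) : it f m c (z k) = z' (m - 1 - k) := by
  have h1 : it f m (b k) (z k) = z' (m - 1 - k) := by
    have e1 := it_up f m z b hb up (k + 1) (m - 1 - k) k (by omega)
    rw [show k + 1 + (m - 1 - k) = m by omega, show k + (m - 1 - k) = m - 1 by omega] at e1
    rw [e1]
    change it f k (!(b (m - 1))) (f (b (m - 1)) (z (m - 1))) = _
    have e2 := it_dn f m z' b hb dn' 0 k (m - 1 - k) (by omega)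
    rw [show m - 1 - k + k = m - 1 by omega, zero_add] at e2
    rw [l1, e2]
    rfl
  have h2 : it f m (!(b k)) (z k) = z' (m - 1 - k) := by
    have e1 := it_dn f m z b hb dn (m - k) k 0 (by omega)
    rw [show m - k + k = m by omega, zero_add] at e1
    rw [e1, show m - k = (m - 1 - k) + 1 by omega]
    change it f (m - 1 - k) (!(!(b 0))) (f (!(b 0)) (z 0)) = _
    have e2 := it_up f m z' b hb up' 0 (m - 1 - k) 0 (by omega)
    rw [zero_add] at e2
    rw [Bool.not_not, l0, e2]
    rfl
  by_cases hc : c = b k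
  · rw [hc, h1]
  · have : c = !(b k) := by
      cases c <;> cases hbk : b k <;> simp_all
    rw [this, h2]

end Path

/-! ## Orders -/

section Order

open Pool.Agent.Lib.MP_db6a6f_al.ParAux

variable {m : ℕ} (M : CoxeterMatrix (Fin m))

theorem rf_comb (i j : Fin m) (a b : ℝ) :
    rf M j (a • Pi.single i 1 + b • Pi.single j 1) =
      a • Pi.single i 1 + (-(a * bm M i j) - b) • Pi.single j 1 := by
  rw [rf_apply, map_add, map_smul, map_smul, fm_single, fm_single, bm_self, bm_comm M j i,
    smul_eq_mul, smul_eq_mul]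
  module

theorem rf_pow (i j : Fin m) (p q : ℕ → ℝ) (hp0 : p 0 = 1) (hq0 : q 0 = 0)
    (hq : ∀ k, q (k + 1) = -(p k * bm M i j) - q k)
    (hp : ∀ k, p (k + 1) = -(q (k + 1) * bm M i j) - p k) (k : ℕ) :
    MP_db6a6f_al.ParAux.rho M ((M.simple i * M.simple j) ^ k) (Pi.single i 1) =
      p k • Pi.single i 1 + q k • Pi.single j 1 := by
  induction k with
  | zero => simp [hp0, hq0]
  | succ k ih =>
    rw [pow_succ', map_mul, LinearEquiv.mul_apply, ih, map_mul, LinearEquiv.mul_apply, rho_simple,
      rho_simple, rf_comb M i j, ← hq, add_comm, rf_comb M j i, bm_comm M j i, ← hp,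
      add_comm]

theorem order (i j : Fin m) (n : ℕ) (h : (M.simple i * M.simple j) ^ n = 1) : M i j ∣ n := by
  by_cases hij : i = j
  · subst hij
    rw [M.diagonal]
    exact one_dvd _
  have hfin : ∀ (p q : ℕ → ℝ), p 0 = 1 → q 0 = 0 →
      (∀ k, q (k + 1) = -(p k * bm M i j) - q k) →
      (∀ k, p (k + 1) = -(q (k + 1) * bm M i j) - p k) → p n = 1 ∧ q n = 0 := by
    intro p q hp0 hq0 hq hp
    have h1 := rf_pow M i j p q hp0 hq0 hq hp n
    rw [h, map_one] at h1
    have h2 := congrFun h1 i
    have h3 := congrFun h1 j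
    simp [hij, Ne.symm hij] at h2 h3
    exact ⟨h2.symm, h3.symm⟩
  by_cases hM : M i j = 0
  · have hb : bm M i j = -2 := by
      unfold bm
      rw [if_pos hM]
    obtain ⟨-, h2⟩ := hfin (fun k => 2 * k + 1) (fun k => 2 * k) (by simp) (by simp)
      (by intro k; rw [hb]; push_cast; ring) (by intro k; rw [hb]; push_cast; ring)
    have h3 : (n : ℝ) = 0 := by simpa using h2
    have h4 : n = 0 := by exact_mod_cast h3
    rw [hM, h4]
  · have hb : bm M i j = -2 * Real.cos (Real.pi / M i j) := by
      unfold bm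
      rw [if_neg hM]
    set θ : ℝ := Real.pi / M i j with hθ
    have hM1 : M i j ≠ 1 := M.off_diagonal i j hij
    have hM2 : (2 : ℝ) ≤ M i j := by
      have : 2 ≤ M i j := by omega
      exact_mod_cast this
    have hpi := Real.pi_pos
    have hsin : Real.sin θ ≠ 0 := by
      apply ne_of_gt
      apply Real.sin_pos_of_pos_of_lt_pi
      · positivity
      · rw [hθ, div_lt_iff₀ (by linarith)]
        nlinarith
    have key : ∀ x : ℝ, 2 * Real.cos θ * Real.sin x - Real.sin (x - θ) = Real.sin (x + θ) := by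
      intro x
      rw [Real.sin_add, Real.sin_sub]
      ring
    obtain ⟨h1, h2⟩ := hfin (fun k => Real.sin ((2 * k + 1) * θ) / Real.sin θ)
      (fun k => Real.sin (2 * k * θ) / Real.sin θ) (by simp [hsin]) (by simp)
      (by
        intro k
        have h3 := key ((2 * k + 1) * θ)
        rw [show (2 * (k : ℝ) + 1) * θ - θ = 2 * k * θ by ring,
          show (2 * (k : ℝ) + 1) * θ + θ = 2 * (k + 1) * θ by ring] at h3
        rw [hb]
        push_cast
        rw [← h3]
        field_simp)
      (by
        intro k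
        have h3 := key (2 * (k + 1) * θ)
        rw [show 2 * ((k : ℝ) + 1) * θ - θ = (2 * k + 1) * θ by ring,
          show 2 * ((k : ℝ) + 1) * θ + θ = (2 * (k + 1) + 1) * θ by ring] at h3
        rw [hb]
        push_cast
        rw [← h3]
        field_simp)
    have h3 : Real.sin (2 * n * θ) = 0 := by
      simpa [hsin] using h2
    have h4 : Real.cos (2 * n * θ) = 1 := by
      have h5 : Real.sin ((2 * n + 1) * θ) = Real.sin θ := by
        field_simp at h1
        exact h1
      rw [show (2 * (n : ℝ) + 1) * θ = 2 * n * θ + θ by ring, Real.sin_add, h3, zero_mul,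
        zero_add] at h5
      exact mul_right_cancel₀ hsin (by rw [h5, one_mul])
    rw [Real.cos_eq_one_iff] at h4
    obtain ⟨k, hk⟩ := h4
    have h5 : (n : ℝ) = k * M i j := by
      rw [hθ] at hk
      field_simp at hk
      linarith
    have h6 : (n : ℤ) = k * (M i j : ℤ) := by exact_mod_cast h5
    have h7 : (M i j : ℤ) ∣ (n : ℤ) := ⟨k, by rw [h6]; ring⟩
    exact_mod_cast h7

end Order


/-! ## Minimal elements -/

section Min

variable {n : ℕ} {M : CoxeterMatrix (Fin n)} {T : Finset (Fin n)}

/-- The length. -/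
noncomputable abbrev len (w : M.Group) : ℕ := M.toCoxeterSystem.length w

/-- `w` is minimal in its coset. -/
def MinP (M : CoxeterMatrix (Fin n)) (T : Finset (Fin n)) (w : M.Group) : Prop :=
  ∀ x ∈ T, len w < len (w * M.simple x)

theorem sq (s : Fin n) : M.simple s * M.simple s = 1 := by
  have := M.toCoxeterSystem.simple_mul_simple_self s
  rwa [CoxeterMatrix.toCoxeterSystem_simple] at this

theorem inv_s (s : Fin n) : (M.simple s)⁻¹ = M.simple s := inv_eq_of_mul_eq_one_left (sq s)

theorem sq_left (s : Fin n) (w : M.Group) : M.simple s * (M.simple s * w) = w := by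
  rw [← mul_assoc, sq, one_mul]

theorem sq_right (s : Fin n) (w : M.Group) : w * M.simple s * M.simple s = w := by
  rw [mul_assoc, sq, mul_one]

theorem len_simple (s : Fin n) : len (M.simple s) = 1 := by
  have := M.toCoxeterSystem.length_simple s
  rwa [CoxeterMatrix.toCoxeterSystem_simple] at this

theorem simple_ne_one (s : Fin n) : M.simple s ≠ 1 := by
  intro h
  have h1 := len_simple (M := M) s
  rw [h] at h1
  have h2 : len (1 : M.Group) = 0 := M.toCoxeterSystem.length_one
  omega

theorem len_right (w : M.Group) (s : Fin n) :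
    len (w * M.simple s) = len w + 1 ∨ len (w * M.simple s) + 1 = len w := by
  have := M.toCoxeterSystem.length_mul_simple w s
  rwa [CoxeterMatrix.toCoxeterSystem_simple] at this

theorem len_left (s : Fin n) (w : M.Group) :
    len (M.simple s * w) = len w + 1 ∨ len (M.simple s * w) + 1 = len w := by
  have := M.toCoxeterSystem.length_simple_mul w s
  rwa [CoxeterMatrix.toCoxeterSystem_simple] at this

theorem not_min {w u : M.Group} {x : Fin n} (hw : MinP M T w) (hx : x ∈ T)
    (h : u = w * M.simple x) : ¬ MinP M T u := by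
  intro hu
  have h1 := hw x hx
  have h2 := hu x hx
  rw [h, sq_right] at h2
  omega

theorem min_one : MinP M T 1 := by
  intro x _
  rw [one_mul, len_simple]
  have h2 : len (1 : M.Group) = 0 := M.toCoxeterSystem.length_one
  omega

theorem deo {w : M.Group} (hw : MinP M T w) (s : Fin n) (h : ¬ MinP M T (M.simple s * w)) :
    ∃ x ∈ T, M.simple s * w = w * M.simple x := by
  unfold MinP at h
  push Not at h
  obtain ⟨x, hx, h1⟩ := h
  refine ⟨x, hx, ?_⟩
  have h2 := hw x hx
  have h3 := len_right w x
  have h4 := len_left s w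
  have h5 := len_right (M.simple s * w) x
  have h6 := len_left s (w * M.simple x)
  rw [← mul_assoc] at h6
  have h7 : len (M.simple s * w) = len w + 1 := by omega
  obtain ⟨ω, hω, hω2⟩ := M.toCoxeterSystem.exists_isReduced w
  have h8 : len w = ω.length := by
    have h0 : M.toCoxeterSystem.length (M.toCoxeterSystem.wordProd ω) = ω.length := hω
    rwa [← hω2] at h0
  have hπ : M.toCoxeterSystem.wordProd (s :: ω) = M.simple s * w := by
    rw [CoxeterSystem.wordProd_cons, ← hω2, CoxeterMatrix.toCoxeterSystem_simple]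
  obtain ⟨j, hj, hex⟩ := exch n M (s :: ω) x (by
    rw [hπ]
    change len _ < len _
    omega)
  rw [hπ] at hex
  rcases j with _ | j
  · rw [List.eraseIdx_cons_zero, ← hω2] at hex
    have h9 : M.simple s * w * M.simple x * M.simple x = w * M.simple x := by rw [hex]
    rwa [sq_right] at h9
  · exfalso
    rw [List.eraseIdx_cons_succ, CoxeterSystem.wordProd_cons,
      CoxeterMatrix.toCoxeterSystem_simple, mul_assoc, mul_left_cancel_iff] at hex
    have h9 := M.toCoxeterSystem.length_wordProd_le (ω.eraseIdx j)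
    rw [← hex] at h9
    change len _ ≤ _ at h9
    have hj' : j < ω.length := by simpa using hj
    rw [List.length_eraseIdx_of_lt hj'] at h9
    omega

/-- The data at the minimal element of a double coset. -/
structure Bot (M : CoxeterMatrix (Fin n)) (T D : Finset (Fin n)) (w' : M.Group) : Prop where
  min : MinP M T w'
  add : ∀ e ∈ WT M D, len (e * w') = len e + len w'

theorem exists_bot {D : Finset (Fin n)} {w : M.Group} (hw : MinP M T w) :
    ∃ w', Bot M T D w' ∧ ∃ e ∈ WT M D, w = e * w' := by
  classical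
  have hex : ∃ k, ∃ d ∈ WT M D, len (d * w) = k := ⟨_, 1, (WT M D).one_mem, rfl⟩
  obtain ⟨d, hd, hk⟩ := Nat.find_spec hex
  have hmin : ∀ e ∈ WT M D, len (d * w) ≤ len (e * (d * w)) := by
    intro e he
    rw [hk, ← mul_assoc]
    exact Nat.find_min' hex ⟨e * d, (WT M D).mul_mem he hd, rfl⟩
  have hinv : ∀ u : M.Group, len u⁻¹ = len u := fun u => M.toCoxeterSystem.length_inv u
  have hadd : ∀ e ∈ WT M D, len (e * (d * w)) = len e + len (d * w) := by
    intro e he
    obtain ⟨η, h1, h2, h3⟩ := red exch n M D e⁻¹ ((WT M D).inv_mem he)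
    have h4 := MP_db6a6f_al.MinRepAux.len_add exch (M := M) (T := D) (v₀ := (d * w)⁻¹) (by
      intro a ha
      have h5 := hmin a⁻¹ ((WT M D).inv_mem ha)
      have h6 := hinv (a⁻¹ * (d * w))
      rw [mul_inv_rev, inv_inv] at h6
      have h7 := hinv (d * w)
      change len _ ≤ len _
      omega) η h1 h2
    rw [← h3, ← mul_inv_rev] at h4
    change len _ = len _ + _ at h4
    rw [hinv, hinv] at h4
    have h8 : M.toCoxeterSystem.length (M.toCoxeterSystem.wordProd η) = η.length := h2
    rw [← h3] at h8
    change len _ = _ at h8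
    rw [hinv] at h8
    omega
  have hw2 : w = d⁻¹ * (d * w) := by group
  refine ⟨d * w, ⟨?_, hadd⟩, d⁻¹, (WT M D).inv_mem hd, hw2⟩
  intro x hx
  by_contra hlt
  have h1 := hw x hx
  have h2 := len_right (d * w) x
  have h3 := hadd d⁻¹ ((WT M D).inv_mem hd)
  rw [← hw2] at h3
  have h4 : len (w * M.simple x) ≤ len d⁻¹ + len (d * w * M.simple x) := by
    have h5 : w * M.simple x = d⁻¹ * (d * w * M.simple x) := by group
    rw [h5]
    exact M.toCoxeterSystem.length_mul_le _ _
  omega

theorem Bot.bad {D : Finset (Fin n)} {w' : M.Group} (hB : Bot M T D w') {g : M.Group}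
    (hg : g ∈ WT M D) (hgm : MinP M T (g * w')) {r : Fin n} (hr : r ∈ D)
    (hb : ¬ MinP M T (M.simple r * (g * w'))) :
    ∃ i ∈ D, g⁻¹ * M.simple r * g = M.simple i ∧ ¬ MinP M T (M.simple i * w') := by
  obtain ⟨x, hx, h1⟩ := deo hgm r hb
  have h2 : g⁻¹ * M.simple r * g * w' = w' * M.simple x := by
    calc g⁻¹ * M.simple r * g * w' = g⁻¹ * (M.simple r * (g * w')) := by simp only [mul_assoc]
      _ = w' * M.simple x := by rw [h1]; group
  have hmem : g⁻¹ * M.simple r * g ∈ WT M D :=
    (WT M D).mul_mem ((WT M D).mul_mem ((WT M D).inv_mem hg) (simple_mem_WT hr)) hg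
  have h3 := hB.add _ hmem
  rw [h2] at h3
  have h4 := len_right w' x
  obtain ⟨η, h5, h6, h7⟩ := red exch n M D _ hmem
  have h8 : len (g⁻¹ * M.simple r * g) = η.length := by
    have h0 : M.toCoxeterSystem.length (M.toCoxeterSystem.wordProd η) = η.length := h6
    rwa [← h7] at h0
  have h9 : η.length ≤ 1 := by omega
  have hne : η ≠ [] := by
    rintro rfl
    rw [CoxeterSystem.wordProd_nil] at h7
    apply simple_ne_one (M := M) r
    calc M.simple r = g * (g⁻¹ * M.simple r * g) * g⁻¹ := by group
      _ = 1 := by rw [h7]; group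
  obtain ⟨i, rfl⟩ : ∃ i, η = [i] := by
    match η, h9, hne with
    | [i], _, _ => exact ⟨i, rfl⟩
  have h10 : g⁻¹ * M.simple r * g = M.simple i := by
    rw [h7, CoxeterSystem.wordProd_singleton, CoxeterMatrix.toCoxeterSystem_simple]
  refine ⟨i, h5 i (by simp), h10, ?_⟩
  rw [h10] at h2
  exact not_min hB.min hx h2

end Min


/-! ## The action -/

section Act

variable {n : ℕ} {M : CoxeterMatrix (Fin n)} {T : Finset (Fin n)} {A : Type} [Group A]

/-- The set on which the group acts. -/
abbrev Om (M : CoxeterMatrix (Fin n)) (T : Finset (Fin n)) (A : Type) : Type :=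
  {w : M.Group // MinP M T w} × A

open Classical in
/-- The action of a generator. -/
noncomputable def act (v : Fin n → A) (s : Fin n) (p : Om M T A) : Om M T A :=
  if h : MinP M T (M.simple s * p.1.1) then (⟨M.simple s * p.1.1, h⟩, p.2)
  else (p.1, v (Classical.choose (deo p.1.2 s h)) * p.2)

theorem act_free (v : Fin n → A) (s : Fin n) {w : M.Group} (hw : MinP M T w)
    (h : MinP M T (M.simple s * w)) (a : A) :
    act v s ((⟨w, hw⟩, a) : Om M T A) = (⟨M.simple s * w, h⟩, a) := dif_pos h

theorem act_loop (v : Fin n → A) (s : Fin n) {w : M.Group} (hw : MinP M T w) {x : Fin n}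
    (hx : x ∈ T) (h : M.simple s * w = w * M.simple x) (a : A) :
    act v s ((⟨w, hw⟩, a) : Om M T A) = (⟨w, hw⟩, v x * a) := by
  have hn : ¬ MinP M T (M.simple s * w) := not_min hw hx h
  unfold act
  rw [dif_neg hn]
  have h2 := h.symm.trans (Classical.choose_spec (deo hw s hn)).2
  rw [mul_left_cancel_iff] at h2
  rw [← JH14.simple_injective M h2]

theorem act_inv (v v' : Fin n → A) (hv : ∀ x, v' x * v x = 1) (s : Fin n) (p : Om M T A) :
    act v' s (act v s p) = p := by
  obtain ⟨⟨w, hw⟩, a⟩ := p
  by_cases h : MinP M T (M.simple s * w)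
  · rw [act_free v s hw h a]
    have h2 : MinP M T (M.simple s * (M.simple s * w)) := by rw [sq_left]; exact hw
    rw [act_free v' s h h2 a]
    simp only [sq_left]
  · obtain ⟨x, hx, hxw⟩ := deo hw s h
    rw [act_loop v s hw hx hxw, act_loop v' s hw hx hxw, ← mul_assoc, hv, one_mul]

/-- The action of a generator as a permutation. -/
noncomputable def pm (M : CoxeterMatrix (Fin n)) (T : Finset (Fin n)) (v : Fin n → A)
    (s : Fin n) : Equiv.Perm (Om M T A) where
  toFun := act v s
  invFun := act (fun x => (v x)⁻¹) s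
  left_inv := act_inv v _ (fun x => inv_mul_cancel (v x)) s
  right_inv := act_inv _ v (fun x => mul_inv_cancel (v x)) s

theorem pm_free (v : Fin n → A) (s : Fin n) {w : M.Group} (hw : MinP M T w)
    (h : MinP M T (M.simple s * w)) (a : A) :
    pm M T v s (⟨w, hw⟩, a) = (⟨M.simple s * w, h⟩, a) := act_free v s hw h a

theorem pm_loop (v : Fin n → A) (s : Fin n) {w : M.Group} (hw : MinP M T w) {x : Fin n}
    (hx : x ∈ T) (h : M.simple s * w = w * M.simple x) (a : A) :
    pm M T v s (⟨w, hw⟩, a) = (⟨w, hw⟩, v x * a) := act_loop v s hw hx h a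

theorem braidW (s t : Fin n) :
    alt (M.simple s) (M.simple t) (M s t) = alt (M.simple t) (M.simple s) (M s t) := by
  apply JH14.alt_of_involutions (sq s) (sq t)
  have := M.toCoxeterSystem.simple_mul_simple_pow s t
  rwa [CoxeterMatrix.toCoxeterSystem_simple] at this

/-! ### No loops -/

theorem all_min {D : Finset (Fin n)} {w' : M.Group} (hB : Bot M T D w')
    (hD : ∀ i ∈ D, MinP M T (M.simple i * w')) {g : M.Group} (hg : g ∈ WT M D) :
    MinP M T (g * w') := by
  obtain ⟨ω, h1, rfl⟩ := exists_word M D hg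
  clear hg
  induction ω with
  | nil => rw [CoxeterSystem.wordProd_nil, one_mul]; exact hB.min
  | cons r ω ih =>
    have h2 := ih (fun i hi => h1 i (List.mem_cons_of_mem _ hi))
    rw [CoxeterSystem.wordProd_cons, CoxeterMatrix.toCoxeterSystem_simple, mul_assoc]
    by_contra hb
    obtain ⟨i, hi, -, h4⟩ := hB.bad (MP_db6a6f_al.MinRepAux.wp_mem ω
      (fun i hi => h1 i (List.mem_cons_of_mem _ hi))) h2 (h1 r (by simp)) hb
    exact h4 (hD i hi)

theorem alt_free (v : Fin n → A) {D : Finset (Fin n)} {w' : M.Group}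
    (hm : ∀ g ∈ WT M D, MinP M T (g * w')) (k : ℕ) :
    ∀ (s t : Fin n), s ∈ D → t ∈ D → ∀ (w : M.Group) (hw : MinP M T w) (a : A),
      (∃ g ∈ WT M D, w = g * w') →
      ∃ h : MinP M T (alt (M.simple s) (M.simple t) k * w),
        alt (pm M T v s) (pm M T v t) k (⟨w, hw⟩, a) =
          (⟨alt (M.simple s) (M.simple t) k * w, h⟩, a) ∧
        ∃ g ∈ WT M D, alt (M.simple s) (M.simple t) k * w = g * w' := by
  induction k with
  | zero =>
    intro s t _ _ w hw a hg
    have e : alt (M.simple s) (M.simple t) 0 * w = w := one_mul w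
    refine ⟨by rw [e]; exact hw, ?_, by rw [e]; exact hg⟩
    change ((⟨w, hw⟩, a) : Om M T A) = _
    simp only [e]
  | succ k ih =>
    intro s t hs ht w hw a hg
    obtain ⟨h1, h2, g, h3, h4⟩ := ih t s ht hs w hw a hg
    have e : alt (M.simple s) (M.simple t) (k + 1) * w =
        M.simple s * (alt (M.simple t) (M.simple s) k * w) := by
      change M.simple s * alt (M.simple t) (M.simple s) k * w = _
      rw [mul_assoc]
    have e2 : M.simple s * (alt (M.simple t) (M.simple s) k * w) = M.simple s * g * w' := by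
      rw [h4, mul_assoc]
    have h5 : M.simple s * g ∈ WT M D := (WT M D).mul_mem (simple_mem_WT hs) h3
    have h6 : MinP M T (M.simple s * (alt (M.simple t) (M.simple s) k * w)) := by
      rw [e2]; exact hm _ h5
    refine ⟨by rw [e]; exact h6, ?_, M.simple s * g, h5, by rw [e, e2]⟩
    change pm M T v s (alt (pm M T v t) (pm M T v s) k (⟨w, hw⟩, a)) = _
    rw [h2, pm_free v s h1 h6]
    simp only [e]

/-! ### Two loops -/

theorem alt_loop (v : Fin n → A) {w' : M.Group} (hw : MinP M T w') (k : ℕ) :
    ∀ (s t x y : Fin n), x ∈ T → y ∈ T → M.simple s * w' = w' * M.simple x →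
      M.simple t * w' = w' * M.simple y → ∀ a : A,
      alt (pm M T v s) (pm M T v t) k (⟨w', hw⟩, a) = (⟨w', hw⟩, alt (v x) (v y) k * a) := by
  induction k with
  | zero =>
    intro s t x y _ _ _ _ a
    change (⟨w', hw⟩, a) = ((⟨w', hw⟩, 1 * a) : Om M T A)
    rw [one_mul]
  | succ k ih =>
    intro s t x y hx hy hs ht a
    change pm M T v s (alt (pm M T v t) (pm M T v s) k (⟨w', hw⟩, a)) = _
    rw [ih t s y x hy hx ht hs a, pm_loop v s hw hx hs]
    change _ = (_, v x * alt (v y) (v x) k * a)
    rw [mul_assoc]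

theorem pow_conj {w' s t x y : M.Group} (hs : s * w' = w' * x) (ht : t * w' = w' * y) {k : ℕ}
    (h : (s * t) ^ k = 1) : (x * y) ^ k = 1 := by
  have h1 : x * y = w'⁻¹ * (s * t) * (w'⁻¹)⁻¹ := by
    rw [inv_inv, mul_assoc, mul_assoc s t, ht, ← mul_assoc s, hs]
    group
  rw [h1, conj_pow, h]
  group

/-! ### One loop -/

/-- The products of `k` letters ending with `t`. -/
def gg (M : CoxeterMatrix (Fin n)) (s t : Fin n) : ℕ → M.Group
  | 0 => 1
  | k + 1 => M.simple (cond (Nat.bodd k) s t) * gg M s t k

theorem gg_succ (s t : Fin n) (k : ℕ) :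
    gg M s t (k + 1) = M.simple (cond (Nat.bodd k) s t) * gg M s t k := rfl

theorem gg_mem (s t : Fin n) (k : ℕ) : gg M s t k ∈ WT M {s, t} := by
  induction k with
  | zero => exact (WT M _).one_mem
  | succ k ih =>
    rw [gg_succ]
    refine (WT M _).mul_mem (simple_mem_WT ?_) ih
    cases Nat.bodd k <;> simp

theorem gA (s t : Fin n) (k : ℕ) :
    (gg M s t k)⁻¹ * (M.simple (cond (Nat.bodd (k + 1)) s t) *
      M.simple (cond (Nat.bodd k) s t)) * gg M s t k = M.simple s * M.simple t := by
  induction k with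
  | zero =>
    change (1 : M.Group)⁻¹ * (M.simple s * M.simple t) * 1 = _
    group
  | succ k ih =>
    rw [gg_succ, mul_inv_rev, inv_s]
    have h : Nat.bodd (k + 1 + 1) = Nat.bodd k := by
      rw [Nat.bodd_succ, Nat.bodd_succ, Bool.not_not]
    rw [h]
    rw [← ih]
    have h2 := sq (M := M) (cond (Nat.bodd k) s t)
    simp only [mul_assoc]
    rw [sq_left]

theorem gB (s t : Fin n) (k : ℕ) :
    M.simple s * ((gg M s t k)⁻¹ * M.simple (cond (Nat.bodd k) s t) * gg M s t k) =
      (M.simple s * M.simple t) ^ (k + 1) := by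
  induction k with
  | zero =>
    change M.simple s * ((1 : M.Group)⁻¹ * M.simple t * 1) = _
    rw [zero_add, pow_one]
    group
  | succ k ih =>
    rw [pow_succ, ← ih, ← gA (M := M) s t k, gg_succ, mul_inv_rev, inv_s]
    simp only [mul_assoc, mul_inv_cancel_left]

theorem gg_comm_iff (s t : Fin n) (k : ℕ) (h : (M.simple s * M.simple t) ^ (k + 1) = 1) :
    M.simple (cond (Nat.bodd k) s t) * gg M s t k = gg M s t k * M.simple s := by
  have h1 := gB (M := M) s t k
  rw [h] at h1
  have h2 : (gg M s t k)⁻¹ * M.simple (cond (Nat.bodd k) s t) * gg M s t k = M.simple s := by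
    rw [← inv_s s]
    exact eq_inv_of_mul_eq_one_right h1
  calc M.simple (cond (Nat.bodd k) s t) * gg M s t k
      = gg M s t k * ((gg M s t k)⁻¹ * M.simple (cond (Nat.bodd k) s t) * gg M s t k) := by group
    _ = gg M s t k * M.simple s := by rw [h2]

theorem gg_min {s t : Fin n} {w' : M.Group} (hB : Bot M T {s, t} w')
    (ht : MinP M T (M.simple t * w')) (k : ℕ) : k < M s t → MinP M T (gg M s t k * w') := by
  induction k with
  | zero =>
    intro _
    change MinP M T (1 * w')
    rw [one_mul]
    exact hB.min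
  | succ k ih =>
    intro hk
    have h1 := ih (by omega)
    rw [gg_succ, mul_assoc]
    by_contra hb
    obtain ⟨i, hi, h2, h3⟩ := hB.bad (gg_mem s t k) h1 (r := cond (Nat.bodd k) s t) (by
      cases Nat.bodd k <;> simp) hb
    rw [Finset.mem_insert, Finset.mem_singleton] at hi
    rcases hi with rfl | rfl
    · have h4 := gB (M := M) i t k
      rw [h2, sq] at h4
      have h5 := order M i t (k + 1) h4.symm
      have h6 := Nat.le_of_dvd (by omega) h5
      omega
    · exact h3 ht

theorem gg_step (s t x : Fin n) {w' : M.Group} (hx : M.simple s * w' = w' * M.simple x)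
    (_hm : M s t ≠ 0) (c : Bool) (k : ℕ) (hk : k < M s t) :
    ∃ j < M s t, M.simple (cond c s t) * (gg M s t k * w') = gg M s t j * w' ∨
      M.simple (cond c s t) * (gg M s t k * w') = gg M s t j * w' * M.simple x := by
  by_cases hc : c = Nat.bodd k
  · subst hc
    by_cases hk2 : k + 1 < M s t
    · exact ⟨k + 1, hk2, Or.inl (by rw [gg_succ, mul_assoc])⟩
    · refine ⟨k, hk, Or.inr ?_⟩
      have h1 : (M.simple s * M.simple t) ^ (k + 1) = 1 := by
        have h2 := M.toCoxeterSystem.simple_mul_simple_pow s t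
        rw [CoxeterMatrix.toCoxeterSystem_simple] at h2
        rw [show k + 1 = M s t by omega]
        exact h2
      rw [← mul_assoc, gg_comm_iff s t k h1, mul_assoc, hx, mul_assoc]
  · have hc2 : c = !(Nat.bodd k) := by
      cases c <;> cases hbk : Nat.bodd k <;> simp_all
    rcases k with _ | k
    · refine ⟨0, hk, Or.inr ?_⟩
      rw [hc2]
      change M.simple s * (1 * w') = 1 * w' * M.simple x
      rw [one_mul, hx]
    · refine ⟨k, by omega, Or.inl ?_⟩
      rw [hc2, Nat.bodd_succ, Bool.not_not, gg_succ, mul_assoc, sq_left]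

theorem reach (s t x : Fin n) {w' : M.Group} (hx : M.simple s * w' = w' * M.simple x)
    (hm : M s t ≠ 0) {g : M.Group} (hg : g ∈ WT M {s, t}) :
    ∃ k < M s t, g * w' = gg M s t k * w' ∨ g * w' = gg M s t k * w' * M.simple x := by
  obtain ⟨ω, h1, rfl⟩ := exists_word M _ hg
  clear hg
  induction ω with
  | nil =>
    refine ⟨0, by omega, Or.inl ?_⟩
    rw [CoxeterSystem.wordProd_nil]
    rfl
  | cons r ω ih =>
    obtain ⟨k, hk, h2⟩ := ih (fun i hi => h1 i (List.mem_cons_of_mem _ hi))
    have h3 := h1 r (by simp)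
    rw [Finset.mem_insert, Finset.mem_singleton] at h3
    obtain ⟨c, hc⟩ : ∃ c : Bool, r = cond c s t := by
      rcases h3 with rfl | rfl
      · exact ⟨true, rfl⟩
      · exact ⟨false, rfl⟩
    subst hc
    obtain ⟨j, hj, h4⟩ := gg_step s t x hx hm c k hk
    refine ⟨j, hj, ?_⟩
    rw [CoxeterSystem.wordProd_cons, CoxeterMatrix.toCoxeterSystem_simple, mul_assoc]
    rcases h2 with h2 | h2
    · rw [h2]
      exact h4
    · rw [h2, ← mul_assoc]
      rcases h4 with h4 | h4
      · exact Or.inr (by rw [h4])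
      · exact Or.inl (by rw [h4, sq_right])

open Classical in
/-- The points of the path. -/
noncomputable def zz (M : CoxeterMatrix (Fin n)) (T : Finset (Fin n)) (s t : Fin n)
    (p : {w : M.Group // MinP M T w}) (a : A) (k : ℕ) : Om M T A :=
  if h : MinP M T (gg M s t k * p.1) then (⟨gg M s t k * p.1, h⟩, a) else (p, a)

theorem rel_one (v : Fin n → A) {s t x : Fin n} {w' : M.Group} (hB : Bot M T {s, t} w')
    (ht : MinP M T (M.simple t * w')) (hxT : x ∈ T) (hx : M.simple s * w' = w' * M.simple x)
    (hm : M s t ≠ 0) {w : M.Group} (hw : MinP M T w) (hg : ∃ g ∈ WT M {s, t}, w = g * w')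
    (a : A) :
    alt (pm M T v s) (pm M T v t) (M s t) (⟨w, hw⟩, a) =
      alt (pm M T v t) (pm M T v s) (M s t) (⟨w, hw⟩, a) := by
  obtain ⟨g, hg1, hg2⟩ := hg
  have hz : ∀ (a : A) (k : ℕ) (hk : k < M s t), zz M T s t ⟨w', hB.min⟩ a k =
      (⟨gg M s t k * w', gg_min hB ht k hk⟩, a) := by
    intro a k hk
    unfold zz
    rw [dif_pos (gg_min hB ht k hk)]
  obtain ⟨k, hk, hwk⟩ : ∃ k < M s t, w = gg M s t k * w' := by
    obtain ⟨k, hk, h1 | h1⟩ := reach s t x hx hm hg1
    · exact ⟨k, hk, hg2.trans h1⟩
    · exfalso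
      exact not_min (gg_min hB ht k hk) hxT (hg2.trans h1) hw
  subst hwk
  set f : Bool → Om M T A → Om M T A := fun c => pm M T v (cond c s t) with hf
  have up : ∀ (a : A) (k : ℕ), k + 1 < M s t →
      f (Nat.bodd k) (zz M T s t ⟨w', hB.min⟩ a k) = zz M T s t ⟨w', hB.min⟩ a (k + 1) := by
    intro a k hk
    rw [hz a k (by omega), hz a (k + 1) hk]
    have h1 : MinP M T (M.simple (cond (Nat.bodd k) s t) * (gg M s t k * w')) := by
      rw [← mul_assoc, ← gg_succ]
      exact gg_min hB ht (k + 1) hk
    change pm M T v (cond (Nat.bodd k) s t) _ = _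
    rw [pm_free v _ _ h1]
    simp only [gg_succ, mul_assoc]
  have dn : ∀ (a : A) (k : ℕ), k + 1 < M s t →
      f (Nat.bodd k) (zz M T s t ⟨w', hB.min⟩ a (k + 1)) = zz M T s t ⟨w', hB.min⟩ a k := by
    intro a k hk
    rw [hz a k (by omega), hz a (k + 1) hk]
    have e : M.simple (cond (Nat.bodd k) s t) * (gg M s t (k + 1) * w') = gg M s t k * w' := by
      rw [gg_succ, mul_assoc, sq_left]
    have h1 : MinP M T (M.simple (cond (Nat.bodd k) s t) * (gg M s t (k + 1) * w')) := by
      rw [e]
      exact gg_min hB ht k (by omega)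
    change pm M T v (cond (Nat.bodd k) s t) _ = _
    rw [pm_free v _ _ h1]
    simp only [e]
  have hpow : (M.simple s * M.simple t) ^ (M s t - 1 + 1) = 1 := by
    have h2 := M.toCoxeterSystem.simple_mul_simple_pow s t
    rw [CoxeterMatrix.toCoxeterSystem_simple] at h2
    rw [show M s t - 1 + 1 = M s t by omega]
    exact h2
  have key := path f (M s t) (zz M T s t ⟨w', hB.min⟩ a) (zz M T s t ⟨w', hB.min⟩ (v x * a))
    Nat.bodd (fun k => Nat.bodd_succ k) (up a) (dn a) (up _) (dn _)
    (by
      rw [hz a 0 (by omega), hz _ 0 (by omega)]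
      change pm M T v s _ = _
      have e : M.simple s * (gg M s t 0 * w') = gg M s t 0 * w' * M.simple x := by
        change M.simple s * (1 * w') = 1 * w' * _
        rw [one_mul, hx]
      rw [pm_loop v s _ hxT e])
    (by
      rw [hz a _ (by omega), hz _ _ (by omega)]
      change pm M T v (cond (Nat.bodd (M s t - 1)) s t) _ = _
      have e : M.simple (cond (Nat.bodd (M s t - 1)) s t) * (gg M s t (M s t - 1) * w') =
          gg M s t (M s t - 1) * w' * M.simple x := by
        rw [← mul_assoc, gg_comm_iff s t _ hpow, mul_assoc, hx, mul_assoc]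
      rw [pm_loop v _ _ hxT e])
    k hk
  have h1 : ∀ c : Bool, ralt (pm M T v (cond c s t)) (pm M T v (cond (!c) s t)) (M s t)
      (⟨gg M s t k * w', hw⟩, a) = zz M T s t ⟨w', hB.min⟩ (v x * a) (M s t - 1 - k) := by
    intro c
    rw [← key c, hz a k hk]
    exact ralt_perm (fun c => pm M T v (cond c s t)) (M s t) c _
  have h2 := h1 true
  have h3 := h1 false
  rw [alt_eq_ralt, alt_eq_ralt]
  change ralt (pm M T v s) (pm M T v t) (M s t) _ = _ at h2
  change ralt (pm M T v t) (pm M T v s) (M s t) _ = _ at h3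
  split_ifs
  · rw [h3, h2]
  · rw [h3, h2]

/-- The braid relations. -/
theorem braid (v : Fin n → A)
    (hv : ∀ x ∈ T, ∀ y ∈ T, alt (v x) (v y) (M x y) = alt (v y) (v x) (M x y)) (s t : Fin n) :
    alt (pm M T v s) (pm M T v t) (M s t) = alt (pm M T v t) (pm M T v s) (M s t) := by
  by_cases hm : M s t = 0
  · rw [hm]
    rfl
  ext1 p
  obtain ⟨⟨w, hw⟩, a⟩ := p
  obtain ⟨w', hB, g, hg1, hg2⟩ := exists_bot (D := {s, t}) hw
  by_cases hs : MinP M T (M.simple s * w')
  · by_cases ht : MinP M T (M.simple t * w')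
    · have hm2 : ∀ g ∈ WT M {s, t}, MinP M T (g * w') := fun g hg => all_min hB (by
        intro i hi
        rw [Finset.mem_insert, Finset.mem_singleton] at hi
        rcases hi with rfl | rfl
        · exact hs
        · exact ht) hg
      obtain ⟨h1, h2, -⟩ := alt_free v hm2 (M s t) s t (by simp) (by simp) w hw a ⟨g, hg1, hg2⟩
      obtain ⟨h3, h4, -⟩ := alt_free v hm2 (M s t) t s (by simp) (by simp) w hw a ⟨g, hg1, hg2⟩
      rw [h2, h4]
      simp only [braidW (M := M) s t]
    · obtain ⟨y, hy, hyw⟩ := deo hB.min t ht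
      have hB2 : Bot M T {t, s} w' := by rwa [Finset.pair_comm]
      have := rel_one v hB2 hs hy hyw (by rwa [M.symmetric t s]) hw
        ⟨g, by rwa [Finset.pair_comm], hg2⟩ a
      rw [M.symmetric t s] at this
      exact this.symm
  · obtain ⟨x, hx, hxw⟩ := deo hB.min s hs
    by_cases ht : MinP M T (M.simple t * w')
    · exact rel_one v hB ht hx hxw hm hw ⟨g, hg1, hg2⟩ a
    · obtain ⟨y, hy, hyw⟩ := deo hB.min t ht
      have hww : w = w' := by
        have h1 : ∃ b ∈ WT M T, w = w' * b := by
          rw [hg2]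
          obtain ⟨ω, h1, rfl⟩ := exists_word M _ hg1
          clear hg1 hg2
          induction ω with
          | nil => exact ⟨1, (WT M T).one_mem, by simp⟩
          | cons r ω ih =>
            obtain ⟨b, hb, h2⟩ := ih (fun i hi => h1 i (List.mem_cons_of_mem _ hi))
            have h3 := h1 r (by simp)
            rw [Finset.mem_insert, Finset.mem_singleton] at h3
            rw [CoxeterSystem.wordProd_cons, CoxeterMatrix.toCoxeterSystem_simple, mul_assoc, h2]
            rcases h3 with rfl | rfl
            · exact ⟨M.simple x * b, (WT M T).mul_mem (simple_mem_WT hx) hb, by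
                rw [← mul_assoc, hxw, mul_assoc]⟩
            · exact ⟨M.simple y * b, (WT M T).mul_mem (simple_mem_WT hy) hb, by
                rw [← mul_assoc, hyw, mul_assoc]⟩
        obtain ⟨b, hb, hwb⟩ := h1
        by_contra hne
        have hb1 : b ≠ 1 := by
          rintro rfl
          exact hne (by rw [hwb, mul_one])
        have hmr := minRep exch (red exch) n M T
        have h2 := hmr w' (fun i hi hlt => by
          have := hB.min i hi
          change len _ < len _ at hlt
          omega) b hb hb1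
        have h3 := hmr w (fun i hi hlt => by
          have := hw i hi
          change len _ < len _ at hlt
          omega) b⁻¹ ((WT M T).inv_mem hb) (inv_ne_one.mpr hb1)
        rw [← hwb] at h2
        rw [show w * b⁻¹ = w' by rw [hwb]; group] at h3
        omega
      subst hww
      rw [alt_loop v hw (M s t) s t x y hx hy hxw hyw, alt_loop v hw (M s t) t s y x hy hx hyw hxw]
      have h5 : M x y ∣ M s t := by
        apply order
        have h2 := M.toCoxeterSystem.simple_mul_simple_pow s t
        rw [CoxeterMatrix.toCoxeterSystem_simple] at h2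
        exact pow_conj hxw hyw h2
      rw [alt_dvd (hv x hx y hy) h5]

end Act

end VL70

/-- Standard subgroups of Artin groups are Artin groups. -/
theorem stVL : StVL := by
  classical
  intro S _ M X F hF
  obtain ⟨n, ⟨e⟩⟩ := Finite.exists_equiv_fin S
  let M' : CoxeterMatrix (Fin n) := M.reindex e
  have hM' : ∀ s t : S, M' (e s) (e t) = M s t := by
    intro s t
    show M (e.symm (e s)) (e.symm (e t)) = M s t
    rw [e.symm_apply_apply, e.symm_apply_apply]
  have hM2 : ∀ i j : Fin n, M' i j = M (e.symm i) (e.symm j) := fun i j => rfl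
  let T : Finset (Fin n) := Finset.univ.filter (fun i => e.symm i ∈ X)
  have hT : ∀ i, i ∈ T ↔ e.symm i ∈ X := by
    intro i
    simp [T]
  let v : Fin n → ArtinGroup (res M X) := fun i =>
    if h : e.symm i ∈ X then ag (res M X) ⟨e.symm i, h⟩ else 1
  have hv : ∀ x ∈ T, ∀ y ∈ T, alt (v x) (v y) (M' x y) = alt (v y) (v x) (M' x y) := by
    intro x hx y hy
    rw [hT] at hx hy
    simp only [v, dif_pos hx, dif_pos hy]
    exact stJH.2.1 X (res M X) ⟨e.symm x, hx⟩ ⟨e.symm y, hy⟩
  obtain ⟨Φ, hΦ⟩ := stJH.1 S M (Equiv.Perm (VL70.Om M' T (ArtinGroup (res M X))))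
    (fun s => VL70.pm M' T v (e s)) (by
      intro s t
      have := VL70.braid (M := M') v hv (e s) (e t)
      rwa [hM' s t] at this)
  have key : ∀ a : ArtinGroup (res M X), ∀ b : ArtinGroup (res M X),
      Φ (F a) (⟨1, VL70.min_one⟩, b) = (⟨1, VL70.min_one⟩, a * b) := by
    intro a
    have ha : a ∈ Subgroup.closure (Set.range (ag (res M X))) := by
      have h1 : Subgroup.closure (Set.range (ag (res M X))) = ⊤ :=
        PresentedGroup.closure_range_of _
      rw [h1]
      trivial
    induction ha using Subgroup.closure_induction with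
    | mem x hx =>
      obtain ⟨s, rfl⟩ := hx
      intro b
      rw [hF, hΦ]
      have h1 : e.symm (e (s : S)) ∈ X := by rw [e.symm_apply_apply]; exact s.2
      have h2 : v (e s) = ag (res M X) s := by
        simp only [v, dif_pos h1]
        congr 1
        exact Subtype.ext (e.symm_apply_apply _)
      rw [VL70.pm_loop v (e s) VL70.min_one (x := e s) ((hT _).mpr h1)
        (by rw [mul_one, one_mul]), h2]
    | one =>
      intro b
      rw [map_one, map_one, one_mul]
      rfl
    | mul x y _ _ hx hy =>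
      intro b
      rw [map_mul, map_mul, Equiv.Perm.mul_apply, hy, hx, mul_assoc]
    | inv x _ hx =>
      intro b
      rw [map_inv, map_inv, Equiv.Perm.inv_eq_iff_eq, hx, mul_inv_cancel_left]
  rw [injective_iff_map_eq_one]
  intro a ha
  have h1 := key a 1
  rw [ha, map_one, mul_one] at h1
  exact (congrArg Prod.snd h1).symm

end Pool.Agent.Lib.MP_e6f638_al
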