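import Pool.Agent.Lib.MP_e6f638_al.J.JE
import Pool.Agent.Lib.MP_e6f638_al.J.JC1
import Pool.Agent.Lib.MP_e6f638_al.J.JC2_14
import Pool.Agent.Lib.MP_e6f638_al.J.JH_14
import Pool.Agent.Lib.MP_e6f638_al.J.JI
import Pool.Agent.Lib.MP_e6f638_al.J.JU_42
import Pool.Agent.Lib.MP_e6f638_al.J.VL_70

/-!
# Assembly
-/

set_option autoImplicit false

namespace Pool.Agent.Lib.MP_e6f638_al

theorem stJJ_all : StJJ := stJJ stJH

theorem stJP_all : StJP := stJP stJH

/-- Reduction to tight cliques. -/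
theorem stJR2_all : StJR2 := stJR2 stVL stJH stJE stJJ_all

/-- The unconditional part. -/
theorem stJU_all : StJU := stJU stJR2_all stJC1 stJP_all (stJD stJH)

end Pool.Agent.Lib.MP_e6f638_al
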