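import Pool.Agent.Lib.MP_e6f638_al.Fin

/-!
# Joining Artin groups along even labels at least six

`X`, `Y` sets of generators, `C` their intersection. If all labels between `X - C` and `Y - C` are
even and at least `6` (or infinite) and the labels between `C` and the rest are even (or infinite)
then the Artin group of the union embeds in an HNN extension of the amalgam of the Artin groups of
`X` and `Y` over that of `C`.
-/

set_option autoImplicit false

namespace Pool.Agent.Lib.MP_e6f638_al

open Multiplicative Pool.Agent.Results.MP_e6f638_al.EvenArtin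

/-! ## The data -/

/-- Two groups `G false`, `G true` with a common subgroup `B`, pairs of letters `v false z`,
`v true z` and exponents `n z ≥ 3`. -/
structure JDat (G : Bool → Type) [∀ c, Group (G c)] (B : Type) [Group B] where
  φ : ∀ c, B →* G c
  inj : ∀ c, Function.Injective (φ c)
  Z : Type
  v : ∀ c, Z → G c
  n : Z → ℕ
  h : ∀ c, G c →* Multiplicative ℤ
  v₀ : ∀ c, G c
  three_le : ∀ z, 3 ≤ n z
  h_v : ∀ c z, h c (v c z) = ofAdd 1
  h_v₀ : ∀ c, h c (v₀ c) = ofAdd 1
  h_B : ∀ c b, h c (φ c b) = 1
  comm : ∀ c z z' b b', v c z * φ c b = φ c b' * v c z' → v c z = v c z' ∧ b = b'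
  pair : ∀ z z', v false z = v false z' → v true z = v true z' → z = z'

namespace JDat

variable {G : Bool → Type} [∀ c, Group (G c)] {B : Type} [Group B] (D : JDat G B)

/-- The amalgam of the two groups. -/
abbrev Ah : Type := Monoid.PushoutI D.φ

/-- The factors in the amalgam. -/
abbrev of (c : Bool) : G c →* D.Ah := Monoid.PushoutI.of c

/-- The common subgroup in the amalgam. -/
abbrev base : B →* D.Ah := Monoid.PushoutI.base D.φ

/-- The subgroup of the amalgam generated by the elements of the factors of height zero. -/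
def P : Subgroup D.Ah := Subgroup.closure {x | ∃ (c : Bool) (g : G c), D.h c g = 1 ∧ x = D.of c g}

theorem base_mem_P (b : B) : D.base b ∈ D.P :=
  Subgroup.subset_closure ⟨false, D.φ false b, D.h_B false b,
    (Monoid.PushoutI.of_apply_eq_base D.φ false b).symm⟩

/-- The relators of `E`. -/
def rE : Set (Monoid.Coprod D.P (FreeGroup D.Z)) :=
  {r | ∃ (z : D.Z) (b : B), Commute (D.φ false b) (D.v false z) ∧
    Commute (D.φ true b) (D.v true z) ∧
    r = Monoid.Coprod.inr (FreeGroup.of z) * Monoid.Coprod.inl ⟨D.base b, D.base_mem_P b⟩ *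
      (Monoid.Coprod.inr (FreeGroup.of z))⁻¹ *
      (Monoid.Coprod.inl ⟨D.base b, D.base_mem_P b⟩)⁻¹}

/-- The group `E`. -/
abbrev E : Type := Monoid.Coprod D.P (FreeGroup D.Z) ⧸ Subgroup.normalClosure D.rE

/-- `P` in `E`. -/
def inE : D.P →* D.E := (QuotientGroup.mk' (Subgroup.normalClosure D.rE)).comp Monoid.Coprod.inl

/-- The letters of `E`. -/
def z (i : D.Z) : D.E :=
  QuotientGroup.mk' (Subgroup.normalClosure D.rE) (Monoid.Coprod.inr (FreeGroup.of i))

/-- `ψ` is the map of `E` to the amalgam, `z` goes to `(v c z * v c' z) ^ n z`. -/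
def IsPsi (c : Bool) (ψ : D.E →* D.Ah) : Prop :=
  (∀ p : D.P, ψ (D.inE p) = p) ∧
    ∀ i, ψ (D.z i) = (D.of c (D.v c i) * D.of (!c) (D.v (!c) i)) ^ D.n i

/-- `A` is `G false *_B G true` with the relations `(v false z * v true z) ^ n z =
(v true z * v false z) ^ n z`. -/
structure IsJoin (A : Type) [Group A] (e : ∀ c, G c →* A) : Prop where
  base : (e false).comp (D.φ false) = (e true).comp (D.φ true)
  rel : ∀ i, (e false (D.v false i) * e true (D.v true i)) ^ D.n i =
    (e true (D.v true i) * e false (D.v false i)) ^ D.n i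
  lift : ∀ (K : Type) [Group K] (f : ∀ c, G c →* K),
    (f false).comp (D.φ false) = (f true).comp (D.φ true) →
    (∀ i, (f false (D.v false i) * f true (D.v true i)) ^ D.n i =
      (f true (D.v true i) * f false (D.v false i)) ^ D.n i) →
    ∃ F : A →* K, ∀ c, F.comp (e c) = f c
  gen : Subgroup.closure (Set.range (e false) ∪ Set.range (e true)) = ⊤

end JDat

/-- Module JF. The maps of `E` to the amalgam are injective. -/
def StJF : Prop :=
  ∀ (G : Bool → Type) [∀ c, Group (G c)] (B : Type) [Group B] (D : JDat G B) (c : Bool),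
    ∃ ψ : D.E →* D.Ah, D.IsPsi c ψ ∧ Function.Injective ψ

/-- Module JE. The group `A` embeds in an HNN extension of the amalgam. -/
def StJE : Prop :=
  ∀ (G : Bool → Type) [∀ c, Group (G c)] (B : Type) [Group B] (D : JDat G B) (A : Type) [Group A]
    (e : ∀ c, G c →* A), D.IsJoin A e →
    ∃ (E E' : Subgroup D.Ah) (τ : E ≃* E') (F : A →* HNNExtension D.Ah E E' τ),
      Function.Injective F

/-! ## Classes of groups -/

/-- A class of groups closed under subgroups, amalgams of two groups and HNN extensions. -/
structure Cls (Pr : (G : Type) → [Group G] → Prop) : Prop where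
  inj : ∀ (G K : Type) [Group G] [Group K] (f : G →* K), Function.Injective f → Pr K → Pr G
  push : ∀ (G : Bool → Type) [∀ c, Group (G c)] (B : Type) [Group B] (φ : ∀ c, B →* G c),
    (∀ c, Function.Injective (φ c)) → (∀ c, Pr (G c)) → Pr (Monoid.PushoutI φ)
  hnn : ∀ (G : Type) [Group G] (A B : Subgroup G) (φ : A ≃* B), Pr G → Pr (HNNExtension G A B φ)

/-- Every subgroup without free subgroups of rank two is solvable, of bounded derived length. -/
def STA (G : Type) [Group G] : Prop := ∃ d : ℕ, TA d G

/-- Every subgroup without free subgroups of rank two has a subgroup of bounded index which is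
solvable of bounded derived length. -/
def VTA (G : Type) [Group G] : Prop :=
  ∃ N d : ℕ, ∀ H : Subgroup G, ¬ HasF2 H →
    ∃ H₀ : Subgroup H, H₀.index ≠ 0 ∧ H₀.index ≤ N ∧ derivedSeries H₀ d = ⊥

/-- Module JC1. -/
def StJC1 : Prop := Cls (fun G [Group G] => STA G)

/-- Module JC2. -/
def StJC2 : Prop := Cls (fun G [Group G] => VTA G)

/-! ## Artin groups -/

/-- The Coxeter matrix of a set of generators. -/
def res {S : Type} (M : CoxeterMatrix S) (X : Set S) : CoxeterMatrix X where
  M := fun s t => M (s : S) (t : S)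
  isSymm := by
    ext s t
    exact M.symmetric _ _
  diagonal := fun s => M.diagonal _
  off_diagonal := fun s t h => M.off_diagonal _ _ fun h' => h (Subtype.ext h')

/-- The generators of the Artin group. -/
def ag {S : Type} (M : CoxeterMatrix S) (s : S) : ArtinGroup M := PresentedGroup.of s

/-- `s` and `t` are joined by a path of odd labels in `X`. -/
def OddConn {S : Type} (M : CoxeterMatrix S) (X : Set S) : S → S → Prop :=
  Relation.ReflTransGen fun a b => a ∈ X ∧ b ∈ X ∧ Odd (M a b)

/-- `X` is tight: any two of its odd components are joined by a label `2` or `4`. -/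
def Tight {S : Type} (M : CoxeterMatrix S) (X : Set S) : Prop :=
  ∀ s ∈ X, ∀ t ∈ X, ¬ OddConn M X s t → ∃ s' ∈ X, ∃ t' ∈ X, OddConn M X s s' ∧ OddConn M X t t' ∧
    (M s' t' = 2 ∨ M s' t' = 4)

/-- Module JH. Homomorphisms of Artin groups; different generators are different. -/
def StJH : Prop :=
  (∀ (S : Type) (M : CoxeterMatrix S) (K : Type) [Group K] (f : S → K),
    (∀ s t, alt (f s) (f t) (M s t) = alt (f t) (f s) (M s t)) →
    ∃ F : ArtinGroup M →* K, ∀ s, F (ag M s) = f s) ∧
  (∀ (S : Type) (M : CoxeterMatrix S) (s t : S),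
    alt (ag M s) (ag M t) (M s t) = alt (ag M t) (ag M s) (M s t)) ∧
  (∀ (S : Type) [Finite S] (M : CoxeterMatrix S), Function.Injective (ag M))

/-- Module JJ. The Artin group of the union of `O₁`, `O₂` and `C` is a join, if the labels between
`O₁` and `O₂` are even and at least six or infinite and the labels between `C` and the rest are even
or infinite. -/
def StJJ : Prop :=
  ∀ (S : Type) [Finite S] (M : CoxeterMatrix S) (O : Bool → Set S),
    (∀ c, (O c).Nonempty) → Disjoint (O false) (O true) →
    (∀ c, ∀ s ∈ O c, ∀ t ∉ O c, Even (M s t)) →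
    (∀ s ∈ O false, ∀ t ∈ O true, M s t ≠ 2 ∧ M s t ≠ 4) →
    ∃ D : JDat (fun c => ArtinGroup (res M (O (!c))ᶜ))
        (ArtinGroup (res M (O false ∪ O true)ᶜ)),
      ∃ e : ∀ c, ArtinGroup (res M (O (!c))ᶜ) →* ArtinGroup M, D.IsJoin (ArtinGroup M) e

/-- Module JR. Reduction to tight sets. -/
def StJR : Prop :=
  ∀ (Pr : (G : Type) → [Group G] → Prop), Cls Pr → ∀ (S : Type) [Finite S] (M : CoxeterMatrix S),
    (∀ X : Set S, Tight M X → Pr (ArtinGroup (res M X))) → Pr (ArtinGroup M)

end Pool.Agent.Lib.MP_e6f638_al
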